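import Pool.Agent.GL.DefsL

/-!
Substitution of definable functions, relativisation to the constructible sets, components of
pairs and tuples.
-/

universe u

set_option linter.unusedSectionVars false

namespace Pool.Agent.GL

open Pool.Agent.SigB

section subst

variable {M : Type u} [Membership M M]

theorem dt_elim {N : Type u} {n m : ℕ} {t : Fin m → (Fin n → M) → M} (ht : ∀ i, DT (t i))
    (g : N → M) (s : Fin m ⊕ N) : DT (fun w => Sum.elim (fun i => t i w) g s) := by
  rcases s with i | a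
  · exact ht i
  · exact DT.const (g a)

theorem dfn_sat_subs : ∀ {m n : ℕ} (φ : Fml M m) {t : Fin m → (Fin n → M) → M}
    (_ : ∀ i, DT (t i)), Dfn (fun w : Fin n → M => φ.Sat fun i => t i w)
  | _, _, .mem s u, _, ht => Dfn.mem (dt_elim ht id s) (dt_elim ht id u)
  | _, _, .eq s u, _, ht => Dfn.eq (dt_elim ht id s) (dt_elim ht id u)
  | _, _, .neg φ, _, ht => (dfn_sat_subs φ ht).not
  | _, _, .and φ ψ, _, ht => (dfn_sat_subs φ ht).and (dfn_sat_subs ψ ht)
  | m, n, .ex φ, t, ht => by
    refine Dfn.ex (P := fun w x => φ.Sat (Fin.cons x fun i => t i w)) ?_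
    have ht' : ∀ i, DT ((Fin.cases (fun w => w 0) (fun i w => t i fun j => w j.succ) :
        Fin (m + 1) → (Fin (n + 1) → M) → M) i) := by
      intro i
      refine Fin.cases ?_ (fun i => ?_) i
      · exact DT.var 0
      · exact (ht i).ren Fin.succ
    refine (dfn_sat_subs φ ht').congr fun w => ?_
    have h1 : (fun i => (Fin.cases (fun w => w 0) (fun i w => t i fun j => w j.succ) :
        Fin (m + 1) → (Fin (n + 1) → M) → M) i w) =
        (Fin.cons (w 0) fun i => t i fun j => w j.succ : Fin (m + 1) → M) := by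
      funext i
      refine Fin.cases ?_ (fun i => ?_) i <;> rfl
    rw [h1]

end subst

end Pool.Agent.GL

namespace Pool.Agent.SigB

variable {M : Type u} [Membership M M] {n m : ℕ}

/-- Substitution of definable functions for all variables. -/
theorem Dfn.subs {P : (Fin m → M) → Prop} (h : Dfn P) {t : Fin m → (Fin n → M) → M}
    (ht : ∀ i, DT (t i)) : Dfn (fun w => P fun i => t i w) := by
  obtain ⟨φ, hφ⟩ := h
  exact (GL.dfn_sat_subs φ ht).congr fun w => (hφ _).symm

theorem DT.subs {f : (Fin m → M) → M} (h : DT f) {t : Fin m → (Fin n → M) → M}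
    (ht : ∀ i, DT (t i)) : DT (fun w => f fun i => t i w) := by
  have ht' : ∀ i, DT ((Fin.cases (fun w => w 0) (fun i w => t i fun j => w j.succ) :
      Fin (m + 1) → (Fin (n + 1) → M) → M) i) := by
    intro i
    refine Fin.cases ?_ (fun i => ?_) i
    · exact DT.var 0
    · exact (ht i).ren Fin.succ
  exact (Dfn.subs (P := fun w : Fin (m + 1) → M => w 0 = f fun i => w i.succ) h ht').congr
    fun w => Iff.rfl

/-- Finite conjunctions. -/
theorem Dfn.allFin : ∀ {k : ℕ} {P : Fin k → (Fin n → M) → Prop} (_ : ∀ i, Dfn (P i)),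
    Dfn (fun w => ∀ i, P i w)
  | 0, _, _ => (Dfn.const True).congr fun w => by simp
  | k + 1, P, h => ((h 0).and (Dfn.allFin fun i => h i.succ)).congr fun w => by
    rw [Fin.forall_fin_succ]

/-- Finite disjunctions. -/
theorem Dfn.exFin {k : ℕ} {P : Fin k → (Fin n → M) → Prop} (h : ∀ i, Dfn (P i)) :
    Dfn (fun w => ∃ i, P i w) :=
  (Dfn.allFin fun i => (h i).not).not.congr fun w => by simp

end Pool.Agent.SigB

namespace Pool.Agent.GL

open Pool.Agent.SigB

variable {M : Type u} [Membership M M] [IsZF M]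

theorem dfn_allLc (n : ℕ) : Dfn (fun v : Fin n → M => ∀ i, Lc (v i)) :=
  Dfn.allFin (P := fun i v => Lc (v i)) fun i => dfn_Lc (DT.var i)

theorem dfn_rel_sat : ∀ {n : ℕ} (φ : Fml (LM M) n),
    Dfn (fun v : Fin n → M => ∃ h : ∀ i, Lc (v i), φ.Sat fun i => (⟨v i, h i⟩ : LM M))
  | n, .mem s t => by
    refine ((dfn_allLc n).and (Dfn.mem
      (dt_elim (t := fun (i : Fin n) (v : Fin n → M) => v i) DT.var
        (Subtype.val : LM M → M) s)
      (dt_elim (t := fun (i : Fin n) (v : Fin n → M) => v i) DT.var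
        (Subtype.val : LM M → M) t))).congr fun v => ?_
    constructor
    · rintro ⟨h, h1⟩
      refine ⟨h, ?_⟩
      rcases s with s | s <;> rcases t with t | t <;> exact h1
    · rintro ⟨h, h1⟩
      refine ⟨h, ?_⟩
      rcases s with s | s <;> rcases t with t | t <;> exact h1
  | n, .eq s t => by
    refine ((dfn_allLc n).and (Dfn.eq
      (dt_elim (t := fun (i : Fin n) (v : Fin n → M) => v i) DT.var
        (Subtype.val : LM M → M) s)
      (dt_elim (t := fun (i : Fin n) (v : Fin n → M) => v i) DT.var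
        (Subtype.val : LM M → M) t))).congr fun v => ?_
    constructor
    · rintro ⟨h, h1⟩
      refine ⟨h, Subtype.ext ?_⟩
      rcases s with s | s <;> rcases t with t | t <;> exact h1
    · rintro ⟨h, h1⟩
      refine ⟨h, ?_⟩
      have h2 := congrArg Subtype.val h1
      rcases s with s | s <;> rcases t with t | t <;> exact h2
  | n, .neg φ => by
    refine ((dfn_allLc n).and (dfn_rel_sat φ).not).congr fun v => ?_
    constructor
    · rintro ⟨h, h1⟩
      exact ⟨h, fun h2 => h1 ⟨h, h2⟩⟩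
    · rintro ⟨h, h1⟩
      exact ⟨h, fun ⟨_, h2⟩ => h1 h2⟩
  | n, .and φ ψ => by
    refine ((dfn_rel_sat φ).and (dfn_rel_sat ψ)).congr fun v => ?_
    constructor
    · rintro ⟨⟨h, h1⟩, ⟨_, h2⟩⟩
      exact ⟨h, h1, h2⟩
    · rintro ⟨h, h1, h2⟩
      exact ⟨⟨h, h1⟩, ⟨h, h2⟩⟩
  | n, .ex φ => by
    refine ((dfn_allLc n).and (Dfn.ex (P := fun (v : Fin n → M) x =>
      ∃ h : ∀ i, Lc ((Fin.cons x v : Fin (n + 1) → M) i),
        φ.Sat fun i => (⟨(Fin.cons x v : Fin (n + 1) → M) i, h i⟩ : LM M)) ?_)).congr fun v => ?_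
    · refine (dfn_rel_sat φ).congr fun w => ?_
      have h1 : (Fin.cons (w 0) fun i => w i.succ : Fin (n + 1) → M) = w := Fin.cons_self_tail w
      rw [h1]
    · have key : ∀ (x : M) (hx : Lc x) (h : ∀ i, Lc (v i))
          (h' : ∀ i, Lc ((Fin.cons x v : Fin (n + 1) → M) i)),
          (fun i => (⟨(Fin.cons x v : Fin (n + 1) → M) i, h' i⟩ : LM M)) =
          Fin.cons (⟨x, hx⟩ : LM M) fun i => (⟨v i, h i⟩ : LM M) := by
        intro x hx h h'
        funext i
        refine Fin.cases ?_ (fun i => ?_) i <;> rfl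
      constructor
      · rintro ⟨h, x, h', h2⟩
        have hx : Lc x := h' 0
        exact ⟨h, ⟨x, hx⟩, (congrArg φ.Sat (key x hx h h')).mp h2⟩
      · rintro ⟨h, x, h2⟩
        have h' : ∀ i, Lc ((Fin.cons x.1 v : Fin (n + 1) → M) i) := by
          intro i
          refine Fin.cases ?_ (fun i => ?_) i
          · exact x.2
          · exact h i
        exact ⟨h, x.1, h', (congrArg φ.Sat (key x.1 x.2 h h')).mpr h2⟩

/-- Relativisation to the constructible sets. -/
theorem dfn_rel {n : ℕ} {P : (Fin n → LM M) → Prop} (h : Dfn P) :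
    Dfn (fun v : Fin n → M => ∃ h : ∀ i, Lc (v i), P fun i => ⟨v i, h i⟩) := by
  obtain ⟨φ, hφ⟩ := h
  exact (dfn_rel_sat φ).congr fun v => exists_congr fun h => (hφ _).symm

/-! ### Components -/

/-- The first component of a pair. -/
noncomputable def fst (z : M) : M := cp fun w => ∃ x, ∃ y, z = op x y ∧ w ∈ x

/-- The second component of a pair. -/
noncomputable def snd (z : M) : M := cp fun w => ∃ x, ∃ y, z = op x y ∧ w ∈ y

@[simp] theorem fst_op (x y : M) : fst (op x y) = x := by
  have h : ∀ w, (∃ x', ∃ y', op x y = op x' y' ∧ w ∈ x') ↔ w ∈ x := by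
    intro w
    constructor
    · rintro ⟨x', y', h, hw⟩
      rwa [(op_inj.1 h).1]
    · intro hw
      exact ⟨x, y, rfl, hw⟩
  unfold fst
  exact ext' fun w => by rw [mem_cp ⟨x, fun w => (h w).symm⟩, h w]

@[simp] theorem snd_op (x y : M) : snd (op x y) = y := by
  have h : ∀ w, (∃ x', ∃ y', op x y = op x' y' ∧ w ∈ y') ↔ w ∈ y := by
    intro w
    constructor
    · rintro ⟨x', y', h, hw⟩
      rwa [(op_inj.1 h).2]
    · intro hw
      exact ⟨x, y, rfl, hw⟩
  unfold snd
  exact ext' fun w => by rw [mem_cp ⟨y, fun w => (h w).symm⟩, h w]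

theorem fst.dt : DT (fun w : Fin 1 → M => fst (w 0)) := by
  unfold fst; simp (maxDischargeDepth := 50)

@[simp] theorem dt_fst {n : ℕ} {s : (Fin n → M) → M} (hs : DT s) :
    DT (fun v => fst (s v)) := dt1 fst.dt hs

theorem snd.dt : DT (fun w : Fin 1 → M => snd (w 0)) := by
  unfold snd; simp (maxDischargeDepth := 50)

@[simp] theorem dt_snd {n : ℕ} {s : (Fin n → M) → M} (hs : DT s) :
    DT (fun v => snd (s v)) := dt1 snd.dt hs

/-- The `k`-th component of the code of a tuple. -/
noncomputable def cmpN : ℕ → M → M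
  | 0, t => fst t
  | k + 1, t => cmpN k (snd t)

/-- The `i`-th component of the code of a tuple. -/
noncomputable def cmp {n : ℕ} (i : Fin n) (t : M) : M := cmpN i.1 t

theorem dt_cmpN {n : ℕ} (k : ℕ) {s : (Fin n → M) → M} (hs : DT s) :
    DT (fun v => cmpN k (s v)) := by
  induction k generalizing s with
  | zero => exact dt_fst hs
  | succ k ih => exact ih (dt_snd hs)

@[simp] theorem dt_cmp {n m : ℕ} (i : Fin m) {s : (Fin n → M) → M} (hs : DT s) :
    DT (fun v => cmp i (s v)) := dt_cmpN i.1 hs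

theorem cmpN_tup : ∀ {n : ℕ} (v : Fin n → M) (i : Fin n), cmpN i.1 (tup v) = v i
  | 0, _, i => i.elim0
  | n + 1, v, i => by
    refine Fin.cases ?_ (fun i => ?_) i
    · change fst (op (v 0) (tup fun i => v i.succ)) = v 0
      rw [fst_op]
    · change cmpN i.1 (snd (op (v 0) (tup fun i => v i.succ))) = v i.succ
      rw [snd_op]
      exact cmpN_tup (fun i => v i.succ) i

@[simp] theorem cmp_tup {n : ℕ} (v : Fin n → M) (i : Fin n) : cmp i (tup v) = v i :=
  cmpN_tup v i

theorem tup_inj {n : ℕ} {v w : Fin n → M} (h : tup v = tup w) : v = w := by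
  funext i
  rw [← cmp_tup v i, h, cmp_tup]

theorem dt_tup : ∀ {n m : ℕ} {t : Fin m → (Fin n → M) → M} (_ : ∀ i, DT (t i)),
    DT (fun w => tup fun i => t i w)
  | _, 0, _, _ => DT.const em
  | _, _ + 1, _, ht => dt_op (ht 0) (dt_tup fun i => ht i.succ)

end Pool.Agent.GL
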