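import Pool.Agent.GL.Base
import Pool.Agent.GL.Rel

/-!
The normal form: the set of the codes of the tuples in a constructible set which satisfy a formula
in the structure of the constructible sets is constructible.
-/

universe u

set_option linter.unusedSectionVars false

namespace Pool.Agent.GL

open Pool.Agent.SigB

variable {M : Type u} [Membership M M] [IsZF M]

/-! ### Closure properties of the class of constructible sets -/

theorem Lc.npr {x y : M} (hx : Lc x) (hy : Lc y) : Lc (pr x y) := by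
  have h : Gf .c0 x y = pr x y := ext' fun z => by rw [mem_Gf, mem_pr]; rfl
  rw [← h]
  exact hx.gf _ hy

theorem Lc.nop {x y : M} (hx : Lc x) (hy : Lc y) : Lc (op x y) :=
  (hx.npr hx).npr (hx.npr hy)

theorem Lc.ndf {x y : M} (hx : Lc x) (hy : Lc y) : Lc (df x y) := by
  have h : Gf .c1 x y = df x y := ext' fun z => by rw [mem_Gf, mem_df]; rfl
  rw [← h]
  exact hx.gf _ hy

theorem Lc.nit {x y : M} (hx : Lc x) (hy : Lc y) : Lc (it x y) := by
  have h : df x (df x y) = it x y := ext' fun z => by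
    rw [mem_df, mem_df, mem_it]
    tauto
  rw [← h]
  exact hx.ndf (hx.ndf hy)

theorem Lc.of_op {x y : M} (h : Lc (op x y)) : Lc x ∧ Lc y := by
  have h1 : pr x y ∈ op x y := mem_pr.2 (Or.inr rfl)
  exact ⟨(h.mem h1).mem (mem_pr.2 (Or.inl rfl)), (h.mem h1).mem (mem_pr.2 (Or.inr rfl))⟩

theorem mem_of_op_mem {X x y : M} (hX : Tr X) (h : op x y ∈ X) : x ∈ X ∧ y ∈ X := by
  have h1 : pr x y ∈ op x y := mem_pr.2 (Or.inr rfl)
  have h2 := hX _ h _ h1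
  exact ⟨hX _ h2 _ (mem_pr.2 (Or.inl rfl)), hX _ h2 _ (mem_pr.2 (Or.inr rfl))⟩

theorem Lc.npd {a b : M} (ha : Lc a) (hb : Lc b) : Lc (pd a b) := by
  have hs : ∀ z, z ∈ pd a b → Lc z := by
    intro z hz
    obtain ⟨x, hx, y, hy, rfl⟩ := mem_pd.1 hz
    exact (ha.mem hx).nop (hb.mem hy)
  obtain ⟨δ, -, hX, -, -, hsub, -⟩ := exists_lc_sup (pd a b) hs
  have h : it (Gf .c2 (XX δ) a) (Gf .c3 (XX δ) b) = pd a b := by
    refine ext' fun z => ?_
    rw [mem_it, mem_Gf, mem_Gf, mem_pd]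
    constructor
    · rintro ⟨⟨-, p, q, rfl, hp⟩, -, p', q', h, hq⟩
      obtain ⟨rfl, rfl⟩ := op_inj.1 h
      exact ⟨p, hp, q, hq, rfl⟩
    · rintro ⟨x, hx, y, hy, rfl⟩
      have h1 : op x y ∈ XX δ := hsub _ (op_mem_pd.2 ⟨hx, hy⟩)
      exact ⟨⟨h1, x, y, rfl, hx⟩, h1, x, y, rfl, hy⟩
  rw [← h]
  exact (hX.gf _ ha).nit (hX.gf _ hb)

/-- The set of the second coordinates. -/
noncomputable def scd (Y : M) : M := cp fun z => ∃ a, op a z ∈ Y

theorem mem_scd {Y z : M} : z ∈ scd Y ↔ ∃ a, op a z ∈ Y := by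
  unfold scd
  refine mem_cp' (by simp (maxDischargeDepth := 50)) ⟨sU (sU Y), ?_⟩
  rintro z ⟨a, h⟩
  exact mem_sU.2 ⟨pr a z, mem_sU.2 ⟨op a z, h, mem_pr.2 (Or.inr rfl)⟩, mem_pr.2 (Or.inr rfl)⟩

theorem Lc.nscd {Y : M} (hY : Lc Y) : Lc (scd Y) := by
  obtain ⟨δ, -, hX, -, -, hsub, -⟩ := exists_lc_sup (scd Y) fun z hz => by
    obtain ⟨a, h⟩ := mem_scd.1 hz
    exact (hY.mem h).of_op.2
  have h : Gf .c4 (XX δ) Y = scd Y := by
    refine ext' fun z => ?_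
    rw [mem_Gf]
    constructor
    · rintro ⟨-, h⟩
      exact mem_scd.2 h
    · intro h
      exact ⟨hsub _ h, mem_scd.1 h⟩
  rw [← h]
  exact hX.gf _ hY

/-! ### Tuples -/

/-- The code of a tuple of constructible sets. -/
noncomputable def tp {n : ℕ} (v : Fin n → LM M) : M := tup fun i => (v i).1

theorem tp_inj {n : ℕ} {v w : Fin n → LM M} (h : tp v = tp w) : v = w := by
  have h1 := tup_inj h
  funext i
  exact Subtype.ext (congrFun h1 i)

theorem tp_succ {n : ℕ} (v : Fin (n + 1) → LM M) : tp v = op (v 0).1 (tp fun i => v i.succ) := rfl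

theorem tp_cons {n : ℕ} (x : LM M) (v : Fin n → LM M) :
    tp (Fin.cons x v : Fin (n + 1) → LM M) = op x.1 (tp v) := by
  rw [tp_succ]
  simp

/-- The set of the codes of the `n`-tuples in `b`. -/
noncomputable def Tt (b : M) : ℕ → M
  | 0 => pr em em
  | n + 1 => pd b (Tt b n)

theorem lc_Tt {b : M} (hb : Lc b) (n : ℕ) : Lc (Tt b n) := by
  induction n with
  | zero => exact lc_em.npr lc_em
  | succ n ih => exact hb.npd ih

theorem mem_Tt {b : M} (hb : Lc b) {n : ℕ} : ∀ {t : M}, t ∈ Tt b n ↔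
    ∃ v : Fin n → LM M, (∀ i, (v i).1 ∈ b) ∧ t = tp v := by
  induction n with
  | zero =>
    intro t
    change t ∈ pr em em ↔ _
    rw [mem_pr, or_self]
    constructor
    · intro h
      exact ⟨Fin.elim0, fun i => i.elim0, h⟩
    · rintro ⟨v, -, rfl⟩
      rfl
  | succ n ih =>
    intro t
    change t ∈ pd b (Tt b n) ↔ _
    rw [mem_pd]
    constructor
    · rintro ⟨x, hx, y, hy, rfl⟩
      obtain ⟨v, hv, rfl⟩ := ih.1 hy
      refine ⟨Fin.cons ⟨x, hb.mem hx⟩ v, fun i => ?_, (tp_cons (⟨x, hb.mem hx⟩ : LM M) v).symm⟩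
      refine Fin.cases ?_ (fun i => ?_) i
      · exact hx
      · exact hv i
    · rintro ⟨v, hv, rfl⟩
      exact ⟨_, hv 0, _, ih.2 ⟨fun i => v i.succ, fun i => hv _, rfl⟩, tp_succ v⟩

/-! ### Atomic formulas -/

/-- The value of a term. -/
def vl {n : ℕ} (v : Fin n → LM M) (s : Fin n ⊕ LM M) : M := (Sum.elim v id s).1

theorem exists_graph_var {b : M} (hb : Lc b) {n : ℕ} : ∀ i : Fin n, ∃ q : M, Lc q ∧
    ∀ z, z ∈ q ↔ ∃ v : Fin n → LM M, (∀ i, (v i).1 ∈ b) ∧ z = op (v i).1 (tp v) := by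
  induction n with
  | zero => exact fun i => i.elim0
  | succ n ih =>
    intro i
    refine Fin.cases ?_ (fun i => ?_) i
    · refine ⟨Gf .c7 (pd b (Tt b (n + 1))) em, (hb.npd (lc_Tt hb _)).gf _ lc_em, fun z => ?_⟩
      rw [mem_Gf]
      constructor
      · rintro ⟨hz, x, t, rfl⟩
        obtain ⟨h1, h2⟩ := op_mem_pd.1 hz
        obtain ⟨v, hv, h3⟩ := (mem_Tt hb).1 h2
        rw [h3]
        rw [tp_succ] at h3
        rw [(op_inj.1 h3).1]
        exact ⟨v, hv, rfl⟩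
      · rintro ⟨v, hv, rfl⟩
        exact ⟨op_mem_pd.2 ⟨hv 0, (mem_Tt hb).2 ⟨v, hv, rfl⟩⟩, (v 0).1, tp fun i => v i.succ, rfl⟩
    · obtain ⟨q, hq, hq'⟩ := ih i
      refine ⟨Gf .c8 (pd b (Tt b (n + 1))) q, (hb.npd (lc_Tt hb _)).gf _ hq, fun z => ?_⟩
      rw [mem_Gf]
      constructor
      · rintro ⟨hz, x, y, t, rfl, h⟩
        obtain ⟨h1, h2⟩ := op_mem_pd.1 hz
        obtain ⟨v, hv, h3⟩ := (mem_Tt hb).1 h2
        obtain ⟨w, hw, h4⟩ := (hq' _).1 h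
        rw [h3]
        rw [tp_succ] at h3
        obtain ⟨h5, h6⟩ := op_inj.1 h3
        obtain ⟨h7, h8⟩ := op_inj.1 h4
        have h9 : (fun i => v i.succ) = w := tp_inj (h6.symm.trans h8)
        refine ⟨v, hv, ?_⟩
        rw [h7, ← h9]
      · rintro ⟨v, hv, rfl⟩
        refine ⟨op_mem_pd.2 ⟨hv _, (mem_Tt hb).2 ⟨v, hv, rfl⟩⟩, (v i.succ).1, (v 0).1,
          tp fun i => v i.succ, by rw [tp_succ], (hq' _).2 ⟨fun i => v i.succ, fun i => hv _, rfl⟩⟩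

theorem exists_graph {b : M} (hb : Lc b) {n : ℕ} (s : Fin n ⊕ LM M) : ∃ q : M, Lc q ∧
    ∀ z, z ∈ q ↔ ∃ v : Fin n → LM M, (∀ i, (v i).1 ∈ b) ∧ z = op (vl v s) (tp v) := by
  rcases s with i | c
  · exact exists_graph_var hb i
  · refine ⟨pd (pr c.1 c.1) (Tt b n), (c.2.npr c.2).npd (lc_Tt hb n), fun z => ?_⟩
    rw [mem_pd]
    constructor
    · rintro ⟨x, hx, y, hy, rfl⟩
      obtain ⟨v, hv, rfl⟩ := (mem_Tt hb).1 hy
      rw [mem_pr, or_self] at hx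
      exact ⟨v, hv, by rw [hx]; rfl⟩
    · rintro ⟨v, hv, rfl⟩
      exact ⟨_, mem_pr.2 (Or.inl rfl), _, (mem_Tt hb).2 ⟨v, hv, rfl⟩, rfl⟩

theorem exists_graph2 {b : M} (hb : Lc b) {n : ℕ} (s t : Fin n ⊕ LM M) : ∃ q : M, Lc q ∧
    ∀ z, z ∈ q ↔ ∃ v : Fin n → LM M, (∀ i, (v i).1 ∈ b) ∧
      z = op (vl v s) (op (vl v t) (tp v)) := by
  obtain ⟨p, hp, hp'⟩ := exists_graph hb s
  obtain ⟨q, hq, hq'⟩ := exists_graph hb t
  obtain ⟨δ, -, hX, -, hT, hsub, -⟩ := exists_lc_sup p fun z hz => hp.mem hz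
  refine ⟨Gf .c8 (pd (XX δ) q) p, (hX.npd hq).gf _ hp, fun z => ?_⟩
  rw [mem_Gf]
  constructor
  · rintro ⟨hz, x, y, τ, rfl, h⟩
    obtain ⟨h1, h2⟩ := op_mem_pd.1 hz
    obtain ⟨v, hv, h3⟩ := (hq' _).1 h2
    obtain ⟨w, hw, h4⟩ := (hp' _).1 h
    obtain ⟨h5, h6⟩ := op_inj.1 h3
    obtain ⟨h7, h8⟩ := op_inj.1 h4
    have h9 : v = w := tp_inj (h6.symm.trans h8)
    subst h9
    exact ⟨v, hv, by rw [h7, h5, h6]⟩
  · rintro ⟨v, hv, rfl⟩
    have h1 : op (vl v s) (tp v) ∈ p := (hp' _).2 ⟨v, hv, rfl⟩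
    exact ⟨op_mem_pd.2 ⟨(mem_of_op_mem hT (hsub _ h1)).1, (hq' _).2 ⟨v, hv, rfl⟩⟩, _, _, _, rfl, h1⟩

/-! ### The normal form -/

theorem normal_form {n : ℕ} (φ : Fml (LM M) n) (b : M) (hb : Lc b) : ∃ d : M, Lc d ∧
    ∀ t, t ∈ d ↔ ∃ v : Fin n → LM M, (∀ i, (v i).1 ∈ b) ∧ φ.Sat v ∧ t = tup fun i => (v i).1 := by
  suffices h : ∀ b : M, Lc b → ∃ d : M, Lc d ∧
      ∀ t, t ∈ d ↔ ∃ v : Fin n → LM M, (∀ i, (v i).1 ∈ b) ∧ φ.Sat v ∧ t = tp v from h b hb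
  clear hb b
  induction φ with
  | @mem n s t =>
    intro b hb
    obtain ⟨q, hq, hq'⟩ := exists_graph2 hb s t
    refine ⟨scd (scd (Gf .c6 q em)), (hq.gf _ lc_em).nscd.nscd, fun z => ?_⟩
    simp only [mem_scd, mem_Gf, Qx, hq']
    constructor
    · rintro ⟨a, a', ⟨v, hv, h1⟩, x, y, τ, h2, h3⟩
      obtain ⟨h4, h5⟩ := op_inj.1 h1
      obtain ⟨h6, h7⟩ := op_inj.1 h5
      obtain ⟨h8, h9⟩ := op_inj.1 h2
      obtain ⟨h10, h11⟩ := op_inj.1 h9
      refine ⟨v, hv, ?_, h7⟩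
      change vl v s ∈ vl v t
      rwa [← h4, ← h6, h8, h10]
    · rintro ⟨v, hv, h1, rfl⟩
      exact ⟨vl v t, vl v s, ⟨v, hv, rfl⟩, _, _, _, rfl, h1⟩
  | @eq n s t =>
    intro b hb
    obtain ⟨q, hq, hq'⟩ := exists_graph2 hb s t
    refine ⟨scd (scd (Gf .c7 q em)), (hq.gf _ lc_em).nscd.nscd, fun z => ?_⟩
    simp only [mem_scd, mem_Gf, Qx, hq']
    constructor
    · rintro ⟨a, a', ⟨v, hv, h1⟩, x, τ, h2⟩
      obtain ⟨h4, h5⟩ := op_inj.1 h1
      obtain ⟨h6, h7⟩ := op_inj.1 h5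
      obtain ⟨h8, h9⟩ := op_inj.1 h2
      obtain ⟨h10, h11⟩ := op_inj.1 h9
      refine ⟨v, hv, ?_, h7⟩
      refine Subtype.ext ?_
      change vl v s = vl v t
      rw [← h4, ← h6, h8, h10]
    · rintro ⟨v, hv, h1, rfl⟩
      have h2 : vl v s = vl v t := congrArg Subtype.val h1
      exact ⟨vl v t, vl v s, ⟨v, hv, rfl⟩, vl v s, tp v, by rw [← h2]⟩
  | @neg n φ ih =>
    intro b hb
    obtain ⟨d, hd, hd'⟩ := ih b hb
    refine ⟨df (Tt b n) d, (lc_Tt hb n).ndf hd, fun z => ?_⟩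
    rw [mem_df, mem_Tt hb, hd']
    constructor
    · rintro ⟨⟨v, hv, rfl⟩, h⟩
      exact ⟨v, hv, fun h1 => h ⟨v, hv, h1, rfl⟩, rfl⟩
    · rintro ⟨v, hv, h1, rfl⟩
      refine ⟨⟨v, hv, rfl⟩, ?_⟩
      rintro ⟨w, -, h2, h3⟩
      rw [tp_inj h3] at h1
      exact h1 h2
  | @and n φ ψ ih ih' =>
    intro b hb
    obtain ⟨d, hd, hd'⟩ := ih b hb
    obtain ⟨e, he, he'⟩ := ih' b hb
    refine ⟨it d e, hd.nit he, fun z => ?_⟩
    rw [mem_it, hd', he']
    constructor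
    · rintro ⟨⟨v, hv, h1, rfl⟩, w, -, h2, h3⟩
      rw [← tp_inj h3] at h2
      exact ⟨v, hv, ⟨h1, h2⟩, rfl⟩
    · rintro ⟨v, hv, ⟨h1, h2⟩, rfl⟩
      exact ⟨⟨v, hv, h1, rfl⟩, v, hv, h2, rfl⟩
  | @ex n φ ih =>
    intro b hb
    -- the relation for collection
    let P : (Fin (n + 1) → M) → Prop := fun v => ∃ h : ∀ i, Lc (v i), φ.Sat fun i => ⟨v i, h i⟩
    have hP : Dfn P := dfn_rel (P := fun v : Fin (n + 1) → LM M => φ.Sat v)
      ⟨φ, fun v => Iff.rfl⟩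
    let R : M → M → Prop := fun t x => P (Fin.cons x fun i => cmp i t)
    have hR : Dfn (fun w : Fin 2 → M => R (w 0) (w 1)) := by
      have h1 : ∀ i : Fin (n + 1), DT ((Fin.cons (fun w : Fin 2 → M => w 1)
          (fun (i : Fin n) (w : Fin 2 → M) => cmp i (w 0)) :
            Fin (n + 1) → (Fin 2 → M) → M) i) := by
        intro i
        refine Fin.cases ?_ (fun i => ?_) i
        · exact DT.var 1
        · exact dt_cmp i (DT.var 0)
      refine (hP.subs h1).congr fun w => ?_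
      have h2 : (fun i => (Fin.cons (fun w : Fin 2 → M => w 1)
          (fun (i : Fin n) (w : Fin 2 → M) => cmp i (w 0)) :
            Fin (n + 1) → (Fin 2 → M) → M) i w) =
          (Fin.cons (w 1) fun i => cmp i (w 0) : Fin (n + 1) → M) := by
        funext i
        refine Fin.cases ?_ (fun i => ?_) i <;> rfl
      rw [h2]
    have hRt : ∀ (v : Fin n → LM M) (x : M), R (tp v) x ↔
        ∃ h : Lc x, φ.Sat (Fin.cons ⟨x, h⟩ v) := by
      intro v x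
      have h1 : (fun i => cmp i (tp v)) = fun i => (v i).1 := by
        funext i
        exact cmp_tup _ i
      change P (Fin.cons x fun i => cmp i (tp v)) ↔ _
      rw [h1]
      constructor
      · rintro ⟨h, h2⟩
        refine ⟨h 0, ?_⟩
        have h3 : (fun i => (⟨(Fin.cons x fun i => (v i).1 : Fin (n + 1) → M) i, h i⟩ : LM M)) =
            (Fin.cons ⟨x, h 0⟩ v : Fin (n + 1) → LM M) := by
          funext i
          refine Fin.cases ?_ (fun i => ?_) i <;> rfl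
        rwa [h3] at h2
      · rintro ⟨h, h2⟩
        have h4 : ∀ i, Lc ((Fin.cons x fun i => (v i).1 : Fin (n + 1) → M) i) := by
          intro i
          refine Fin.cases h (fun i => ?_) i
          exact (v i).2
        refine ⟨h4, ?_⟩
        have h3 : (fun i => (⟨(Fin.cons x fun i => (v i).1 : Fin (n + 1) → M) i, h4 i⟩ : LM M)) =
            (Fin.cons ⟨x, h⟩ v : Fin (n + 1) → LM M) := by
          funext i
          refine Fin.cases ?_ (fun i => ?_) i <;> rfl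
        rw [h3]
        exact h2
    obtain ⟨c, hc⟩ := collection hR (Tt b n)
    have hmem : ∀ z, z ∈ sp c Lc ↔ z ∈ c ∧ Lc z := fun z =>
      mem_sp (by simp (maxDischargeDepth := 50))
    obtain ⟨δ, -, hX, -, -, hsub, -⟩ := exists_lc_sup (un b (sp c Lc)) fun z hz => by
      rcases mem_un.1 hz with h | h
      · exact hb.mem h
      · exact ((hmem z).1 h).2
    obtain ⟨d, hd, hd'⟩ := ih (XX δ) hX
    refine ⟨it (scd d) (Tt b n), hd.nscd.nit (lc_Tt hb n), fun z => ?_⟩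
    rw [mem_it, mem_scd, mem_Tt hb]
    constructor
    · rintro ⟨⟨a, ha⟩, v, hv, rfl⟩
      obtain ⟨w, -, h1, h2⟩ := (hd' _).1 ha
      rw [tp_succ] at h2
      have h3 : v = fun i => w i.succ := tp_inj (op_inj.1 h2).2
      refine ⟨v, hv, ⟨w 0, ?_⟩, rfl⟩
      have h4 : (Fin.cons (w 0) v : Fin (n + 1) → LM M) = w := by
        funext i
        refine Fin.cases ?_ (fun i => ?_) i
        · rfl
        · rw [h3]; rfl
      rw [h4]
      exact h1
    · rintro ⟨v, hv, ⟨x, hx⟩, rfl⟩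
      obtain ⟨y, hy, hRy⟩ := hc (tp v) ((mem_Tt hb).2 ⟨v, hv, rfl⟩) ⟨x.1, (hRt v x.1).2 ⟨x.2, hx⟩⟩
      obtain ⟨hLy, h1⟩ := (hRt v y).1 hRy
      refine ⟨⟨y, (hd' _).2 ⟨Fin.cons ⟨y, hLy⟩ v, fun i => ?_, h1,
        (tp_cons (⟨y, hLy⟩ : LM M) v).symm⟩⟩, v, hv, rfl⟩
      refine Fin.cases ?_ (fun i => ?_) i
      · exact hsub y (mem_un.2 (Or.inr ((hmem y).2 ⟨hy, hLy⟩)))
      · exact hsub _ (mem_un.2 (Or.inl (hv i)))

end Pool.Agent.GL
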