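import Pool.Agent.GL.ZfA
import Pool.Agent.GL.Nf

/-!
The constructible sets are a model of the axioms of Zermelo and Fraenkel.
-/

universe u

set_option linter.unusedSectionVars false

namespace Pool.Agent.GL

open Pool.Agent.SigB

variable {M : Type u} [Membership M M] [IsZF M]

theorem normalForm : NormalForm M := fun φ b hb => normal_form φ b hb

theorem dfnRel : DfnRel M := fun h => dfn_rel h

theorem isZF_LM : IsZF (LM M) := isZF_LM_of normalForm dfnRel

theorem lc_om : Lc (om : M) := lc_om_of normalForm

end Pool.Agent.GL
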