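import Pool.Agent.GL.AbsA
import Pool.Agent.GL.Zf

/-!
Every ordinal is constructible, and in the model of the constructible sets every set is
constructible.
-/

universe u

set_option linter.unusedSectionVars false

namespace Pool.Agent.GL

open Pool.Agent.SigB

variable {M : Type u} [Membership M M] [IsZF M]

instance instIsZFLM : IsZF (LM M) := isZF_LM

theorem lc_ord {α : M} (hα : Ord α) : Lc α := lc_ord_of hα

theorem allL_LM : haveI := isZF_LM (M := M); AllL (LM M) := allL_LM_of M

end Pool.Agent.GL
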