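import Pool.Agent.GL.Base
import Pool.Agent.GL.Rel

/-!
Absoluteness for the model of the constructible sets: every ordinal is constructible, and in the
model of the constructible sets every set is constructible. In this file the axioms of ZF for the
model are a hypothesis.
-/

universe u

set_option linter.unusedSectionVars false

namespace Pool.Agent.GL

open Pool.Agent.SigB

variable {M : Type u} [Membership M M] [IsZF M]

/-! ### Transfer of quantifiers -/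

/-- The element of the model given by a constructible set. -/
def LM.mk (x : M) (h : Lc x) : LM M := ⟨x, h⟩

@[simp] theorem LM.mk_val (x : M) (h : Lc x) : (LM.mk x h).1 = x := rfl

theorem LM.val_inj {x y : LM M} : x = y ↔ x.1 = y.1 := Subtype.ext_iff

theorem LM.lift {x : LM M} {z : M} (h : z ∈ x.1) : ∃ z' : LM M, z'.1 = z ∧ z' ∈ x :=
  ⟨LM.mk z (x.2.mem h), rfl, h⟩

theorem LM.eq_of {x : LM M} {a : M} (h : ∀ z : LM M, z ∈ x ↔ z.1 ∈ a)
    (h' : ∀ z, z ∈ a → Lc z) : x.1 = a := by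
  refine ext' fun z => ⟨fun hz => ?_, fun hz => ?_⟩
  · obtain ⟨z', rfl, hz'⟩ := LM.lift hz
    exact (h z').1 hz'
  · exact (h (LM.mk z (h' z hz))).2 hz

/-! ### Absoluteness of the basic operations -/

section

variable [IsZF (LM M)]

theorem LM.em_val : (em : LM M).1 = em :=
  LM.eq_of (fun z => ⟨fun h => (not_mem_em z h).elim, fun h => (not_mem_em z.1 h).elim⟩)
    fun z h => (not_mem_em z h).elim

theorem LM.pr_val (x y : LM M) : (pr x y).1 = pr x.1 y.1 :=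
  LM.eq_of (fun z => by rw [mem_pr, mem_pr, LM.val_inj, LM.val_inj]) fun z hz => by
    rcases mem_pr.1 hz with rfl | rfl
    · exact x.2
    · exact y.2

theorem LM.op_val (x y : LM M) : (op x y).1 = op x.1 y.1 := by
  unfold op
  rw [LM.pr_val, LM.pr_val, LM.pr_val]

theorem LM.un_val (x y : LM M) : (un x y).1 = un x.1 y.1 :=
  LM.eq_of (fun z => by rw [mem_un, mem_un]; rfl) fun z hz => by
    rcases mem_un.1 hz with h | h
    · exact x.2.mem h
    · exact y.2.mem h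

theorem LM.sb_iff {x y : LM M} : Sb x y ↔ Sb x.1 y.1 := by
  constructor
  · intro h z hz
    obtain ⟨z', rfl, hz'⟩ := LM.lift hz
    exact h z' hz'
  · intro h z hz
    exact h z.1 hz

theorem LM.tr_iff {x : LM M} : Tr x ↔ Tr x.1 := by
  constructor
  · intro h z hz
    obtain ⟨z', rfl, hz'⟩ := LM.lift hz
    exact LM.sb_iff.1 (h z' hz')
  · intro h z hz
    exact LM.sb_iff.2 (h z.1 hz)

theorem LM.ord_iff {x : LM M} : Ord x ↔ Ord x.1 := by
  unfold Ord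
  rw [LM.tr_iff]
  refine and_congr_right fun _ => ⟨fun h z hz => ?_, fun h z hz => ?_⟩
  · obtain ⟨z', rfl, hz'⟩ := LM.lift hz
    exact LM.tr_iff.1 (h z' hz')
  · exact LM.tr_iff.2 (h z.1 hz)

theorem Lc.of_pair {a b : M} (h : Lc (op a b)) : Lc a ∧ Lc b := by
  have h1 : Lc (pr a b) := h.mem (by unfold op; simp)
  exact ⟨h1.mem (by simp), h1.mem (by simp)⟩

/-- A pair in the class of the constructible sets is a pair in the model. -/
theorem LM.op_lift {z : LM M} {a b : M} (h : z.1 = op a b) :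
    ∃ a' b' : LM M, a'.1 = a ∧ b'.1 = b ∧ z = op a' b' := by
  have h1 : Lc (op a b) := h ▸ z.2
  refine ⟨LM.mk a h1.of_pair.1, LM.mk b h1.of_pair.2, rfl, rfl, LM.val_inj.2 ?_⟩
  rw [LM.op_val]
  exact h

theorem LM.mem_op {x y z : LM M} : op x y ∈ z ↔ op x.1 y.1 ∈ z.1 := by
  rw [LM.mem_iff, LM.op_val]

theorem LM.qx_iff {i : Ix} {z X Y : LM M} : Qx i z X Y ↔ Qx i z.1 X.1 Y.1 := by
  cases i
  · show (z = X ∨ z = Y) ↔ (z.1 = X.1 ∨ z.1 = Y.1)
    rw [LM.val_inj, LM.val_inj]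
  · exact Iff.rfl
  · refine and_congr_right fun _ => ⟨?_, ?_⟩
    · rintro ⟨a, b, rfl, ha⟩
      exact ⟨a.1, b.1, LM.op_val a b, ha⟩
    · rintro ⟨a, b, h, ha⟩
      obtain ⟨a', b', rfl, rfl, rfl⟩ := LM.op_lift h
      exact ⟨a', b', rfl, ha⟩
  · refine and_congr_right fun _ => ⟨?_, ?_⟩
    · rintro ⟨a, b, rfl, ha⟩
      exact ⟨a.1, b.1, LM.op_val a b, ha⟩
    · rintro ⟨a, b, h, ha⟩
      obtain ⟨a', b', rfl, rfl, rfl⟩ := LM.op_lift h
      exact ⟨a', b', rfl, ha⟩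
  · refine and_congr_right fun _ => ⟨?_, ?_⟩
    · rintro ⟨a, ha⟩
      exact ⟨a.1, LM.mem_op.1 ha⟩
    · rintro ⟨a, ha⟩
      exact ⟨LM.mk a (Y.2.mem ha).of_pair.1, LM.mem_op.2 ha⟩
  · refine and_congr_right fun _ => ⟨?_, ?_⟩
    · rintro ⟨a, ha⟩
      exact ⟨a.1, LM.mem_op.1 ha⟩
    · rintro ⟨a, ha⟩
      exact ⟨LM.mk a (Y.2.mem ha).of_pair.2, LM.mem_op.2 ha⟩
  · refine and_congr_right fun _ => ⟨?_, ?_⟩
    · rintro ⟨a, b, c, rfl, ha⟩
      exact ⟨a.1, b.1, c.1, by rw [LM.op_val, LM.op_val], ha⟩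
    · rintro ⟨a, b, c, h, ha⟩
      obtain ⟨a', w, rfl, hw, rfl⟩ := LM.op_lift h
      obtain ⟨b', c', rfl, rfl, rfl⟩ := LM.op_lift hw
      exact ⟨a', b', c', rfl, ha⟩
  · refine and_congr_right fun _ => ⟨?_, ?_⟩
    · rintro ⟨a, c, rfl⟩
      exact ⟨a.1, c.1, by rw [LM.op_val, LM.op_val]⟩
    · rintro ⟨a, c, h⟩
      obtain ⟨a', w, rfl, hw, rfl⟩ := LM.op_lift h
      obtain ⟨b', c', hb, rfl, rfl⟩ := LM.op_lift hw
      obtain rfl : b' = a' := LM.val_inj.2 hb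
      exact ⟨b', c', rfl⟩
  · refine and_congr_right fun _ => ⟨?_, ?_⟩
    · rintro ⟨a, b, c, rfl, ha⟩
      exact ⟨a.1, b.1, c.1, by rw [LM.op_val, LM.op_val], LM.mem_op.1 ha⟩
    · rintro ⟨a, b, c, h, ha⟩
      obtain ⟨a', w, rfl, hw, rfl⟩ := LM.op_lift h
      obtain ⟨b', c', rfl, rfl, rfl⟩ := LM.op_lift hw
      exact ⟨a', b', c', rfl, LM.mem_op.2 ha⟩

theorem LM.gf_val (i : Ix) (x y : LM M) : (Gf i x y).1 = Gf i x.1 y.1 :=
  LM.eq_of (fun z => by rw [mem_Gf, mem_Gf, LM.qx_iff]) fun z hz => (x.2.gf i y.2).mem hz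

/-! ### The ordinals are constructible -/

theorem lc_ord_of {α : M} (hα : Ord α) : Lc α := by
  by_contra hn
  obtain ⟨β, hβ, hβn, hmin⟩ := Ord.exists_least (P := fun x : M => ¬ Lc x)
    (by simp (maxDischargeDepth := 50)) hα hn
  obtain ⟨δ, -, hX, -, htr, hsb, -⟩ := exists_lc_sup β fun x hx => not_not.1 (hmin x hx)
  obtain ⟨b, hb⟩ := exists_sep (LM.mk (XX δ) hX) (P := Ord) Ord.dfn
  have hb' : ∀ z : M, z ∈ b.1 ↔ z ∈ XX δ ∧ Ord z := by
    intro z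
    constructor
    · intro hz
      obtain ⟨z', rfl, hz'⟩ := LM.lift hz
      obtain ⟨h1, h2⟩ := (hb z').1 hz'
      exact ⟨h1, LM.ord_iff.1 h2⟩
    · rintro ⟨h1, h2⟩
      exact (hb (LM.mk z (hX.mem h1))).2 ⟨h1, LM.ord_iff.2 h2⟩
  have hOb : Ord b.1 := ord_mk (fun y hy z hz => by
    obtain ⟨h1, h2⟩ := (hb' y).1 hy
    exact (hb' z).2 ⟨htr y h1 z hz, h2.mem hz⟩) fun y hy => ((hb' y).1 hy).2
  have hsub : Sb β b.1 := fun z hz => (hb' z).2 ⟨hsb z hz, hβ.mem hz⟩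
  rcases (hβ.sb_iff hOb).1 hsub with h | h
  · exact hβn (b.2.mem h)
  · exact hβn (h ▸ b.2)

/-! ### Absoluteness of the enumeration -/

theorem LM.lt3_iff {β' γ' β γ : LM M} {i' i : Ix} :
    Lt3 β' γ' i' β γ i ↔ Lt3 β'.1 γ'.1 i' β.1 γ.1 i := by
  unfold Lt3
  simp only [LM.mem_iff, LM.val_inj, LM.un_val]

theorem LM.step_val {f : LM M → LM M} {g : M → M} {α y : LM M}
    (h : ∀ x, x ∈ α → (f x).1 = g x.1) (hs : Step f α y) : Step g α.1 y.1 := by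
  rcases hs with ⟨β, γ, hβ, hγ, i, hy, h1, h2⟩ | ⟨h1, h2⟩
  · refine Or.inl ⟨β.1, γ.1, hβ, hγ, i, ?_, fun x hx hyx => ?_, ?_⟩
    · rw [hy, LM.gf_val, h β hβ, h γ hγ]
    · obtain ⟨x', rfl, hx'⟩ := LM.lift hx
      exact h1 x' hx' (LM.val_inj.2 (hyx.trans (h x' hx').symm))
    · intro β' γ' hβ' hγ' i' hl
      obtain ⟨β', rfl, hβ'⟩ := LM.lift hβ'
      obtain ⟨γ', rfl, hγ'⟩ := LM.lift hγ'
      obtain ⟨x, hx, hx'⟩ := h2 β' γ' hβ' hγ' i' (LM.lt3_iff.2 hl)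
      exact ⟨x.1, hx, by rw [← h β' hβ', ← h γ' hγ', ← h x hx, ← hx', LM.gf_val]⟩
  · refine Or.inr ⟨fun z => ⟨fun hz => ?_, ?_⟩, ?_⟩
    · obtain ⟨z', rfl, hz'⟩ := LM.lift hz
      obtain ⟨x, hx, rfl⟩ := (h1 z').1 hz'
      exact ⟨x.1, hx, h x hx⟩
    · rintro ⟨x, hx, rfl⟩
      obtain ⟨x', rfl, hx'⟩ := LM.lift hx
      rw [← h x' hx']
      exact (h1 (f x')).2 ⟨x', hx', rfl⟩
    · intro β' γ' hβ' hγ' i'
      obtain ⟨β', rfl, hβ'⟩ := LM.lift hβ'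
      obtain ⟨γ', rfl, hγ'⟩ := LM.lift hγ'
      obtain ⟨x, hx, hx'⟩ := h2 β' γ' hβ' hγ' i'
      exact ⟨x.1, hx, by rw [← h β' hβ', ← h γ' hγ', ← h x hx, ← hx', LM.gf_val]⟩

theorem LM.fc_val {α : LM M} (hα : Ord α) : (Fc α).1 = Fc α.1 := by
  -- the graph of the enumeration of the model, as a relation on `M`
  let R : M → M → Prop := fun a b => ∃ h : ∀ i : Fin 2, Lc ((![a, b] : Fin 2 → M) i),
    LM.mk b (h 1) = Fc (LM.mk a (h 0))
  have hR : Dfn (fun w : Fin 2 → M => R (w 0) (w 1)) := by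
    have hd : Dfn (fun w : Fin 2 → LM M => w 1 = Fc (w 0)) := by simp (maxDischargeDepth := 50)
    refine (dfn_rel hd).congr fun v => ?_
    have hv : (![v 0, v 1] : Fin 2 → M) = v := by
      funext i; fin_cases i <;> rfl
    constructor
    · rintro ⟨h, h'⟩
      exact ⟨fun i => by rw [hv]; exact h i, h'⟩
    · rintro ⟨h, h'⟩
      exact ⟨fun i => by have := h i; rwa [hv] at this, h'⟩
  have hR' : ∀ {n : ℕ} {s t : (Fin n → M) → M}, DT s → DT t → Dfn fun v => R (s v) (t v) :=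
    fun hs ht => dfn2 hR hs ht
  have hRi : ∀ {a b : LM M}, b = Fc a → R a.1 b.1 := by
    intro a b h
    refine ⟨fun i => ?_, h⟩
    fin_cases i
    · exact a.2
    · exact b.2
  have key := Ord.indAll (P := fun a : M => ∀ b, R a b → b = Fc a)
    (by simp (maxDischargeDepth := 50) [hR']) (by
    rintro a ha ih b ⟨h, hb⟩
    have hOa : Ord (LM.mk a (h 0)) := LM.ord_iff.2 ha
    have hst := step_Fc hOa
    rw [← hb] at hst
    have h1 : Step Fc a b := LM.step_val (f := Fc) (g := Fc) (fun x hx =>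
      ih x.1 hx _ (hRi rfl)) hst
    exact Step.unique ha h1 (step_Fc ha)) (LM.ord_iff.1 hα)
  exact key _ (hRi rfl)

variable (M) in
theorem allL_LM_of : AllL (LM M) := by
  rintro ⟨x, hx⟩
  obtain ⟨α, hα, rfl⟩ := hx
  have hO : Ord (LM.mk α (lc_ord_of hα)) := LM.ord_iff.2 hα
  exact ⟨LM.mk α (lc_ord_of hα), hO, LM.val_inj.2 (LM.fc_val hO).symm⟩

end

end Pool.Agent.GL
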