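import Pool.Agent.GL.DefsL

/-!
Basic facts on the enumeration of the constructible sets: it is injective, the class of
constructible sets is transitive, closed under the fundamental operations and almost universal.
-/

universe u

set_option linter.unusedSectionVars false

namespace Pool.Agent.GL

open Pool.Agent.SigB

variable {M : Type u} [Membership M M] [IsZF M]

theorem Fc_new {α β : M} (hα : Ord α) (h : β ∈ α) : Fc α ≠ Fc β := by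
  intro he
  rcases step_Fc hα with ⟨_, _, _, _, _, _, h1, _⟩ | ⟨h1, _⟩
  · exact h1 β h he
  · have h2 : Fc β ∈ Fc α := (h1 _).2 ⟨β, h, rfl⟩
    rw [he] at h2
    exact not_mem_self _ h2

theorem Fc_inj {α β : M} (hα : Ord α) (hβ : Ord β) (h : Fc α = Fc β) : α = β := by
  rcases hα.tri hβ with h1 | h1 | h1
  · exact (Fc_new hβ h1 h.symm).elim
  · exact h1
  · exact (Fc_new hα h1 h).elim

theorem XX_mono {α β : M} (hβ : Ord β) (h : α ∈ β) : Sb (XX α) (XX β) := by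
  intro z hz
  obtain ⟨x, hx, rfl⟩ := mem_XX.1 hz
  exact mem_XX.2 ⟨x, hβ.trans hx h, rfl⟩

theorem tr_XX {α : M} (hα : Ord α) : Tr (XX α) := by
  refine Ord.indAll (P := fun α => Tr (XX α)) (by simp (maxDischargeDepth := 50)) ?_ hα
  intro α hα ih y hy z hz
  obtain ⟨β, hβ, rfl⟩ := mem_XX.1 hy
  have hm := XX_mono hα hβ
  rcases step_Fc (hα.mem hβ) with ⟨b, c, hb, hc, i, h1, _, _⟩ | ⟨h1, _⟩
  · rw [h1, mem_Gf] at hz
    rcases hz.mem with h | h | h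
    · exact hm z (mem_XX.2 ⟨b, hb, h⟩)
    · exact hm z (mem_XX.2 ⟨c, hc, h⟩)
    · exact hm z (ih β hβ (Fc b) (mem_XX.2 ⟨b, hb, rfl⟩) z h)
  · exact hm z (mem_XX.2 ((h1 z).1 hz))

theorem Lc.mem {x y : M} (hx : Lc x) (hy : y ∈ x) : Lc y := by
  obtain ⟨α, hα, rfl⟩ := hx
  obtain ⟨β, hβ, h⟩ := mem_XX.1 (tr_XX (ord_sc hα) (Fc α) (mem_XX.2 ⟨α, mem_sc_self α, rfl⟩) y hy)
  exact ⟨β, (ord_sc hα).mem hβ, h⟩

theorem lc_Fc {α : M} (h : Ord α) : Lc (Fc α) := ⟨α, h, rfl⟩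

theorem lc_em : Lc (em : M) := by
  refine ⟨em, ord_em, ?_⟩
  rcases step_Fc (ord_em (M := M)) with ⟨b, c, hb, _⟩ | ⟨h1, _⟩
  · exact (not_mem_em _ hb).elim
  · refine ext' fun z => ?_
    rw [h1 z]
    constructor
    · intro hz
      exact (not_mem_em _ hz).elim
    · rintro ⟨x, hx, _⟩
      exact (not_mem_em _ hx).elim

theorem idx_spec {x : M} (h : Lc x) : Ord (idx x) ∧ Fc (idx x) = x := by
  obtain ⟨α, hα, hx⟩ := h
  obtain ⟨h1, h2, _⟩ := mu_spec (P := fun α => x = Fc α) (by simp (maxDischargeDepth := 50))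
    ⟨α, hα, hx⟩
  exact ⟨h1, h2.symm⟩

theorem idx_Fc {α : M} (h : Ord α) : idx (Fc α) = α := by
  obtain ⟨h1, h2⟩ := idx_spec (lc_Fc h)
  exact Fc_inj h1 h h2

/-- The values of the operations at elements of a transitive set are subsets of it. -/
theorem Gf_sb {X x y : M} (hX : Tr X) (i : Ix) (hx : x ∈ X) (hy : y ∈ X) : Sb (Gf i x y) X := by
  intro z hz
  rw [mem_Gf] at hz
  rcases hz.mem with h | h | h
  · rwa [h]
  · rwa [h]
  · exact hX x hx z h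

theorem Lc.gf {x y : M} (i : Ix) (hx : Lc x) (hy : Lc y) : Lc (Gf i x y) := by
  obtain ⟨β, hβ, rfl⟩ := hx
  obtain ⟨γ, hγ, rfl⟩ := hy
  by_contra hno
  have hμ : Ord (un β γ) := ord_un hβ hγ
  have hsub : ∀ b c d : M, Ord b → Ord c → Ord d → Sb (un b c) d → b ∈ sc d ∧ c ∈ sc d :=
    fun b c d hb hc hd h => ⟨(hb.mem_sc_iff hd).2 fun z hz => h z (mem_un.2 (Or.inl hz)),
      (hc.mem_sc_iff hd).2 fun z hz => h z (mem_un.2 (Or.inr hz))⟩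
  -- the values at the ordinals above `β` and `γ`
  have key : ∀ α, Ord α → un β γ ∈ α → Fc α ∈ pw (XX (sc (un β γ))) := by
    intro α hα hμα
    have hsc : Sb (sc (un β γ)) α := (Ord.sc_sb_iff hα).2 hμα
    obtain ⟨hβ1, hγ1⟩ := hsub β γ _ hβ hγ hμ (Sb.refl _)
    rcases step_Fc hα with ⟨b, c, hb, hc, j, h1, _, h2⟩ | ⟨_, h2⟩
    · rw [mem_pw, h1]
      have hub : Ord (un b c) := ord_un (hα.mem hb) (hα.mem hc)
      have hl : ¬ un β γ ∈ un b c := by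
        intro hl
        obtain ⟨x, hx, h3⟩ := h2 β γ (hsc _ hβ1) (hsc _ hγ1) i (Or.inl hl)
        exact hno ⟨x, hα.mem hx, h3⟩
      rw [hμ.not_mem_iff hub] at hl
      obtain ⟨hb1, hc1⟩ := hsub b c _ (hα.mem hb) (hα.mem hc) hμ hl
      exact Gf_sb (tr_XX (ord_sc hμ)) j (mem_XX.2 ⟨b, hb1, rfl⟩) (mem_XX.2 ⟨c, hc1, rfl⟩)
    · obtain ⟨x, hx, h3⟩ := h2 β γ (hsc _ hβ1) (hsc _ hγ1) i
      exact (hno ⟨x, hα.mem hx, h3⟩).elim
  have hid : DT (fun w : Fin 1 → M => idx (w 0)) := by simp (maxDischargeDepth := 50)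
  obtain ⟨α, hα, hn⟩ := no_set_ord (un (sc (un β γ)) (im (pw (XX (sc (un β γ)))) idx))
  refine hn (mem_un.2 ?_)
  rcases hα.tri hμ with h | h | h
  · exact Or.inl (mem_sc.2 (Or.inl h))
  · exact Or.inl (mem_sc.2 (Or.inr h))
  · exact Or.inr ((mem_im hid).2 ⟨Fc α, key α hα h, (idx_Fc hα).symm⟩)

/-- Closure of an ordinal under a class function. -/
theorem exists_lim {h : M → M} (hd : DT (fun w : Fin 1 → M => h (w 0)))
    (hh : ∀ x, Ord x → Ord (h x) ∧ x ∈ h x) {α : M} (hα : Ord α) :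
    ∃ δ, Ord δ ∧ α ∈ δ ∧ ∀ x y, x ∈ δ → y ∈ δ →
      ∃ z, z ∈ δ ∧ Ord z ∧ x ∈ z ∧ y ∈ z ∧ Sb (h z) δ := by
  obtain ⟨f, hf, h0, h1⟩ := om_recursion α hd
  have hfd : DT (fun w : Fin 1 → M => ap f (w 0)) := by simp (maxDischargeDepth := 50)
  have hO : ∀ n, n ∈ (om : M) → Ord (ap f n) := by
    refine om_ind (P := fun n => Ord (ap f n)) (by simp (maxDischargeDepth := 50)) ?_ ?_
    · rw [h0]; exact hα
    · intro n hn ih
      rw [h1 n hn]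
      exact (hh _ ih).1
  have hm : ∀ z, z ∈ sU (im om (ap f)) ↔ ∃ n, n ∈ (om : M) ∧ z ∈ ap f n := by
    intro z
    rw [mem_sU]
    constructor
    · rintro ⟨y, hy, hz⟩
      obtain ⟨n, hn, rfl⟩ := (mem_im hfd).1 hy
      exact ⟨n, hn, hz⟩
    · rintro ⟨n, hn, hz⟩
      exact ⟨_, (mem_im hfd).2 ⟨n, hn, rfl⟩, hz⟩
  have hstep : ∀ n, n ∈ (om : M) → ap f n ∈ sU (im om (ap f)) ∧
      Sb (h (ap f n)) (sU (im om (ap f))) := by
    intro n hn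
    constructor
    · refine (hm _).2 ⟨sc n, sc_mem_om hn, ?_⟩
      rw [h1 n hn]
      exact (hh _ (hO n hn)).2
    · intro z hz
      refine (hm _).2 ⟨sc n, sc_mem_om hn, ?_⟩
      rw [h1 n hn]
      exact hz
  have hcase : ∀ n m, n ∈ (om : M) → m ∈ (om : M) → ∀ x y, x ∈ ap f n → y ∈ ap f m →
      ap f n ∈ ap f m ∨ ap f n = ap f m →
      ∃ z, z ∈ sU (im om (ap f)) ∧ Ord z ∧ x ∈ z ∧ y ∈ z ∧ Sb (h z) (sU (im om (ap f))) := by
    intro n m hn hm' x y hx hy hc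
    refine ⟨ap f m, (hstep m hm').1, hO m hm', ?_, hy, (hstep m hm').2⟩
    rcases hc with hc | hc
    · exact (hO m hm').trans hx hc
    · rwa [← hc]
  refine ⟨sU (im om (ap f)), ord_sU fun y hy => ?_, ?_, fun x y hx hy => ?_⟩
  · obtain ⟨n, hn, rfl⟩ := (mem_im hfd).1 hy
    exact hO n hn
  · have := (hstep em em_mem_om).1
    rwa [h0] at this
  · obtain ⟨n, hn, hx⟩ := (hm x).1 hx
    obtain ⟨m, hm', hy⟩ := (hm y).1 hy
    rcases (hO n hn).tri (hO m hm') with hc | hc | hc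
    · exact hcase n m hn hm' x y hx hy (Or.inl hc)
    · exact hcase n m hn hm' x y hx hy (Or.inr hc)
    · obtain ⟨z, h2, h3, h4, h5, h6⟩ := hcase m n hm' hn y x hy hx (Or.inl hc)
      exact ⟨z, h2, h3, h5, h4, h6⟩

/-- Almost universality. -/
theorem exists_lc_sup (s : M) (hs : ∀ x, x ∈ s → Lc x) : ∃ δ : M, Ord δ ∧ Lc (XX δ) ∧ Fc δ = XX δ ∧
    Tr (XX δ) ∧ Sb s (XX δ) ∧ ∀ i x y, x ∈ XX δ → y ∈ XX δ → Gf i x y ∈ XX δ := by
  have hid : DT (fun w : Fin 1 → M => idx (w 0)) := by simp (maxDischargeDepth := 50)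
  let P : M → M → Prop := fun α δ => α ∈ δ ∧ ∀ b c, b ∈ α → c ∈ α → ∀ i,
    idx (Gf i (Fc b) (Fc c)) ∈ δ
  have hP : Dfn (fun w : Fin 2 → M => P (w 1) (w 0)) := by
    simp (maxDischargeDepth := 50) [P]
  have hPd : ∀ α, Dfn (fun w : Fin 1 → M => P α (w 0)) := fun α =>
    dfn2 (R := fun a b => P b a) hP (DT.var 0) (DT.const α)
  have hd : DT (fun w : Fin 1 → M => mu (P (w 0))) :=
    dt_mu (P := fun (v : Fin 1 → M) => P (v 0)) hP
  have hex : ∀ α, Ord α → Ord (mu (P α)) ∧ P α (mu (P α)) := by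
    intro α hα
    have hmem : ∀ z, z ∈ sp (pw (XX α)) Lc ↔ z ∈ pw (XX α) ∧ Lc z := fun z =>
      mem_sp (by simp (maxDischargeDepth := 50))
    obtain ⟨β, hβ, hβ'⟩ := exists_sup (a := sp (pw (XX α)) Lc) hid fun x hx =>
      (idx_spec ((hmem x).1 hx).2).1
    have h1 := mu_spec (P := P α) (hPd α) ⟨sc (un α β), ord_sc (ord_un hα hβ),
      (hα.mem_sc_iff (ord_un hα hβ)).2 fun z hz => mem_un.2 (Or.inl hz), fun b c hb hc i => ?_⟩
    · exact ⟨h1.1, h1.2.1⟩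
    · refine mem_sc.2 (Or.inl (mem_un.2 (Or.inr (hβ' _ ((hmem _).2 ⟨?_, ?_⟩)))))
      · exact mem_pw.2 (Gf_sb (tr_XX hα) i (mem_XX.2 ⟨b, hb, rfl⟩) (mem_XX.2 ⟨c, hc, rfl⟩))
      · exact Lc.gf i (lc_Fc (hα.mem hb)) (lc_Fc (hα.mem hc))
  obtain ⟨β, hβ, hβ'⟩ := exists_sup (a := s) hid fun x hx => (idx_spec (hs x hx)).1
  obtain ⟨δ, hδ, hβδ, hcl⟩ := exists_lim hd (fun x hx => ⟨(hex x hx).1, (hex x hx).2.1⟩) hβ
  have hgf : ∀ b c, b ∈ δ → c ∈ δ → ∀ i, ∃ x, x ∈ δ ∧ Gf i (Fc b) (Fc c) = Fc x := by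
    intro b c hb hc i
    obtain ⟨z, hz, hOz, hbz, hcz, hsub⟩ := hcl b c hb hc
    refine ⟨idx (Gf i (Fc b) (Fc c)), hsub _ ((hex z hOz).2.2 b c hbz hcz i), ?_⟩
    exact (idx_spec (Lc.gf i (lc_Fc (hδ.mem hb)) (lc_Fc (hδ.mem hc)))).2.symm
  have hF : Fc δ = XX δ := by
    rcases step_Fc hδ with ⟨b, c, hb, hc, i, h1, h2, _⟩ | ⟨h1, _⟩
    · obtain ⟨x, hx, h3⟩ := hgf b c hb hc i
      exact (h2 x hx (h1.trans h3)).elim
    · exact ext' fun z => by rw [h1 z, mem_XX]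
  refine ⟨δ, hδ, hF ▸ lc_Fc hδ, hF, tr_XX hδ, fun x hx => ?_, ?_⟩
  · exact mem_XX.2 ⟨idx x, hδ.trans (hβ' x hx) hβδ, (idx_spec (hs x hx)).2.symm⟩
  · intro i x y hx hy
    obtain ⟨b, hb, rfl⟩ := mem_XX.1 hx
    obtain ⟨c, hc, rfl⟩ := mem_XX.1 hy
    obtain ⟨z, hz, h⟩ := hgf b c hb hc i
    exact mem_XX.2 ⟨z, hz, h⟩

end Pool.Agent.GL
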