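import Pool.Agent.GL.Defs

/-!
The basic operations on sets in a model of ZF.
-/

universe u

set_option linter.unusedSectionVars false

namespace Pool.Agent.GL

open Pool.Agent.SigB

variable {M : Type u} [Membership M M] [IsZF M]

theorem ext' {x y : M} (h : ∀ z : M, z ∈ x ↔ z ∈ y) : x = y := IsZF.ext x y h

theorem exists_em : ∃ e : M, ∀ z : M, z ∉ e := by
  obtain ⟨_, ⟨e, -, he⟩, -⟩ := IsZF.infinity (M := M)
  exact ⟨e, he⟩

/-- The set whose elements are those satisfying `P`, if there is one, and a junk value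
otherwise. -/
noncomputable def cp (P : M → Prop) : M := by
  classical
  exact if h : ∃ b : M, ∀ x : M, x ∈ b ↔ P x then h.choose else (exists_em (M := M)).choose

theorem mem_cp {P : M → Prop} (h : ∃ b : M, ∀ x : M, x ∈ b ↔ P x) {x : M} : x ∈ cp P ↔ P x := by
  unfold cp
  rw [dif_pos h]
  exact h.choose_spec x

theorem cp_eq_iff {P : M → Prop} {y : M} : y = cp P ↔ (∀ x, x ∈ y ↔ P x) ∨
    ((¬ ∃ b : M, ∀ x : M, x ∈ b ↔ P x) ∧ ∀ z, z ∉ y) := by
  by_cases h : ∃ b : M, ∀ x : M, x ∈ b ↔ P x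
  · constructor
    · rintro rfl
      exact Or.inl fun x => mem_cp h
    · rintro (h1 | h1)
      · exact ext' fun x => by rw [h1 x, mem_cp h]
      · exact absurd h h1.1
  · have h2 : cp P = (exists_em (M := M)).choose := by
      unfold cp; rw [dif_neg h]
    have h3 := (exists_em (M := M)).choose_spec
    rw [h2]
    constructor
    · intro h4
      exact Or.inr ⟨h, by rw [h4]; exact h3⟩
    · rintro (h1 | h1)
      · exact absurd ⟨y, h1⟩ h
      · exact ext' fun z => ⟨fun hz => absurd hz (h1.2 z), fun hz => absurd hz (h3 z)⟩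

@[simp] theorem dt_cp {n : ℕ} {P : (Fin n → M) → M → Prop}
    (h : Dfn (fun w : Fin (n + 1) → M => P (fun i => w i.succ) (w 0))) :
    DT (fun v => cp (P v)) := by
  have h2 : Dfn (fun w : Fin (n + 1) → M => ∃ b : M, ∀ x, x ∈ b ↔ P (fun i => w i.succ) x) := by
    refine Dfn.ex (P := fun (w : Fin (n + 1) → M) b => ∀ x, x ∈ b ↔ P (fun i => w i.succ) x) ?_
    refine Dfn.all (P := fun (w : Fin (n + 2) → M) x => x ∈ w 0 ↔ P (fun i => w i.succ.succ) x) ?_
    refine Dfn.iff (by simp) ?_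
    exact h.ren (m := n + 3) (Fin.cases 0 fun i => i.succ.succ.succ)
  have h3 : Dfn (fun w : Fin (n + 1) → M => ∀ x, x ∈ w 0 ↔ P (fun i => w i.succ) x) := by
    refine Dfn.all (P := fun (w : Fin (n + 1) → M) x => x ∈ w 0 ↔ P (fun i => w i.succ) x) ?_
    refine Dfn.iff (by simp) ?_
    exact h.ren (m := n + 2) (Fin.cases 0 fun i => i.succ.succ)
  have h4 : Dfn (fun w : Fin (n + 1) → M => ∀ z : M, z ∉ w 0) :=
    Dfn.all (P := fun (w : Fin (n + 1) → M) z => z ∉ w 0)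
      (Dfn.not (Dfn.mem (DT.var 0) (DT.var (Fin.succ 0))))
  exact (h3.or (h2.not.and h4)).congr fun w => cp_eq_iff.symm

/-! ### Existence of sets -/

theorem exists_sep (a : M) {P : M → Prop} (hP : Dfn (fun w : Fin 1 → M => P (w 0))) :
    ∃ b : M, ∀ x : M, x ∈ b ↔ x ∈ a ∧ P x := by
  obtain ⟨φ, hφ⟩ := hP
  obtain ⟨b, hb⟩ := IsZF.separation φ a
  exact ⟨b, fun x => by rw [hb x, ← hφ]; rfl⟩

theorem exists_of_bdd {P : M → Prop} (hP : Dfn (fun w : Fin 1 → M => P (w 0)))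
    (h : ∃ a : M, ∀ x : M, P x → x ∈ a) : ∃ b : M, ∀ x : M, x ∈ b ↔ P x := by
  obtain ⟨a, ha⟩ := h
  obtain ⟨b, hb⟩ := exists_sep a hP
  exact ⟨b, fun x => by rw [hb x]; exact ⟨fun h => h.2, fun h => ⟨ha x h, h⟩⟩⟩

theorem mem_cp' {P : M → Prop} (hP : Dfn (fun w : Fin 1 → M => P (w 0)))
    (h : ∃ a : M, ∀ x : M, P x → x ∈ a) {x : M} : x ∈ cp P ↔ P x :=
  mem_cp (exists_of_bdd hP h)

/-- The subset relation. -/
def Sb (x y : M) : Prop := ∀ z, z ∈ x → z ∈ y

theorem Sb.refl (x : M) : Sb x x := fun _ h => h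

theorem Sb.trans {x y z : M} (h : Sb x y) (h' : Sb y z) : Sb x z := fun _ hu => h' _ (h _ hu)

theorem Sb.antisymm {x y : M} (h : Sb x y) (h' : Sb y x) : x = y :=
  ext' fun z => ⟨h z, h' z⟩

theorem Sb.dfn : Dfn (fun w : Fin 2 → M => Sb (w 0) (w 1)) := by
  unfold Sb; simp (maxDischargeDepth := 50)

@[simp] theorem dfn_Sb {n : ℕ} {s t : (Fin n → M) → M} (hs : DT s) (ht : DT t) :
    Dfn (fun v => Sb (s v) (t v)) := dfn2 Sb.dfn hs ht

/-- The empty set. -/
noncomputable def em : M := cp fun _ => False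

@[simp] theorem not_mem_em (x : M) : x ∉ (em : M) := by
  unfold em
  rw [mem_cp (exists_em.imp fun e he x => by simp [he x])]
  exact id

/-- The unordered pair. -/
noncomputable def pr (x y : M) : M := cp fun z => z = x ∨ z = y

@[simp] theorem mem_pr {x y z : M} : z ∈ pr x y ↔ z = x ∨ z = y := by
  unfold pr
  refine mem_cp' (by simp (maxDischargeDepth := 50)) ?_
  obtain ⟨a, h1, h2⟩ := IsZF.pairing x y
  exact ⟨a, by rintro z (rfl | rfl) <;> assumption⟩

theorem pr.dt : DT (fun w : Fin 2 → M => pr (w 0) (w 1)) := by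
  unfold pr; simp (maxDischargeDepth := 50)

@[simp] theorem dt_pr {n : ℕ} {s t : (Fin n → M) → M} (hs : DT s) (ht : DT t) :
    DT (fun v => pr (s v) (t v)) := dt2 pr.dt hs ht

/-- The union of a set. -/
noncomputable def sU (x : M) : M := cp fun z => ∃ y, y ∈ x ∧ z ∈ y

theorem mem_sU {x z : M} : z ∈ sU x ↔ ∃ y, y ∈ x ∧ z ∈ y := by
  unfold sU
  refine mem_cp' (by simp (maxDischargeDepth := 50)) ?_
  obtain ⟨u, hu⟩ := IsZF.union x
  exact ⟨u, fun z ⟨y, hy, hz⟩ => hu y z hz hy⟩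

theorem sU.dt : DT (fun w : Fin 1 → M => sU (w 0)) := by
  unfold sU; simp (maxDischargeDepth := 50)

@[simp] theorem dt_sU {n : ℕ} {s : (Fin n → M) → M} (hs : DT s) :
    DT (fun v => sU (s v)) := dt1 sU.dt hs

/-- The power set. -/
noncomputable def pw (x : M) : M := cp fun z => Sb z x

theorem mem_pw {x z : M} : z ∈ pw x ↔ Sb z x := by
  unfold pw
  refine mem_cp' (by simp (maxDischargeDepth := 50)) ?_
  obtain ⟨u, hu⟩ := IsZF.power x
  exact ⟨u, fun z hz => hu z hz⟩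

theorem pw.dt : DT (fun w : Fin 1 → M => pw (w 0)) := by
  unfold pw; simp (maxDischargeDepth := 50)

@[simp] theorem dt_pw {n : ℕ} {s : (Fin n → M) → M} (hs : DT s) :
    DT (fun v => pw (s v)) := dt1 pw.dt hs

/-- Separation. -/
noncomputable def sp (a : M) (P : M → Prop) : M := cp fun z => z ∈ a ∧ P z

theorem mem_sp {a z : M} {P : M → Prop} (hP : Dfn (fun w : Fin 1 → M => P (w 0))) :
    z ∈ sp a P ↔ z ∈ a ∧ P z := mem_cp (exists_sep a hP)

@[simp] theorem dt_sp {n : ℕ} {s : (Fin n → M) → M} {P : (Fin n → M) → M → Prop} (hs : DT s)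
    (hP : Dfn (fun w : Fin (n + 1) → M => P (fun i => w i.succ) (w 0))) :
    DT (fun v => sp (s v) (P v)) :=
  dt_cp (P := fun v z => z ∈ s v ∧ P v z) (Dfn.and (Dfn.mem (DT.var 0) (hs.ren Fin.succ)) hP)

/-- The image of a set under a class function. -/
noncomputable def im (a : M) (F : M → M) : M := cp fun z => ∃ x, x ∈ a ∧ z = F x

theorem mem_im {a z : M} {F : M → M} (hF : DT (fun w : Fin 1 → M => F (w 0))) :
    z ∈ im a F ↔ ∃ x, x ∈ a ∧ z = F x := by
  unfold im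
  refine mem_cp' ?_ ?_
  · refine Dfn.ex (P := fun (v : Fin 1 → M) x => x ∈ a ∧ v 0 = F x) (Dfn.and (by simp) ?_)
    exact Dfn.ren hF (m := 2) ![1, 0]
  · obtain ⟨φ, hφ⟩ := Dfn.ren hF (m := 2) ![1, 0]
    have hφ' : ∀ x y : M, φ.Sat ![x, y] ↔ y = F x := fun x y => (hφ ![x, y]).symm
    obtain ⟨b, hb⟩ := IsZF.replacement φ a fun x _ =>
      ⟨F x, (hφ' _ _).2 rfl, fun y hy => (hφ' _ _).1 hy⟩
    refine ⟨b, ?_⟩
    rintro z ⟨x, hx, rfl⟩
    obtain ⟨y, hy, hy'⟩ := hb x hx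
    rw [hφ'] at hy'
    rwa [← hy']

@[simp] theorem dt_im {n : ℕ} {s : (Fin n → M) → M} {F : (Fin n → M) → M → M} (hs : DT s)
    (hF : DT (fun w : Fin (n + 1) → M => F (fun i => w i.succ) (w 0))) :
    DT (fun v => im (s v) (F v)) := by
  refine dt_cp (P := fun v z => ∃ x, x ∈ s v ∧ z = F v x) ?_
  refine Dfn.ex (P := fun (w : Fin (n + 1) → M) x =>
    x ∈ s (fun i => w i.succ) ∧ w 0 = F (fun i => w i.succ) x) (Dfn.and ?_ ?_)
  · exact Dfn.mem (DT.var 0) (hs.ren (fun i => i.succ.succ))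
  · exact Dfn.ren hF (m := n + 2) (Fin.cases 1 (Fin.cases 0 fun i => i.succ.succ))

/-! ### Pairs -/

/-- The ordered pair. -/
noncomputable def op (x y : M) : M := pr (pr x x) (pr x y)

theorem op.dt : DT (fun w : Fin 2 → M => op (w 0) (w 1)) := by
  unfold op; simp (maxDischargeDepth := 50)

@[simp] theorem dt_op {n : ℕ} {s t : (Fin n → M) → M} (hs : DT s) (ht : DT t) :
    DT (fun v => op (s v) (t v)) := dt2 op.dt hs ht

theorem op_inj {x y x' y' : M} : op x y = op x' y' ↔ x = x' ∧ y = y' := by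
  constructor
  · intro h
    have hmem : ∀ z : M, z ∈ op x y ↔ z ∈ op x' y' := fun z => by rw [h]
    simp only [op, mem_pr] at hmem
    have h1 : x = x' := by
      have h2 := (hmem (pr x x)).1 (Or.inl rfl)
      rcases h2 with h2 | h2
      · have : x ∈ pr x' x' := by rw [← h2]; simp
        simpa using this
      · have : x' ∈ pr x x := by rw [h2]; simp
        exact (by simpa using this : x' = x).symm
    subst h1
    refine ⟨rfl, ?_⟩
    have h2 : y ∈ pr x y' ∨ y = x := by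
      rcases (hmem (pr x y)).1 (Or.inr rfl) with h2 | h2
      · right
        have : y ∈ pr x x := by rw [← h2]; simp
        simpa using this
      · left; rw [← h2]; simp
    have h3 : y' ∈ pr x y ∨ y' = x := by
      rcases (hmem (pr x y')).2 (Or.inr rfl) with h2 | h2
      · right
        have : y' ∈ pr x x := by rw [← h2]; simp
        simpa using this
      · left; rw [← h2]; simp
    rw [mem_pr] at h2 h3
    rcases h2 with (h2 | h2) | h2
    · rcases h3 with (h3 | h3) | h3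
      · rw [h2, h3]
      · exact h3.symm
      · rw [h2, h3]
    · exact h2
    · rcases h3 with (h3 | h3) | h3
      · rw [h2, h3]
      · exact h3.symm
      · rw [h2, h3]
  · rintro ⟨rfl, rfl⟩; rfl

/-- Union of two sets. -/
noncomputable def un (x y : M) : M := sU (pr x y)

@[simp] theorem mem_un {x y z : M} : z ∈ un x y ↔ z ∈ x ∨ z ∈ y := by
  unfold un
  rw [mem_sU]
  constructor
  · rintro ⟨u, hu, hz⟩
    rcases mem_pr.1 hu with rfl | rfl
    · exact Or.inl hz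
    · exact Or.inr hz
  · rintro (h | h)
    · exact ⟨x, by simp, h⟩
    · exact ⟨y, by simp, h⟩

theorem un.dt : DT (fun w : Fin 2 → M => un (w 0) (w 1)) := by
  unfold un; simp (maxDischargeDepth := 50)

@[simp] theorem dt_un {n : ℕ} {s t : (Fin n → M) → M} (hs : DT s) (ht : DT t) :
    DT (fun v => un (s v) (t v)) := dt2 un.dt hs ht

/-- Intersection of two sets. -/
noncomputable def it (x y : M) : M := sp x fun z => z ∈ y

@[simp] theorem mem_it {x y z : M} : z ∈ it x y ↔ z ∈ x ∧ z ∈ y := by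
  unfold it
  exact mem_sp (by simp (maxDischargeDepth := 50))

theorem it.dt : DT (fun w : Fin 2 → M => it (w 0) (w 1)) := by
  unfold it; simp (maxDischargeDepth := 50)

@[simp] theorem dt_it {n : ℕ} {s t : (Fin n → M) → M} (hs : DT s) (ht : DT t) :
    DT (fun v => it (s v) (t v)) := dt2 it.dt hs ht

/-- Difference of two sets. -/
noncomputable def df (x y : M) : M := sp x fun z => z ∉ y

@[simp] theorem mem_df {x y z : M} : z ∈ df x y ↔ z ∈ x ∧ z ∉ y := by
  unfold df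
  exact mem_sp (by simp (maxDischargeDepth := 50))

theorem df.dt : DT (fun w : Fin 2 → M => df (w 0) (w 1)) := by
  unfold df; simp (maxDischargeDepth := 50)

@[simp] theorem dt_df {n : ℕ} {s t : (Fin n → M) → M} (hs : DT s) (ht : DT t) :
    DT (fun v => df (s v) (t v)) := dt2 df.dt hs ht

/-- The product of two sets. -/
noncomputable def pd (a b : M) : M := cp fun z => ∃ x, x ∈ a ∧ ∃ y, y ∈ b ∧ z = op x y

theorem mem_pd {a b z : M} : z ∈ pd a b ↔ ∃ x, x ∈ a ∧ ∃ y, y ∈ b ∧ z = op x y := by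
  unfold pd
  refine mem_cp' (by simp (maxDischargeDepth := 50)) ⟨pw (pw (un a b)), ?_⟩
  rintro z ⟨x, hx, y, hy, rfl⟩
  rw [mem_pw]
  intro u hu
  rw [mem_pw]
  intro t ht
  rw [mem_un]
  unfold op at hu
  rcases mem_pr.1 hu with rfl | rfl
  · rcases mem_pr.1 ht with rfl | rfl <;> exact Or.inl hx
  · rcases mem_pr.1 ht with rfl | rfl
    · exact Or.inl hx
    · exact Or.inr hy

@[simp] theorem op_mem_pd {a b x y : M} : op x y ∈ pd a b ↔ x ∈ a ∧ y ∈ b := by
  rw [mem_pd]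
  constructor
  · rintro ⟨x', hx, y', hy, h⟩
    obtain ⟨rfl, rfl⟩ := op_inj.1 h
    exact ⟨hx, hy⟩
  · rintro ⟨hx, hy⟩
    exact ⟨x, hx, y, hy, rfl⟩

theorem pd.dt : DT (fun w : Fin 2 → M => pd (w 0) (w 1)) := by
  unfold pd; simp (maxDischargeDepth := 50)

@[simp] theorem dt_pd {n : ℕ} {s t : (Fin n → M) → M} (hs : DT s) (ht : DT t) :
    DT (fun v => pd (s v) (t v)) := dt2 pd.dt hs ht

/-! ### Functions -/

/-- The value of the function `f` at `x` (the union of all `y` with `(x, y) ∈ f` in general). -/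
noncomputable def ap (f x : M) : M := cp fun z => ∃ y, op x y ∈ f ∧ z ∈ y

theorem mem_ap {f x z : M} : z ∈ ap f x ↔ ∃ y, op x y ∈ f ∧ z ∈ y := by
  unfold ap
  refine mem_cp' (by simp (maxDischargeDepth := 50)) ⟨sU (sU (sU f)), ?_⟩
  rintro z ⟨y, hy, hz⟩
  refine mem_sU.2 ⟨y, mem_sU.2 ⟨pr x y, mem_sU.2 ⟨op x y, hy, ?_⟩, by simp⟩, hz⟩
  unfold op; simp

theorem ap.dt : DT (fun w : Fin 2 → M => ap (w 0) (w 1)) := by
  unfold ap; simp (maxDischargeDepth := 50)

@[simp] theorem dt_ap {n : ℕ} {s t : (Fin n → M) → M} (hs : DT s) (ht : DT t) :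
    DT (fun v => ap (s v) (t v)) := dt2 ap.dt hs ht

theorem ap_eq {f x y : M} (h : op x y ∈ f) (h' : ∀ y', op x y' ∈ f → y' = y) : ap f x = y := by
  refine ext' fun z => ?_
  rw [mem_ap]
  constructor
  · rintro ⟨y', h1, h2⟩
    rwa [← h' y' h1]
  · intro hz
    exact ⟨y, h, hz⟩

/-- `f` is a function with domain `a`. -/
def Fn (f a : M) : Prop := (∀ z, z ∈ f → ∃ x, x ∈ a ∧ ∃ y, z = op x y) ∧
  ∀ x, x ∈ a → ∃ y, op x y ∈ f ∧ ∀ y', op x y' ∈ f → y' = y

theorem Fn.dfn : Dfn (fun w : Fin 2 → M => Fn (w 0) (w 1)) := by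
  unfold Fn; simp (maxDischargeDepth := 50)

@[simp] theorem dfn_Fn {n : ℕ} {s t : (Fin n → M) → M} (hs : DT s) (ht : DT t) :
    Dfn (fun v => Fn (s v) (t v)) := dfn2 Fn.dfn hs ht

theorem Fn.op_mem_iff {f a x y : M} (h : Fn f a) (hx : x ∈ a) : op x y ∈ f ↔ ap f x = y := by
  obtain ⟨y', h1, h2⟩ := h.2 x hx
  rw [ap_eq h1 h2]
  constructor
  · intro h3
    exact (h2 y h3).symm
  · rintro rfl; exact h1

theorem Fn.mem_iff {f a z : M} (h : Fn f a) : z ∈ f ↔ ∃ x, x ∈ a ∧ z = op x (ap f x) := by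
  constructor
  · intro hz
    obtain ⟨x, hx, y, rfl⟩ := h.1 z hz
    exact ⟨x, hx, by rw [(h.op_mem_iff hx).1 hz]⟩
  · rintro ⟨x, hx, rfl⟩
    exact (h.op_mem_iff hx).2 rfl

theorem Fn.ext {f g a : M} (hf : Fn f a) (hg : Fn g a) (h : ∀ x, x ∈ a → ap f x = ap g x) :
    f = g := by
  refine ext' fun z => ?_
  rw [hf.mem_iff, hg.mem_iff]
  refine exists_congr fun x => and_congr_right fun hx => ?_
  rw [h x hx]

/-- The function `x ↦ F x` on `a`. -/
noncomputable def lam (a : M) (F : M → M) : M := im a fun x => op x (F x)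

@[simp] theorem dt_lam {n : ℕ} {s : (Fin n → M) → M} {F : (Fin n → M) → M → M} (hs : DT s)
    (hF : DT (fun w : Fin (n + 1) → M => F (fun i => w i.succ) (w 0))) :
    DT (fun v => lam (s v) (F v)) :=
  dt_im (F := fun v x => op x (F v x)) hs (dt_op (DT.var 0) hF)

theorem op_mem_lam {a x y : M} {F : M → M} (hF : DT (fun w : Fin 1 → M => F (w 0))) :
    op x y ∈ lam a F ↔ x ∈ a ∧ y = F x := by
  unfold lam
  rw [mem_im (F := fun x => op x (F x)) (dt_op (DT.var 0) hF)]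
  constructor
  · rintro ⟨x', hx, h⟩
    obtain ⟨rfl, rfl⟩ := op_inj.1 h
    exact ⟨hx, rfl⟩
  · rintro ⟨hx, rfl⟩
    exact ⟨x, hx, rfl⟩

theorem fn_lam {a : M} {F : M → M} (hF : DT (fun w : Fin 1 → M => F (w 0))) :
    Fn (lam a F) a := by
  constructor
  · intro z hz
    unfold lam at hz
    rw [mem_im (F := fun x => op x (F x)) (dt_op (DT.var 0) hF)] at hz
    obtain ⟨x, hx, rfl⟩ := hz
    exact ⟨x, hx, F x, rfl⟩
  · intro x hx
    exact ⟨F x, (op_mem_lam hF).2 ⟨hx, rfl⟩, fun y' hy' => ((op_mem_lam hF).1 hy').2⟩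

theorem ap_lam {a x : M} {F : M → M} (hF : DT (fun w : Fin 1 → M => F (w 0))) (hx : x ∈ a) :
    ap (lam a F) x = F x :=
  ((fn_lam hF).op_mem_iff hx).1 ((op_mem_lam hF).2 ⟨hx, rfl⟩)

/-- The set of functions from `a` to `b`. -/
noncomputable def fs (a b : M) : M := cp fun f => Fn f a ∧ ∀ x, x ∈ a → ap f x ∈ b

theorem mem_fs {a b f : M} : f ∈ fs a b ↔ Fn f a ∧ ∀ x, x ∈ a → ap f x ∈ b := by
  unfold fs
  refine mem_cp' (by simp (maxDischargeDepth := 50)) ⟨pw (pd a b), ?_⟩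
  rintro f ⟨hf, hb⟩
  rw [mem_pw]
  intro z hz
  obtain ⟨x, hx, rfl⟩ := hf.mem_iff.1 hz
  exact op_mem_pd.2 ⟨hx, hb x hx⟩

theorem fs.dt : DT (fun w : Fin 2 → M => fs (w 0) (w 1)) := by
  unfold fs; simp (maxDischargeDepth := 50)

@[simp] theorem dt_fs {n : ℕ} {s t : (Fin n → M) → M} (hs : DT s) (ht : DT t) :
    DT (fun v => fs (s v) (t v)) := dt2 fs.dt hs ht

theorem lam_mem_fs {a b : M} {F : M → M} (hF : DT (fun w : Fin 1 → M => F (w 0)))
    (h : ∀ x, x ∈ a → F x ∈ b) : lam a F ∈ fs a b :=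
  mem_fs.2 ⟨fn_lam hF, fun x hx => by rw [ap_lam hF hx]; exact h x hx⟩

/-- The restriction of a function. -/
noncomputable def rs (f a : M) : M := sp f fun z => ∃ x, x ∈ a ∧ ∃ y, z = op x y

theorem rs.dt : DT (fun w : Fin 2 → M => rs (w 0) (w 1)) := by
  unfold rs; simp (maxDischargeDepth := 50)

@[simp] theorem dt_rs {n : ℕ} {s t : (Fin n → M) → M} (hs : DT s) (ht : DT t) :
    DT (fun v => rs (s v) (t v)) := dt2 rs.dt hs ht

theorem op_mem_rs {f a x y : M} : op x y ∈ rs f a ↔ op x y ∈ f ∧ x ∈ a := by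
  unfold rs
  rw [mem_sp (by simp (maxDischargeDepth := 50))]
  refine and_congr_right fun _ => ?_
  constructor
  · rintro ⟨x', hx, y', h⟩
    rw [(op_inj.1 h).1]; exact hx
  · intro hx
    exact ⟨x, hx, y, rfl⟩

theorem fn_rs {f a b : M} (hf : Fn f b) (hab : Sb a b) : Fn (rs f a) a := by
  constructor
  · intro z hz
    unfold rs at hz
    rw [mem_sp (by simp (maxDischargeDepth := 50))] at hz
    exact hz.2
  · intro x hx
    obtain ⟨y, h1, h2⟩ := hf.2 x (hab x hx)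
    exact ⟨y, op_mem_rs.2 ⟨h1, hx⟩, fun y' hy' => h2 y' (op_mem_rs.1 hy').1⟩

theorem ap_rs {f a b x : M} (hf : Fn f b) (hab : Sb a b) (hx : x ∈ a) :
    ap (rs f a) x = ap f x := by
  refine ((fn_rs hf hab).op_mem_iff hx).1 (op_mem_rs.2 ⟨?_, hx⟩)
  exact (hf.op_mem_iff (hab x hx)).2 rfl

/-- Restrictions of two functions agree when the functions agree on the smaller domain. -/
theorem rs_congr {f g a b c : M} (hf : Fn f b) (hg : Fn g c) (hab : Sb a b) (hac : Sb a c)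
    (h : ∀ x, x ∈ a → ap f x = ap g x) : rs f a = rs g a :=
  (fn_rs hf hab).ext (fn_rs hg hac) fun x hx => by
    rw [ap_rs hf hab hx, ap_rs hg hac hx, h x hx]

/-! ### Foundation -/

/-- Minimal elements for definable predicates on a set. -/
theorem found' {a : M} {P : M → Prop} (hP : Dfn (fun w : Fin 1 → M => P (w 0)))
    (h : ∃ x, x ∈ a ∧ P x) : ∃ x, x ∈ a ∧ P x ∧ ∀ y, y ∈ x → y ∈ a → ¬ P y := by
  obtain ⟨x, hx, hPx⟩ := h
  obtain ⟨m, hm, hmin⟩ := IsZF.found (sp a P) ⟨x, (mem_sp hP).2 ⟨hx, hPx⟩⟩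
  rw [mem_sp hP] at hm
  exact ⟨m, hm.1, hm.2, fun y hy hya hPy => hmin y hy ((mem_sp hP).2 ⟨hya, hPy⟩)⟩

theorem not_mem_self (x : M) : x ∉ x := by
  intro h
  obtain ⟨y, hy, hmin⟩ := IsZF.found (pr x x) ⟨x, by simp⟩
  have : y = x := by simpa using hy
  subst this
  exact hmin y h (by simp)

theorem not_mem_mem {x y : M} (h : x ∈ y) : y ∉ x := by
  intro h'
  obtain ⟨z, hz, hmin⟩ := IsZF.found (pr x y) ⟨x, by simp⟩
  rcases mem_pr.1 hz with rfl | rfl
  · exact hmin y h' (by simp)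
  · exact hmin x h (by simp)

end Pool.Agent.GL
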