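import Pool.Agent.GL.Rel
import Pool.Agent.GL.Nf
import Pool.Agent.Forc.CardB

/-!
The operations of the ZF library `GL` and of the ZFC library `SigB` are the same. All the equations
hold by definition. They are simp lemmas after `open scoped Pool.Agent.GL.ToSig`; the names end in
the name of the operation.
-/

universe u

set_option linter.unusedSectionVars false

namespace Pool.Agent.GL

open Pool.Agent.SigB

variable {M : Type u} [Membership M M] [IsZFC M]

theorem toSig_cp (P : M → Prop) : GL.cp P = SigB.cp P := rfl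

theorem toSig_Sb (x y : M) : GL.Sb x y = SigB.Sb x y := rfl

theorem toSig_em : (GL.em : M) = SigB.em := rfl

theorem toSig_pr (x y : M) : GL.pr x y = SigB.pr x y := rfl

theorem toSig_sU (x : M) : GL.sU x = SigB.sU x := rfl

theorem toSig_pw (x : M) : GL.pw x = SigB.pw x := rfl

theorem toSig_sp (a : M) (P : M → Prop) : GL.sp a P = SigB.sp a P := rfl

theorem toSig_im (a : M) (F : M → M) : GL.im a F = SigB.im a F := rfl

theorem toSig_op (x y : M) : GL.op x y = SigB.op x y := rfl

theorem toSig_un (x y : M) : GL.un x y = SigB.un x y := rfl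

theorem toSig_it (x y : M) : GL.it x y = SigB.it x y := rfl

theorem toSig_df (x y : M) : GL.df x y = SigB.df x y := rfl

theorem toSig_pd (x y : M) : GL.pd x y = SigB.pd x y := rfl

theorem toSig_ap (x y : M) : GL.ap x y = SigB.ap x y := rfl

theorem toSig_Fn (f a : M) : GL.Fn f a = SigB.Fn f a := rfl

theorem toSig_lam (a : M) (F : M → M) : GL.lam a F = SigB.lam a F := rfl

theorem toSig_fs (a b : M) : GL.fs a b = SigB.fs a b := rfl

theorem toSig_rs (f a : M) : GL.rs f a = SigB.rs f a := rfl

theorem toSig_Tr (x : M) : GL.Tr x = SigB.Tr x := rfl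

theorem toSig_Ord (x : M) : GL.Ord x = SigB.Ord x := rfl

theorem toSig_sc (x : M) : GL.sc x = SigB.sc x := rfl

theorem toSig_om : (GL.om : M) = SigB.om := rfl

theorem toSig_Fi (s : M) : GL.Fi s = SigB.Fi s := rfl

theorem toSig_Wf (X r : M) : GL.Wf X r = SigB.Wf X r := rfl

theorem toSig_prd (X r x : M) : GL.prd X r x = SigB.prd X r x := rfl

theorem toSig_Att (X r : M) (G : M → M → M) (f d : M) : GL.Att X r G f d = SigB.Att X r G f d := rfl

theorem toSig_orec (G : M → M → M) (x : M) : GL.orec G x = Frc.orec G x := rfl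

theorem toSig_VV (x : M) : GL.VV x = Frc.VV x := rfl

theorem toSig_mu (P : M → Prop) : GL.mu P = Frc.mu P := rfl

theorem toSig_fst (x : M) : GL.fst x = Forc.fst x := rfl

theorem toSig_snd (x : M) : GL.snd x = Forc.snd x := rfl

namespace ToSig

attribute [scoped simp] toSig_cp toSig_Sb toSig_em toSig_pr toSig_sU toSig_pw toSig_sp toSig_im
  toSig_op toSig_un toSig_it toSig_df toSig_pd toSig_ap toSig_Fn toSig_lam toSig_fs toSig_rs
  toSig_Tr toSig_Ord toSig_sc toSig_om toSig_Fi toSig_Wf toSig_prd toSig_Att toSig_orec toSig_VV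
  toSig_mu toSig_fst toSig_snd

end ToSig

end Pool.Agent.GL
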