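import Pool.Agent.GL.DefsL

/-!
The axiom of choice from the axiom of constructibility.
-/

universe u

set_option linter.unusedSectionVars false

namespace Pool.Agent.GL

open Pool.Agent.SigB

variable {M : Type u} [Membership M M] [IsZF M]

/-- The first element of a nonempty constructible set. -/
noncomputable def chs (x : M) : M := Fc (mu fun ξ => Fc ξ ∈ x)

theorem chs.dt : DT (fun w : Fin 1 → M => chs (w 0)) := by
  unfold chs
  exact dt_Fc (dt_mu (P := fun (v : Fin 1 → M) ξ => Fc ξ ∈ v 0) (by simp (maxDischargeDepth := 50)))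

theorem chs_mem (h : AllL M) {x y : M} (hy : y ∈ x) : chs x ∈ x := by
  obtain ⟨α, hα, hy'⟩ := h y
  rw [hy'] at hy
  exact (mu_spec (P := fun ξ => Fc ξ ∈ x) (by simp (maxDischargeDepth := 50)) ⟨α, hα, hy⟩).2.1

theorem isZFC_of_allL (h : AllL M) : IsZFC M where
  ext := IsZF.ext
  found := IsZF.found
  pairing := IsZF.pairing
  union := IsZF.union
  power := IsZF.power
  infinity := IsZF.infinity
  separation := IsZF.separation
  replacement := IsZF.replacement
  choice := by
    intro a ha hd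
    refine ⟨im a chs, fun x hx => ?_⟩
    obtain ⟨y, hy⟩ := ha x hx
    have h1 : chs x ∈ x := chs_mem h hy
    refine ⟨chs x, ⟨h1, (mem_im chs.dt).2 ⟨x, hx, rfl⟩⟩, ?_⟩
    rintro z ⟨hz, hz'⟩
    obtain ⟨x', hx', rfl⟩ := (mem_im chs.dt).1 hz'
    obtain ⟨y', hy'⟩ := ha x' hx'
    by_cases hxx : x = x'
    · rw [hxx]
    · exact absurd (chs_mem h hy') (hd x x' hx hx' hxx _ hz)

end Pool.Agent.GL
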