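import Pool.Agent.Forc.CardB

/-!
# Closure of a set under finitely many class functions, inside a model of ZFC
-/

universe u

set_option linter.unusedSectionVars false

namespace Pool.Agent.GL

open Pool.Agent.SigB

variable {M : Type u} [Membership M M] [IsZFC M]

/-- The union of two sets which inject into an infinite ordinal. -/
theorem le_un {A B κ : M} (hκ : SigB.Ord κ) (hom : SigB.Sb SigB.om κ) (hA : Forc.Le A κ)
    (hB : Forc.Le B κ) : Forc.Le (SigB.un A B) κ := by
  classical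
  have h0 : (SigB.em : M) ∈ κ := hom _ SigB.em_mem_om
  have h1 : SigB.sc (SigB.em : M) ∈ κ := hom _ (SigB.sc_mem_om SigB.em_mem_om)
  have hd : DT (fun w : Fin 1 → M => if w 0 = SigB.em then A else B) :=
    DT.ite (P := fun w : Fin 1 → M => w 0 = SigB.em) (by simp) (by simp) (by simp)
  have h2 : Forc.Le (SigB.pr A B) κ := by
    refine Forc.Le.image hκ (Forc.Le.refl κ) (F := fun x => if x = SigB.em then A else B) hd ?_
    intro y hy
    rcases SigB.mem_pr.1 hy with rfl | rfl
    · exact ⟨SigB.em, h0, by simp⟩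
    · refine ⟨_, h1, ?_⟩
      rw [if_neg (SigB.sc_ne_em _)]
  unfold SigB.un
  refine Forc.Le.union hκ hom h2 fun x hx => ?_
  rcases SigB.mem_pr.1 hx with rfl | rfl
  · exact hA
  · exact hB

/-- One step of the closure under the functions of a list. -/
noncomputable def clStep {ι : Type} (f : ι → M → M → M) : List ι → M → M
  | [], X => X
  | i :: l, X => SigB.un (SigB.im (SigB.pd X X) fun p => f i (Forc.fst p) (Forc.snd p))
      (clStep f l X)

section

variable {ι : Type} {f : ι → M → M → M} (hf : ∀ i, DT (fun w : Fin 2 → M => f i (w 0) (w 1)))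

include hf

theorem dt_clStep_aux {n : ℕ} (i : ι) {s t : (Fin n → M) → M} (hs : DT s) (ht : DT t) :
    DT (fun v => f i (s v) (t v)) := dt2 (hf i) hs ht

theorem dt_clStep (l : List ι) : DT (fun w : Fin 1 → M => clStep f l (w 0)) := by
  induction l with
  | nil => exact DT.var 0
  | cons i l ih =>
    simp only [clStep]
    refine dt_un (dt_im (s := fun w : Fin 1 → M => SigB.pd (w 0) (w 0))
      (F := fun _ p => f i (Forc.fst p) (Forc.snd p)) (by simp) ?_) ih
    exact dt_clStep_aux hf i (by simp) (by simp)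

theorem mem_clStep {l : List ι} {X z : M} : z ∈ clStep f l X ↔
    z ∈ X ∨ ∃ i, i ∈ l ∧ ∃ x, x ∈ X ∧ ∃ y, y ∈ X ∧ z = f i x y := by
  induction l with
  | nil => simp [clStep]
  | cons i l ih =>
    simp only [clStep]
    have hd : DT (fun w : Fin 1 → M => f i (Forc.fst (w 0)) (Forc.snd (w 0))) :=
      dt_clStep_aux hf i (by simp) (by simp)
    rw [SigB.mem_un, ih, SigB.mem_im (F := fun p => f i (Forc.fst p) (Forc.snd p)) hd]
    constructor
    · rintro (⟨p, hp, rfl⟩ | h | ⟨j, hj, h⟩)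
      · obtain ⟨x, hx, y, hy, rfl⟩ := SigB.mem_pd.1 hp
        exact Or.inr ⟨i, List.mem_cons_self, x, hx, y, hy, by simp⟩
      · exact Or.inl h
      · exact Or.inr ⟨j, List.mem_cons_of_mem _ hj, h⟩
    · rintro (h | ⟨j, hj, x, hx, y, hy, rfl⟩)
      · exact Or.inr (Or.inl h)
      · rcases List.mem_cons.1 hj with rfl | hj
        · exact Or.inl ⟨SigB.op x y, SigB.op_mem_pd.2 ⟨hx, hy⟩, by simp⟩
        · exact Or.inr (Or.inr ⟨j, hj, x, hx, y, hy, rfl⟩)

theorem le_clStep {κ : M} (hκ : SigB.Ord κ) (hom : SigB.Sb SigB.om κ) {l : List ι} {X : M}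
    (hX : Forc.Le X κ) : Forc.Le (clStep f l X) κ := by
  induction l with
  | nil => exact hX
  | cons i l ih =>
    simp only [clStep]
    refine le_un hκ hom ?_ ih
    have hd : DT (fun w : Fin 1 → M => f i (Forc.fst (w 0)) (Forc.snd (w 0))) :=
      dt_clStep_aux hf i (by simp) (by simp)
    exact Forc.Le.image hκ ((hX.pd hX).trans (Forc.hess hκ hom)) hd
      fun y hy => (SigB.mem_im hd).1 hy

end

/-- Closure of a set under finitely many class functions of two variables. -/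
theorem exists_closure {κ : M} (hκ : SigB.Ord κ) (hom : SigB.Sb SigB.om κ) {ι : Type} [Finite ι]
    (f : ι → M → M → M) (hf : ∀ i, DT (fun w : Fin 2 → M => f i (w 0) (w 1)))
    {A : M} (hA : Forc.Le A κ) : ∃ H, SigB.Sb A H ∧ (∀ i x y, x ∈ H → y ∈ H → f i x y ∈ H) ∧
      Forc.Le H κ := by
  classical
  have := Fintype.ofFinite ι
  obtain ⟨l, hl⟩ : ∃ l : List ι, ∀ i, i ∈ l := ⟨Finset.univ.toList, fun i => by simp⟩
  obtain ⟨g, hg, h0, hs⟩ := SigB.om_recursion A (dt_clStep hf l)
  have hd : DT (fun w : Fin 1 → M => SigB.ap g (w 0)) := by simp (maxDischargeDepth := 50)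
  have hle : ∀ n, n ∈ (SigB.om : M) → Forc.Le (SigB.ap g n) κ := by
    refine SigB.om_ind (P := fun n => Forc.Le (SigB.ap g n) κ) (by simp (maxDischargeDepth := 50))
      ?_ ?_
    · rw [h0]; exact hA
    · intro n hn ih
      rw [hs n hn]
      exact le_clStep hf hκ hom ih
  have hstep : ∀ n, n ∈ (SigB.om : M) → SigB.Sb (SigB.ap g n) (SigB.ap g (SigB.sc n)) := by
    intro n hn z hz
    rw [hs n hn]
    exact (mem_clStep hf).2 (Or.inl hz)
  have hmono : ∀ n, n ∈ (SigB.om : M) → ∀ m, m ∈ n → SigB.Sb (SigB.ap g m) (SigB.ap g n) := by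
    refine SigB.om_ind (P := fun n => ∀ m, m ∈ n → SigB.Sb (SigB.ap g m) (SigB.ap g n))
      (by simp (maxDischargeDepth := 50)) ?_ ?_
    · intro m hm
      exact (SigB.not_mem_em _ hm).elim
    · intro n hn ih m hm
      rcases SigB.mem_sc.1 hm with h | rfl
      · exact (ih m h).trans (hstep n hn)
      · exact hstep m hn
  have hmem : ∀ z, z ∈ SigB.sU (SigB.im (SigB.om : M) (SigB.ap g)) ↔
      ∃ n, n ∈ (SigB.om : M) ∧ z ∈ SigB.ap g n := by
    intro z
    rw [SigB.mem_sU]
    constructor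
    · rintro ⟨y, hy, hz⟩
      obtain ⟨n, hn, rfl⟩ := (SigB.mem_im hd).1 hy
      exact ⟨n, hn, hz⟩
    · rintro ⟨n, hn, hz⟩
      exact ⟨_, (SigB.mem_im hd).2 ⟨n, hn, rfl⟩, hz⟩
  refine ⟨SigB.sU (SigB.im (SigB.om : M) (SigB.ap g)), fun z hz => ?_, fun i x y hx hy => ?_, ?_⟩
  · exact (hmem z).2 ⟨SigB.em, SigB.em_mem_om, by rw [h0]; exact hz⟩
  · obtain ⟨n, hn, hx⟩ := (hmem x).1 hx
    obtain ⟨m, hm, hy⟩ := (hmem y).1 hy
    have key : ∀ k, k ∈ (SigB.om : M) → x ∈ SigB.ap g k → y ∈ SigB.ap g k →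
        f i x y ∈ SigB.sU (SigB.im (SigB.om : M) (SigB.ap g)) := by
      intro k hk hxk hyk
      refine (hmem _).2 ⟨SigB.sc k, SigB.sc_mem_om hk, ?_⟩
      rw [hs k hk]
      exact (mem_clStep hf).2 (Or.inr ⟨i, hl i, x, hxk, y, hyk, rfl⟩)
    rcases (SigB.ord_of_mem_om hn).tri (SigB.ord_of_mem_om hm) with h | h | h
    · exact key m hm (hmono m hm n h x hx) hy
    · subst h
      exact key n hn hx hy
    · exact key n hn hx (hmono n hn m h y hy)
  · refine Forc.Le.union hκ hom ?_ fun x hx => ?_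
    · exact Forc.Le.image hκ (Forc.Le.of_sb hom) hd fun y hy => (SigB.mem_im hd).1 hy
    · obtain ⟨n, hn, rfl⟩ := (SigB.mem_im hd).1 hx
      exact hle n hn

end Pool.Agent.GL
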