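import Pool.Agent.GL.Base

/-!
Condensation: the collapse of a set closed under suitable functions commutes with the enumeration
of the constructible sets.
-/

universe u

set_option linter.unusedSectionVars false

namespace Pool.Agent.GL

open Pool.Agent.SigB

variable {M : Type u} [Membership M M] [IsZF M]

theorem Hul.pr {H x y : M} (hH : Hul H) (hx : x ∈ H) (hy : y ∈ H) : pr x y ∈ H := by
  have h : Gf .c0 x y = GL.pr x y := ext' fun z => by rw [mem_Gf, mem_pr]; rfl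
  rw [← h]
  exact hH.gf _ _ _ hx hy

theorem Hul.op {H x y : M} (hH : Hul H) (hx : x ∈ H) (hy : y ∈ H) : op x y ∈ H :=
  hH.pr (hH.pr hx hx) (hH.pr hx hy)

theorem Clp.mem {H p x y : M} (hp : Clp H p) (hx : x ∈ H) (hy : y ∈ H) (h : x ∈ y) :
    ap p x ∈ ap p y := (hp.2 y hy _).2 ⟨x, hx, h, rfl⟩

theorem Clp.inj {H p : M} (hH : Hul H) (hp : Clp H p) :
    ∀ x y, x ∈ H → y ∈ H → ap p x = ap p y → x = y := by
  intro x y hx hy he
  by_contra hne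
  obtain ⟨m, hm, ⟨n, hn, h1, h2⟩, hmin⟩ := found' (a := H)
    (P := fun x => ∃ y, y ∈ H ∧ ap p x = ap p y ∧ x ≠ y) (by simp (maxDischargeDepth := 50))
    ⟨x, hx, y, hy, he, hne⟩
  obtain ⟨z, hz, hzn⟩ := hH.dif m n hm hn h2
  by_cases h3 : z ∈ m
  · have h4 : z ∉ n := fun h4 => hzn ⟨fun _ => h4, fun _ => h3⟩
    have h5 := hp.mem hz hm h3
    rw [h1, hp.2 n hn] at h5
    obtain ⟨w, hw, hwn, h6⟩ := h5
    refine hmin z h3 hz ⟨w, hw, h6, ?_⟩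
    rintro rfl
    exact h4 hwn
  · have h4 : z ∈ n := by
      by_contra h4
      exact hzn ⟨fun h => (h3 h).elim, fun h => (h4 h).elim⟩
    have h5 := hp.mem hz hn h4
    rw [← h1, hp.2 m hm] at h5
    obtain ⟨w, hw, hwm, h6⟩ := h5
    refine hmin w hwm hw ⟨z, hz, h6.symm, ?_⟩
    rintro rfl
    exact h3 hwm

theorem Clp.mem_iff {H p x y : M} (hH : Hul H) (hp : Clp H p) (hx : x ∈ H) (hy : y ∈ H) :
    x ∈ y ↔ ap p x ∈ ap p y := by
  refine ⟨hp.mem hx hy, fun h => ?_⟩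
  obtain ⟨w, hw, hwy, h1⟩ := (hp.2 y hy _).1 h
  rwa [Clp.inj hH hp x w hx hw h1]

theorem exists_clp {H : M} (hH : Hul H) : ∃ p, Clp H p ∧
    (∀ x y, x ∈ H → y ∈ H → ap p x = ap p y → x = y) ∧
    ∀ x y, x ∈ H → y ∈ H → (x ∈ y ↔ ap p x ∈ ap p y) := by
  let r : M := sp (pd H H) fun z => ∃ x y, z = op y x ∧ y ∈ x
  have hr : ∀ x y, op y x ∈ r ↔ (y ∈ H ∧ x ∈ H) ∧ y ∈ x := by
    intro x y
    show op y x ∈ sp (pd H H) (fun z => ∃ x y, z = op y x ∧ y ∈ x) ↔ _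
    rw [mem_sp (by simp (maxDischargeDepth := 50)), op_mem_pd]
    refine and_congr_right fun _ => ?_
    constructor
    · rintro ⟨x', y', h, h'⟩
      obtain ⟨rfl, rfl⟩ := op_inj.1 h
      exact h'
    · intro h
      exact ⟨x, y, rfl, h⟩
  have hwf : Wf H r := by
    intro S hS hne
    obtain ⟨m, hm, hmin⟩ := IsZF.found S hne
    exact ⟨m, hm, fun y hy h => hmin y ((hr m y).1 h).2 hy⟩
  obtain ⟨p, hp, hpr⟩ := exists_collapse hwf
  have hc : Clp H p := by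
    refine ⟨hp, fun x hx z => ?_⟩
    rw [hpr x hx z]
    constructor
    · rintro ⟨y, hy, h, rfl⟩
      exact ⟨y, hy, ((hr x y).1 h).2, rfl⟩
    · rintro ⟨y, hy, h, rfl⟩
      exact ⟨y, hy, (hr x y).2 ⟨⟨hy, hx⟩, h⟩, rfl⟩
  exact ⟨p, hc, Clp.inj hH hc, fun x y hx hy => Clp.mem_iff hH hc hx hy⟩

/-- The collapse fixes the elements of a transitive subset and the subsets of it. -/
theorem clp_fix_sub {H p : M} (hp : Clp H p) {k x : M} (hk : Tr k) (hs : Sb k H) (hx : x ∈ H)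
    (hxk : Sb x k) : ap p x = x := by
  have h1 : ∀ y : M, y ∈ k → ap p y = y := by
    refine mem_ind (Q := fun y => y ∈ k → ap p y = y) (by simp (maxDischargeDepth := 50)) ?_
    intro y ih hy
    refine ext' fun z => ?_
    rw [hp.2 y (hs y hy)]
    constructor
    · rintro ⟨w, hw, hwy, rfl⟩
      rw [ih w hwy (hk y hy w hwy)]
      exact hwy
    · intro hz
      have hzk := hk y hy z hz
      exact ⟨z, hs z hzk, hz, (ih z hz hzk).symm⟩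
  refine ext' fun z => ?_
  rw [hp.2 x hx]
  constructor
  · rintro ⟨w, hw, hwx, rfl⟩
    rw [h1 w (hxk w hwx)]
    exact hwx
  · intro hz
    exact ⟨z, hs z (hxk z hz), hz, (h1 z (hxk z hz)).symm⟩

theorem clp_fix {H p : M} (hp : Clp H p) {x : M} (hx : x ∈ H)
    (ht : Tr x) (hs : Sb x H) : ap p x = x := clp_fix_sub hp ht hs hx (Sb.refl x)

section

variable {H p : M} (hH : Hul H) (hp : Clp H p)

include hH hp

theorem clp_pr {x y : M} (hx : x ∈ H) (hy : y ∈ H) : ap p (pr x y) = pr (ap p x) (ap p y) := by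
  refine ext' fun z => ?_
  rw [hp.2 _ (hH.pr hx hy), mem_pr]
  constructor
  · rintro ⟨w, hw, h, rfl⟩
    rcases mem_pr.1 h with rfl | rfl
    · exact Or.inl rfl
    · exact Or.inr rfl
  · rintro (rfl | rfl)
    · exact ⟨x, hx, by simp, rfl⟩
    · exact ⟨y, hy, by simp, rfl⟩

theorem clp_op {x y : M} (hx : x ∈ H) (hy : y ∈ H) : ap p (op x y) = op (ap p x) (ap p y) := by
  unfold op
  rw [clp_pr hH hp (hH.pr hx hx) (hH.pr hx hy), clp_pr hH hp hx hx, clp_pr hH hp hx hy]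

theorem clp_of_op {z a b : M} (hz : z ∈ H) (h : ap p z = op a b) :
    ∃ x y, x ∈ H ∧ y ∈ H ∧ z = op x y ∧ a = ap p x ∧ b = ap p y := by
  have h1 : pr a a ∈ ap p z := by rw [h]; unfold op; simp
  have h2 : pr a b ∈ ap p z := by rw [h]; unfold op; simp
  obtain ⟨u, hu, -, hu'⟩ := (hp.2 z hz _).1 h1
  obtain ⟨v, hv, -, hv'⟩ := (hp.2 z hz _).1 h2
  have h3 : a ∈ ap p u := by rw [← hu']; simp
  have h4 : b ∈ ap p v := by rw [← hv']; simp
  obtain ⟨x, hx, -, rfl⟩ := (hp.2 u hu _).1 h3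
  obtain ⟨y, hy, -, rfl⟩ := (hp.2 v hv _).1 h4
  refine ⟨x, y, hx, hy, ?_, rfl, rfl⟩
  refine Clp.inj hH hp z _ hz (hH.op hx hy) ?_
  rw [h, clp_op hH hp hx hy]

theorem clp_Qx {i : Ix} {z X Y : M} (hz : z ∈ H) (hX : X ∈ H) (hY : Y ∈ H) :
    Qx i z X Y ↔ Qx i (ap p z) (ap p X) (ap p Y) := by
  have hin := Clp.inj hH hp
  have hmem := fun {x y : M} (hx : x ∈ H) (hy : y ∈ H) => Clp.mem_iff hH hp hx hy
  cases i
  · constructor
    · rintro (rfl | rfl)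
      · exact Or.inl rfl
      · exact Or.inr rfl
    · rintro (h | h)
      · exact Or.inl (hin _ _ hz hX h)
      · exact Or.inr (hin _ _ hz hY h)
  · exact and_congr (hmem hz hX) (not_congr (hmem hz hY))
  · refine and_congr (hmem hz hX) ?_
    constructor
    · rintro ⟨a, b, rfl, ha⟩
      obtain ⟨h1, h2⟩ := hH.cmp a b hz
      exact ⟨_, _, clp_op hH hp h1 h2, hp.mem h1 hY ha⟩
    · rintro ⟨a, b, h, ha⟩
      obtain ⟨x, y, hx, hy, h1, rfl, rfl⟩ := clp_of_op hH hp hz h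
      exact ⟨x, y, h1, (hmem hx hY).2 ha⟩
  · refine and_congr (hmem hz hX) ?_
    constructor
    · rintro ⟨a, b, rfl, ha⟩
      obtain ⟨h1, h2⟩ := hH.cmp a b hz
      exact ⟨_, _, clp_op hH hp h1 h2, hp.mem h2 hY ha⟩
    · rintro ⟨a, b, h, ha⟩
      obtain ⟨x, y, hx, hy, h1, rfl, rfl⟩ := clp_of_op hH hp hz h
      exact ⟨x, y, h1, (hmem hy hY).2 ha⟩
  · refine and_congr (hmem hz hX) ?_
    constructor
    · intro h
      obtain ⟨a, ha, h1⟩ := hH.rng z Y hz hY h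
      refine ⟨ap p a, ?_⟩
      rw [← clp_op hH hp ha hz]
      exact hp.mem (hH.op ha hz) hY h1
    · rintro ⟨a, ha⟩
      obtain ⟨w, hw, hwY, h1⟩ := (hp.2 Y hY _).1 ha
      obtain ⟨x, y, hx, hy, rfl, -, h3⟩ := clp_of_op hH hp hw h1.symm
      rw [hin z y hz hy h3]
      exact ⟨x, hwY⟩
  · refine and_congr (hmem hz hX) ?_
    constructor
    · intro h
      obtain ⟨a, ha, h1⟩ := hH.dom z Y hz hY h
      refine ⟨ap p a, ?_⟩
      rw [← clp_op hH hp hz ha]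
      exact hp.mem (hH.op hz ha) hY h1
    · rintro ⟨a, ha⟩
      obtain ⟨w, hw, hwY, h1⟩ := (hp.2 Y hY _).1 ha
      obtain ⟨x, y, hx, hy, rfl, h3, -⟩ := clp_of_op hH hp hw h1.symm
      rw [hin z x hz hx h3]
      exact ⟨y, hwY⟩
  · refine and_congr (hmem hz hX) ?_
    constructor
    · rintro ⟨x, y, t, rfl, h⟩
      obtain ⟨h1, h2⟩ := hH.cmp _ _ hz
      obtain ⟨h3, h4⟩ := hH.cmp _ _ h2
      exact ⟨_, _, _, by rw [clp_op hH hp h1 h2, clp_op hH hp h3 h4], hp.mem h1 h3 h⟩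
    · rintro ⟨x, y, t, h, h'⟩
      obtain ⟨x, u, hx, hu, rfl, rfl, h1⟩ := clp_of_op hH hp hz h
      obtain ⟨y, t, hy, ht, rfl, rfl, rfl⟩ := clp_of_op hH hp hu h1.symm
      exact ⟨x, y, t, rfl, (hmem hx hy).2 h'⟩
  · refine and_congr (hmem hz hX) ?_
    constructor
    · rintro ⟨x, t, rfl⟩
      obtain ⟨h1, h2⟩ := hH.cmp _ _ hz
      obtain ⟨h3, h4⟩ := hH.cmp _ _ h2
      exact ⟨_, _, by rw [clp_op hH hp h1 h2, clp_op hH hp h3 h4]⟩
    · rintro ⟨x, t, h⟩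
      obtain ⟨x, u, hx, hu, rfl, rfl, h1⟩ := clp_of_op hH hp hz h
      obtain ⟨y, t, hy, ht, rfl, h2, rfl⟩ := clp_of_op hH hp hu h1.symm
      rw [hin x y hx hy h2]
      exact ⟨y, t, rfl⟩
  · refine and_congr (hmem hz hX) ?_
    constructor
    · rintro ⟨x, y, t, rfl, h⟩
      obtain ⟨h1, h2⟩ := hH.cmp _ _ hz
      obtain ⟨h3, h4⟩ := hH.cmp _ _ h2
      refine ⟨_, _, _, by rw [clp_op hH hp h1 h2, clp_op hH hp h3 h4], ?_⟩
      rw [← clp_op hH hp h1 h4]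
      exact hp.mem (hH.op h1 h4) hY h
    · rintro ⟨x, y, t, h, h'⟩
      obtain ⟨x, u, hx, hu, rfl, rfl, h1⟩ := clp_of_op hH hp hz h
      obtain ⟨y, t, hy, ht, rfl, rfl, rfl⟩ := clp_of_op hH hp hu h1.symm
      refine ⟨x, y, t, rfl, ?_⟩
      rw [← clp_op hH hp hx ht] at h'
      exact (hmem (hH.op hx ht) hY).2 h'

theorem clp_Gf {i : Ix} {X Y : M} (hX : X ∈ H) (hY : Y ∈ H) :
    ap p (Gf i X Y) = Gf i (ap p X) (ap p Y) := by
  refine ext' fun z => ?_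
  rw [hp.2 _ (hH.gf i X Y hX hY), mem_Gf]
  constructor
  · rintro ⟨w, hw, h, rfl⟩
    exact (clp_Qx hH hp hw hX hY).1 (mem_Gf.1 h)
  · intro h
    have h1 : ∃ w, w ∈ H ∧ z = ap p w := by
      rcases h.mem with h | h | h
      · exact ⟨X, hX, h⟩
      · exact ⟨Y, hY, h⟩
      · obtain ⟨w, hw, -, h2⟩ := (hp.2 X hX _).1 h
        exact ⟨w, hw, h2⟩
    obtain ⟨w, hw, rfl⟩ := h1
    exact ⟨w, hw, mem_Gf.2 ((clp_Qx hH hp hw hX hY).2 h), rfl⟩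

theorem clp_sb {x y : M} (hx : x ∈ H) (hy : y ∈ H) (h : Sb x y) : Sb (ap p x) (ap p y) := by
  intro z hz
  obtain ⟨w, hw, hwx, rfl⟩ := (hp.2 x hx _).1 hz
  exact hp.mem hw hy (h w hwx)

omit hH hp in
theorem un_eq_right {x y : M} (h : Sb x y) : un x y = y :=
  ext' fun z => by
    rw [mem_un]
    exact ⟨fun hz => hz.elim (h z) id, Or.inr⟩

omit hH hp in
theorem un_comm' (x y : M) : un x y = un y x := ext' fun z => by rw [mem_un, mem_un, or_comm]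

theorem clp_un {x y : M} (hx : x ∈ H) (hy : y ∈ H) (hOx : Ord x) (hOy : Ord y) :
    un x y ∈ H ∧ ap p (un x y) = un (ap p x) (ap p y) := by
  rcases Ord.sb_total hOx hOy with h | h
  · rw [un_eq_right h, un_eq_right (clp_sb hH hp hx hy h)]
    exact ⟨hy, rfl⟩
  · rw [un_comm' x y, un_eq_right h, un_comm' (ap p x), un_eq_right (clp_sb hH hp hy hx h)]
    exact ⟨hx, rfl⟩

theorem clp_Lt3 {β' γ' β γ : M} {i' i : Ix} (hβ' : β' ∈ H) (hγ' : γ' ∈ H) (hβ : β ∈ H)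
    (hγ : γ ∈ H) (hOβ' : Ord β') (hOγ' : Ord γ') (hOβ : Ord β) (hOγ : Ord γ)
    (h : Lt3 (ap p β') (ap p γ') i' (ap p β) (ap p γ) i) : Lt3 β' γ' i' β γ i := by
  have hin := Clp.inj hH hp
  have hmem := fun {x y : M} (hx : x ∈ H) (hy : y ∈ H) => Clp.mem_iff hH hp hx hy
  obtain ⟨h1, h2⟩ := clp_un hH hp hβ' hγ' hOβ' hOγ'
  obtain ⟨h3, h4⟩ := clp_un hH hp hβ hγ hOβ hOγ
  unfold Lt3 at h ⊢
  rw [← h2, ← h4] at h
  rcases h with h | ⟨h, h'⟩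
  · exact Or.inl ((hmem h1 h3).2 h)
  · refine Or.inr ⟨hin _ _ h1 h3 h, ?_⟩
    rcases h' with h' | ⟨h', h''⟩
    · exact Or.inl ((hmem hβ' hβ).2 h')
    · refine Or.inr ⟨hin _ _ hβ' hβ h', ?_⟩
      rcases h'' with h'' | ⟨h'', h5⟩
      · exact Or.inl ((hmem hγ' hγ).2 h'')
      · exact Or.inr ⟨hin _ _ hγ' hγ h'', h5⟩

/-- Condensation, without the assumption that all sets are constructible. -/
theorem condense' {α : M} (hα : Ord α) (hαH : α ∈ H) :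
    Ord (ap p α) ∧ ap p (Fc α) = Fc (ap p α) := by
  have hin := Clp.inj hH hp
  refine Ord.indAll (P := fun α => α ∈ H → Ord (ap p α) ∧ ap p (Fc α) = Fc (ap p α))
    (by simp (maxDischargeDepth := 50)) ?_ hα hαH
  clear hαH hα α
  intro α hα ih hαH
  have hO : Ord (ap p α) := by
    refine ord_mk (fun y hy z hz => ?_) fun y hy => ?_
    · obtain ⟨b, hb, hbα, rfl⟩ := (hp.2 α hαH _).1 hy
      obtain ⟨c, hc, hcb, rfl⟩ := (hp.2 b hb _).1 hz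
      exact hp.mem hc hαH (hα.trans hcb hbα)
    · obtain ⟨b, hb, hbα, rfl⟩ := (hp.2 α hαH _).1 hy
      exact (ih b hbα hb).1
  refine ⟨hO, ?_⟩
  -- the values of the operations at earlier sets
  have hgf : ∀ b c : M, b ∈ H → c ∈ H → b ∈ α → c ∈ α → ∀ i,
      Gf i (Fc b) (Fc c) ∈ H ∧ Gf i (Fc (ap p b)) (Fc (ap p c)) = ap p (Gf i (Fc b) (Fc c)) := by
    intro b c hb hc hbα hcα i
    have hFb := hH.fc b (hα.mem hbα) hb
    have hFc := hH.fc c (hα.mem hcα) hc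
    exact ⟨hH.gf i _ _ hFb hFc,
      by rw [clp_Gf hH hp hFb hFc, (ih b hbα hb).2, (ih c hcα hc).2]⟩
  have hcl : ∀ b c : M, b ∈ H → c ∈ H → b ∈ α → c ∈ α → ∀ i,
      (∃ x, x ∈ α ∧ Gf i (Fc b) (Fc c) = Fc x) →
      ∃ x, x ∈ ap p α ∧ Gf i (Fc (ap p b)) (Fc (ap p c)) = Fc x := by
    rintro b c hb hc hbα hcα i ⟨x, hx, hx'⟩
    obtain ⟨h1, h2⟩ := hgf b c hb hc hbα hcα i
    have hxH : x ∈ H := hH.idx x (hα.mem hx) (by rw [← hx']; exact h1)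
    exact ⟨ap p x, hp.mem hxH hαH hx, by rw [h2, hx', (ih x hx hxH).2]⟩
  refine Step.unique hO ?_ (step_Fc hO)
  rcases step_Fc hα with ⟨β, γ, hβ, hγ, i, h1, h2, h3⟩ | ⟨h1, h2⟩
  · obtain ⟨β, γ, hβ, hγ, hβH, hγH, h4, h5⟩ := hH.wit α hα hαH i ⟨β, γ, hβ, hγ, h1, h3⟩
    obtain ⟨h6, h7⟩ := hgf β γ hβH hγH hβ hγ i
    refine Or.inl ⟨ap p β, ap p γ, hp.mem hβH hαH hβ, hp.mem hγH hαH hγ, i, ?_, ?_, ?_⟩
    · rw [h7, h4]
    · intro x hx hx'
      obtain ⟨ξ, hξ, hξα, rfl⟩ := (hp.2 α hαH _).1 hx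
      rw [← (ih ξ hξα hξ).2] at hx'
      exact Fc_new hα hξα (hin _ _ (hH.fc α hα hαH) (hH.fc ξ (hα.mem hξα) hξ) hx')
    · intro β' γ' hβ' hγ' i' hl
      obtain ⟨b, hb, hbα, rfl⟩ := (hp.2 α hαH _).1 hβ'
      obtain ⟨c, hc, hcα, rfl⟩ := (hp.2 α hαH _).1 hγ'
      exact hcl b c hb hc hbα hcα i' (h5 b c hbα hcα i' (clp_Lt3 hH hp hb hc hβH hγH
        (hα.mem hbα) (hα.mem hcα) (hα.mem hβ) (hα.mem hγ) hl))
  · refine Or.inr ⟨fun z => ?_, ?_⟩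
    · rw [hp.2 _ (hH.fc α hα hαH)]
      constructor
      · rintro ⟨w, hw, hwα, rfl⟩
        obtain ⟨x, hx, rfl⟩ := (h1 w).1 hwα
        have hxH : x ∈ H := hH.idx x (hα.mem hx) hw
        exact ⟨ap p x, hp.mem hxH hαH hx, (ih x hx hxH).2⟩
      · rintro ⟨x, hx, rfl⟩
        obtain ⟨ξ, hξ, hξα, rfl⟩ := (hp.2 α hαH _).1 hx
        exact ⟨Fc ξ, hH.fc ξ (hα.mem hξα) hξ, (h1 _).2 ⟨ξ, hξα, rfl⟩, (ih ξ hξα hξ).2.symm⟩
    · intro β' γ' hβ' hγ' i'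
      obtain ⟨b, hb, hbα, rfl⟩ := (hp.2 α hαH _).1 hβ'
      obtain ⟨c, hc, hcα, rfl⟩ := (hp.2 α hαH _).1 hγ'
      exact hcl b c hb hc hbα hcα i' (h2 b c hbα hcα i')

end

theorem condense (_hL : AllL M) {H p : M} (hH : Hul H) (hp : Clp H p) {α : M} (hα : Ord α)
    (hαH : α ∈ H) : Ord (ap p α) ∧ ap p (Fc α) = Fc (ap p α) := condense' hH hp hα hαH

end Pool.Agent.GL
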