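import Pool.Agent.SigB.Dfn

/-!
Models of the axioms of Zermelo and Fraenkel, without the axiom of choice.
-/

universe u

namespace Pool.Agent.GL

open Pool.Agent.SigB

/-- The structure `(M, ∈)` is a model of ZF. The schemes of separation and replacement are
required for all first-order formulas with parameters from `M`. -/
class IsZF (M : Type u) [Membership M M] : Prop where
  ext : ∀ x y : M, (∀ z : M, z ∈ x ↔ z ∈ y) → x = y
  found : ∀ x : M, (∃ y : M, y ∈ x) → ∃ y : M, y ∈ x ∧ ∀ z : M, z ∈ y → z ∉ x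
  pairing : ∀ x y : M, ∃ z : M, x ∈ z ∧ y ∈ z
  union : ∀ x : M, ∃ u : M, ∀ y z : M, z ∈ y → y ∈ x → z ∈ u
  power : ∀ x : M, ∃ p : M, ∀ y : M, (∀ z : M, z ∈ y → z ∈ x) → y ∈ p
  infinity : ∃ x : M, (∃ e : M, e ∈ x ∧ ∀ z : M, z ∉ e) ∧
    ∀ y : M, y ∈ x → ∃ s : M, s ∈ x ∧ ∀ z : M, z ∈ s ↔ z ∈ y ∨ z = y
  separation : ∀ (φ : Fml M 1) (a : M), ∃ b : M, ∀ x : M, x ∈ b ↔ x ∈ a ∧ φ.Sat ![x]
  replacement : ∀ (φ : Fml M 2) (a : M), (∀ x : M, x ∈ a → ∃! y : M, φ.Sat ![x, y]) →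
    ∃ b : M, ∀ x : M, x ∈ a → ∃ y : M, y ∈ b ∧ φ.Sat ![x, y]

instance (priority := 100) isZF_of_isZFC (M : Type u) [Membership M M] [h : IsZFC M] : IsZF M where
  ext := h.ext
  found := h.found
  pairing := h.pairing
  union := h.union
  power := h.power
  infinity := h.infinity
  separation := h.separation
  replacement := h.replacement

end Pool.Agent.GL
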