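import Pool.Agent.GL.Enu

/-!
The class of constructible sets, the model of the constructible sets, coding of tuples, and sets
closed under the functions used in the condensation argument.
-/

universe u

set_option linter.unusedSectionVars false

namespace Pool.Agent.GL

open Pool.Agent.SigB

variable {M : Type u} [Membership M M] [IsZF M]

/-- The constructible sets. -/
def Lc (x : M) : Prop := ∃ α, Ord α ∧ x = Fc α

@[simp] theorem dfn_Lc {n : ℕ} {s : (Fin n → M) → M} (hs : DT s) :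
    Dfn (fun v => Lc (s v)) :=
  dfn1 (R := Lc) (by unfold Lc; simp (maxDischargeDepth := 50)) hs

/-- The set of the first `α` constructible sets. -/
noncomputable def XX (α : M) : M := im α Fc

theorem mem_XX {α z : M} : z ∈ XX α ↔ ∃ x, x ∈ α ∧ z = Fc x := mem_im Fc.dt

@[simp] theorem dt_XX {n : ℕ} {s : (Fin n → M) → M} (hs : DT s) :
    DT (fun v => XX (s v)) :=
  dt1 (F := XX) (by unfold XX; simp (maxDischargeDepth := 50)) hs

/-- The index of a constructible set. -/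
noncomputable def idx (x : M) : M := mu fun α => x = Fc α

@[simp] theorem dt_idx {n : ℕ} {s : (Fin n → M) → M} (hs : DT s) :
    DT (fun v => idx (s v)) :=
  dt1 (F := idx) (by
    unfold idx
    exact dt_mu (P := fun (v : Fin 1 → M) α => v 0 = Fc α) (by simp (maxDischargeDepth := 50))) hs

variable (M) in
/-- The structure of the constructible sets. -/
def LM : Type u := {x : M // Lc x}

instance : Membership (LM M) (LM M) := ⟨fun a x => x.1 ∈ a.1⟩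

theorem LM.mem_iff {x a : LM M} : x ∈ a ↔ x.1 ∈ a.1 := Iff.rfl

/-- The code of a tuple. -/
noncomputable def tup : ∀ {n : ℕ}, (Fin n → M) → M
  | 0, _ => em
  | _ + 1, v => op (v 0) (tup fun i => v i.succ)

variable (M) in
/-- Every set is constructible. -/
def AllL : Prop := ∀ x : M, Lc x

/-- `H` is closed under the functions used in the condensation argument. -/
structure Hul (H : M) : Prop where
  fc : ∀ α, Ord α → α ∈ H → Fc α ∈ H
  idx : ∀ α, Ord α → Fc α ∈ H → α ∈ H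
  gf : ∀ i x y, x ∈ H → y ∈ H → Gf i x y ∈ H
  wit : ∀ α, Ord α → α ∈ H → ∀ i, (∃ β γ, β ∈ α ∧ γ ∈ α ∧ Fc α = Gf i (Fc β) (Fc γ) ∧
      ∀ β' γ', β' ∈ α → γ' ∈ α → ∀ i', Lt3 β' γ' i' β γ i →
        ∃ x, x ∈ α ∧ Gf i' (Fc β') (Fc γ') = Fc x) →
    ∃ β γ, β ∈ α ∧ γ ∈ α ∧ β ∈ H ∧ γ ∈ H ∧ Fc α = Gf i (Fc β) (Fc γ) ∧
      ∀ β' γ', β' ∈ α → γ' ∈ α → ∀ i', Lt3 β' γ' i' β γ i →
        ∃ x, x ∈ α ∧ Gf i' (Fc β') (Fc γ') = Fc x
  dif : ∀ x y, x ∈ H → y ∈ H → x ≠ y → ∃ z, z ∈ H ∧ ¬ (z ∈ x ↔ z ∈ y)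
  cmp : ∀ x y, op x y ∈ H → x ∈ H ∧ y ∈ H
  rng : ∀ z Y, z ∈ H → Y ∈ H → (∃ a, op a z ∈ Y) → ∃ a, a ∈ H ∧ op a z ∈ Y
  dom : ∀ z Y, z ∈ H → Y ∈ H → (∃ b, op z b ∈ Y) → ∃ b, b ∈ H ∧ op z b ∈ Y

/-- `p` is the collapse of `H`. -/
def Clp (H p : M) : Prop := Fn p H ∧ ∀ x, x ∈ H → ∀ z, z ∈ ap p x ↔ ∃ y, y ∈ H ∧ y ∈ x ∧ z = ap p y

end Pool.Agent.GL
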