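import Pool.Agent.GL.Enu

/-!
Transitive embeddings of models of ZF with the same ordinals: absoluteness of the basic operations
and of the enumeration of the constructible sets.
-/

universe u v

set_option linter.unusedSectionVars false

namespace Pool.Agent.GL

open Pool.Agent.SigB

variable {M : Type u} {N : Type v} [Membership M M] [Membership N N] [IsZF M] [IsZF N]

theorem mem_rs {f a z : M} : z ∈ rs f a ↔ z ∈ f ∧ ∃ x, x ∈ a ∧ ∃ y, z = op x y := by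
  unfold rs
  exact mem_sp (by simp (maxDischargeDepth := 50))

/-- The function `j` is an isomorphism of `M` with a transitive class of `N` which contains all
ordinals of `N`. -/
structure TrEmb (j : M → N) : Prop where
  mem_iff : ∀ {x y : M}, j x ∈ j y ↔ x ∈ y
  tr : ∀ {y : M} {z : N}, z ∈ j y → ∃ x, x ∈ y ∧ z = j x
  ord : ∀ {α : N}, Ord α → ∃ β : M, α = j β

namespace TrEmb

variable {j : M → N} (hj : TrEmb j)

theorem refl : TrEmb (fun x : M => x) := ⟨Iff.rfl, fun h => ⟨_, h, rfl⟩, fun _ => ⟨_, rfl⟩⟩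

include hj

theorem comp {K : Type*} [Membership K K] [IsZF K] {k : N → K} (hk : TrEmb k) :
    TrEmb (fun x => k (j x)) := by
  refine ⟨hk.mem_iff.trans hj.mem_iff, fun h => ?_, fun h => ?_⟩
  · obtain ⟨y, hy, rfl⟩ := hk.tr h
    obtain ⟨x, hx, rfl⟩ := hj.tr hy
    exact ⟨x, hx, rfl⟩
  · obtain ⟨β, rfl⟩ := hk.ord h
    have hβ : Ord β := by
      refine ⟨fun y hy z hz => ?_, fun y hy z hz w hw => ?_⟩
      · exact hk.mem_iff.1 (h.1 _ (hk.mem_iff.2 hy) _ (hk.mem_iff.2 hz))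
      · exact hk.mem_iff.1 (h.2 _ (hk.mem_iff.2 hy) _ (hk.mem_iff.2 hz) _ (hk.mem_iff.2 hw))
    obtain ⟨γ, rfl⟩ := hj.ord hβ
    exact ⟨γ, rfl⟩

theorem mem {y : M} {z : N} : z ∈ j y ↔ ∃ x, x ∈ y ∧ z = j x := by
  refine ⟨hj.tr, ?_⟩
  rintro ⟨x, hx, rfl⟩
  exact hj.mem_iff.2 hx

theorem inj {x y : M} : j x = j y ↔ x = y := by
  refine ⟨fun h => ext' fun z => ?_, fun h => by rw [h]⟩
  rw [← hj.mem_iff, h, hj.mem_iff]

theorem eq_of {x : M} {a : N} (h : ∀ z : M, z ∈ x ↔ j z ∈ a)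
    (h' : ∀ z, z ∈ a → ∃ y, z = j y) : j x = a := by
  refine ext' fun z => ⟨fun hz => ?_, fun hz => ?_⟩
  · obtain ⟨z, hz', rfl⟩ := hj.tr hz
    exact (h z).1 hz'
  · obtain ⟨z, rfl⟩ := h' z hz
    exact hj.mem_iff.2 ((h z).2 hz)

theorem em : j em = em :=
  hj.eq_of (fun z => ⟨fun h => (not_mem_em z h).elim, fun h => (not_mem_em _ h).elim⟩)
    fun z h => (not_mem_em z h).elim

theorem pr (x y : M) : j (pr x y) = pr (j x) (j y) :=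
  hj.eq_of (fun z => by rw [mem_pr, mem_pr, hj.inj, hj.inj]) fun z hz => by
    rcases mem_pr.1 hz with rfl | rfl
    · exact ⟨x, rfl⟩
    · exact ⟨y, rfl⟩

theorem op (x y : M) : j (op x y) = op (j x) (j y) := by
  unfold GL.op
  rw [hj.pr, hj.pr, hj.pr]

theorem sU (x : M) : j (sU x) = sU (j x) := by
  refine hj.eq_of (fun z => ?_) fun z hz => ?_
  · rw [mem_sU, mem_sU]
    constructor
    · rintro ⟨y, hy, hz⟩
      exact ⟨j y, hj.mem_iff.2 hy, hj.mem_iff.2 hz⟩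
    · rintro ⟨y, hy, hz⟩
      obtain ⟨y, hy', rfl⟩ := hj.tr hy
      exact ⟨y, hy', hj.mem_iff.1 hz⟩
  · obtain ⟨y, hy, hz⟩ := mem_sU.1 hz
    obtain ⟨y, hy', rfl⟩ := hj.tr hy
    obtain ⟨z, -, rfl⟩ := hj.tr hz
    exact ⟨z, rfl⟩

theorem un (x y : M) : j (un x y) = un (j x) (j y) := by
  unfold GL.un
  rw [hj.sU, hj.pr]

theorem sc (x : M) : j (sc x) = sc (j x) := by
  unfold GL.sc
  rw [hj.un, hj.pr]

theorem sb_iff {x y : M} : Sb (j x) (j y) ↔ Sb x y := by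
  constructor
  · intro h z hz
    exact hj.mem_iff.1 (h _ (hj.mem_iff.2 hz))
  · intro h z hz
    obtain ⟨w, hw, rfl⟩ := hj.tr hz
    exact hj.mem_iff.2 (h w hw)

theorem tr_iff {x : M} : Tr (j x) ↔ Tr x := by
  constructor
  · intro h y hy
    exact hj.sb_iff.1 (h _ (hj.mem_iff.2 hy))
  · intro h y hy
    obtain ⟨w, hw, rfl⟩ := hj.tr hy
    exact hj.sb_iff.2 (h w hw)

theorem ord_iff {x : M} : Ord (j x) ↔ Ord x := by
  unfold Ord
  rw [hj.tr_iff]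
  refine and_congr_right fun _ => ⟨fun h y hy => ?_, fun h y hy => ?_⟩
  · exact hj.tr_iff.1 (h _ (hj.mem_iff.2 hy))
  · obtain ⟨w, hw, rfl⟩ := hj.tr hy
    exact hj.tr_iff.2 (h w hw)

theorem ord_lift {α : N} (h : Ord α) : ∃ β : M, Ord β ∧ α = j β := by
  obtain ⟨β, rfl⟩ := hj.ord h
  exact ⟨β, hj.ord_iff.1 h, rfl⟩

theorem op_mem {f x y : M} : GL.op (j x) (j y) ∈ j f ↔ GL.op x y ∈ f := by
  rw [← hj.op, hj.mem_iff]

/-- A pair in the image is the image of a pair. -/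
theorem of_op {z : M} {a b : N} (h : j z = GL.op a b) :
    ∃ a' b', a = j a' ∧ b = j b' ∧ z = GL.op a' b' := by
  have h1 : GL.pr a b ∈ j z := by rw [h]; unfold GL.op; simp
  obtain ⟨w, -, hw⟩ := hj.tr h1
  obtain ⟨a', -, rfl⟩ := hj.tr (show a ∈ j w by rw [← hw]; simp)
  obtain ⟨b', -, rfl⟩ := hj.tr (show b ∈ j w by rw [← hw]; simp)
  refine ⟨a', b', rfl, rfl, ?_⟩
  rw [← hj.inj, h, hj.op]

theorem of_op_mem {f : M} {a b : N} (h : GL.op a b ∈ j f) :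
    ∃ a' b', a = j a' ∧ b = j b' ∧ GL.op a' b' ∈ f := by
  obtain ⟨z, hz, hz'⟩ := hj.tr h
  obtain ⟨a', b', rfl, rfl, rfl⟩ := hj.of_op hz'.symm
  exact ⟨a', b', rfl, rfl, hz⟩

theorem pd (x y : M) : j (pd x y) = pd (j x) (j y) := by
  refine hj.eq_of (fun z => ?_) fun z hz => ?_
  · rw [mem_pd, mem_pd]
    constructor
    · rintro ⟨a, ha, b, hb, rfl⟩
      exact ⟨j a, hj.mem_iff.2 ha, j b, hj.mem_iff.2 hb, hj.op a b⟩
    · rintro ⟨a, ha, b, hb, h⟩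
      obtain ⟨a', b', rfl, rfl, rfl⟩ := hj.of_op h
      exact ⟨a', hj.mem_iff.1 ha, b', hj.mem_iff.1 hb, rfl⟩
  · obtain ⟨a, ha, b, hb, rfl⟩ := mem_pd.1 hz
    obtain ⟨a, -, rfl⟩ := hj.tr ha
    obtain ⟨b, -, rfl⟩ := hj.tr hb
    exact ⟨GL.op a b, (hj.op a b).symm⟩

theorem ap (f x : M) : j (ap f x) = ap (j f) (j x) := by
  refine hj.eq_of (fun z => ?_) fun z hz => ?_
  · rw [mem_ap, mem_ap]
    constructor
    · rintro ⟨y, hy, hz⟩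
      exact ⟨j y, hj.op_mem.2 hy, hj.mem_iff.2 hz⟩
    · rintro ⟨y, hy, hz⟩
      obtain ⟨a', b', h1, rfl, hy'⟩ := hj.of_op_mem hy
      obtain rfl := hj.inj.1 h1
      exact ⟨b', hy', hj.mem_iff.1 hz⟩
  · obtain ⟨y, hy, hz⟩ := mem_ap.1 hz
    obtain ⟨a', b', -, rfl, -⟩ := hj.of_op_mem hy
    obtain ⟨z, -, rfl⟩ := hj.tr hz
    exact ⟨z, rfl⟩

theorem fn_iff {f a : M} : Fn (j f) (j a) ↔ Fn f a := by
  constructor
  · rintro ⟨h1, h2⟩
    refine ⟨fun z hz => ?_, fun x hx => ?_⟩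
    · obtain ⟨x, hx, y, h⟩ := h1 _ (hj.mem_iff.2 hz)
      obtain ⟨a', b', rfl, rfl, rfl⟩ := hj.of_op h
      exact ⟨a', hj.mem_iff.1 hx, b', rfl⟩
    · obtain ⟨y, hy, hu⟩ := h2 _ (hj.mem_iff.2 hx)
      obtain ⟨a', b', h3, rfl, h⟩ := hj.of_op_mem hy
      obtain rfl := hj.inj.1 h3
      exact ⟨b', h, fun y' hy' => hj.inj.1 (hu _ (hj.op_mem.2 hy'))⟩
  · rintro ⟨h1, h2⟩
    refine ⟨fun z hz => ?_, fun x hx => ?_⟩
    · obtain ⟨w, hw, rfl⟩ := hj.tr hz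
      obtain ⟨x, hx, y, rfl⟩ := h1 w hw
      exact ⟨j x, hj.mem_iff.2 hx, j y, hj.op x y⟩
    · obtain ⟨x, hx', rfl⟩ := hj.tr hx
      obtain ⟨y, hy, hu⟩ := h2 x hx'
      refine ⟨j y, hj.op_mem.2 hy, fun y' hy' => ?_⟩
      obtain ⟨a', b', h3, rfl, h⟩ := hj.of_op_mem hy'
      obtain rfl := hj.inj.1 h3
      rw [hu _ h]

theorem op_mem_rs' {f a x y : M} : GL.op x y ∈ rs f a ↔ GL.op (j x) (j y) ∈ rs (j f) (j a) := by
  rw [op_mem_rs, op_mem_rs, hj.op_mem, hj.mem_iff]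

theorem rs (f a : M) : j (rs f a) = rs (j f) (j a) := by
  refine hj.eq_of (fun z => ?_) fun z hz => ?_
  · rw [mem_rs, mem_rs, hj.mem_iff]
    refine and_congr_right fun _ => ⟨?_, ?_⟩
    · rintro ⟨x, hx, y, rfl⟩
      exact ⟨j x, hj.mem_iff.2 hx, j y, hj.op x y⟩
    · rintro ⟨x, hx, y, h⟩
      obtain ⟨a', b', rfl, rfl, rfl⟩ := hj.of_op h
      exact ⟨a', hj.mem_iff.1 hx, b', rfl⟩
  · rw [mem_rs] at hz
    obtain ⟨z, -, rfl⟩ := hj.tr hz.1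
    exact ⟨z, rfl⟩

theorem om : j om = om := by
  apply Sb.antisymm
  · intro z hz
    obtain ⟨n, hn, rfl⟩ := hj.tr hz
    by_contra hno
    have hord : Ord (j n) := hj.ord_iff.2 (ord_of_mem_om hn)
    obtain ⟨y, hy, hyP, hmin⟩ := Ord.exists_least
      (P := fun y : N => y ∈ j GL.om ∧ y ∉ (GL.om : N))
      (by simp (maxDischargeDepth := 50)) hord ⟨hj.mem_iff.2 hn, hno⟩
    obtain ⟨m, hm, rfl⟩ := hj.tr hyP.1
    rcases om_cases hm with rfl | ⟨k, hk, rfl⟩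
    · apply hyP.2
      rw [hj.em]
      exact em_mem_om
    · apply hyP.2
      rw [hj.sc]
      apply sc_mem_om
      by_contra hk'
      refine hmin (j k) ?_ ⟨hj.mem_iff.2 hk, hk'⟩
      rw [hj.sc]; exact mem_sc_self _
  · intro z hz
    refine mem_om.1 hz _ ⟨?_, fun x hx => ?_⟩
    · rw [← hj.em, hj.mem_iff]; exact em_mem_om
    · obtain ⟨n, hn, rfl⟩ := hj.tr hx
      rw [← hj.sc, hj.mem_iff]; exact sc_mem_om hn

theorem mem_om_lift {n : N} (h : n ∈ (GL.om : N)) : ∃ m, m ∈ (GL.om : M) ∧ n = j m := by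
  rw [← hj.om] at h
  exact hj.tr h

theorem mem_om_iff {n : M} : j n ∈ (GL.om : N) ↔ n ∈ (GL.om : M) := by
  rw [← hj.om, hj.mem_iff]

theorem mem_fs_iff {f a b : M} : j f ∈ fs (j a) (j b) ↔ f ∈ fs a b := by
  rw [mem_fs, mem_fs, hj.fn_iff]
  refine and_congr_right fun _ => ⟨fun h x hx => ?_, fun h x hx => ?_⟩
  · rw [← hj.mem_iff, hj.ap]
    exact h _ (hj.mem_iff.2 hx)
  · obtain ⟨x, hx', rfl⟩ := hj.tr hx
    rw [← hj.ap, hj.mem_iff]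
    exact h x hx'

/-- Reals. -/
theorem real_iff {x : M} : j x ∈ fs (GL.om : N) GL.om ↔ x ∈ fs (GL.om : M) GL.om := by
  rw [← hj.mem_fs_iff, hj.om]

/-! ### The enumeration of the constructible sets -/

theorem qx_iff {i : Ix} {z X Y : M} : Qx i (j z) (j X) (j Y) ↔ Qx i z X Y := by
  cases i
  · show (j z = j X ∨ j z = j Y) ↔ (z = X ∨ z = Y)
    rw [hj.inj, hj.inj]
  · show (j z ∈ j X ∧ j z ∉ j Y) ↔ (z ∈ X ∧ z ∉ Y)
    rw [hj.mem_iff, hj.mem_iff]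
  · refine and_congr hj.mem_iff ⟨?_, ?_⟩
    · rintro ⟨a, b, h, ha⟩
      obtain ⟨a', b', rfl, rfl, rfl⟩ := hj.of_op h
      exact ⟨a', b', rfl, hj.mem_iff.1 ha⟩
    · rintro ⟨a, b, rfl, ha⟩
      exact ⟨j a, j b, hj.op a b, hj.mem_iff.2 ha⟩
  · refine and_congr hj.mem_iff ⟨?_, ?_⟩
    · rintro ⟨a, b, h, ha⟩
      obtain ⟨a', b', rfl, rfl, rfl⟩ := hj.of_op h
      exact ⟨a', b', rfl, hj.mem_iff.1 ha⟩
    · rintro ⟨a, b, rfl, ha⟩
      exact ⟨j a, j b, hj.op a b, hj.mem_iff.2 ha⟩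
  · refine and_congr hj.mem_iff ⟨?_, ?_⟩
    · rintro ⟨a, ha⟩
      obtain ⟨a', b', rfl, h, h'⟩ := hj.of_op_mem ha
      obtain rfl := hj.inj.1 h
      exact ⟨a', h'⟩
    · rintro ⟨a, ha⟩
      exact ⟨j a, hj.op_mem.2 ha⟩
  · refine and_congr hj.mem_iff ⟨?_, ?_⟩
    · rintro ⟨a, ha⟩
      obtain ⟨a', b', h, rfl, h'⟩ := hj.of_op_mem ha
      obtain rfl := hj.inj.1 h
      exact ⟨b', h'⟩
    · rintro ⟨a, ha⟩
      exact ⟨j a, hj.op_mem.2 ha⟩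
  · refine and_congr hj.mem_iff ⟨?_, ?_⟩
    · rintro ⟨a, b, c, h, ha⟩
      obtain ⟨a', w, rfl, hw, rfl⟩ := hj.of_op h
      obtain ⟨b', c', rfl, rfl, rfl⟩ := hj.of_op hw.symm
      exact ⟨a', b', c', rfl, hj.mem_iff.1 ha⟩
    · rintro ⟨a, b, c, rfl, ha⟩
      exact ⟨j a, j b, j c, by rw [hj.op, hj.op], hj.mem_iff.2 ha⟩
  · refine and_congr hj.mem_iff ⟨?_, ?_⟩
    · rintro ⟨a, c, h⟩
      obtain ⟨a', w, rfl, hw, rfl⟩ := hj.of_op h
      obtain ⟨b', c', hb, rfl, rfl⟩ := hj.of_op hw.symm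
      obtain rfl := hj.inj.1 hb
      exact ⟨a', c', rfl⟩
    · rintro ⟨a, c, rfl⟩
      exact ⟨j a, j c, by rw [hj.op, hj.op]⟩
  · refine and_congr hj.mem_iff ⟨?_, ?_⟩
    · rintro ⟨a, b, c, h, ha⟩
      obtain ⟨a', w, rfl, hw, rfl⟩ := hj.of_op h
      obtain ⟨b', c', rfl, rfl, rfl⟩ := hj.of_op hw.symm
      exact ⟨a', b', c', rfl, hj.op_mem.1 ha⟩
    · rintro ⟨a, b, c, rfl, ha⟩
      exact ⟨j a, j b, j c, by rw [hj.op, hj.op], hj.op_mem.2 ha⟩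

theorem gf (i : Ix) (x y : M) : j (Gf i x y) = Gf i (j x) (j y) := by
  refine hj.eq_of (fun z => by rw [mem_Gf, mem_Gf, hj.qx_iff]) fun z hz => ?_
  rcases (mem_Gf.1 hz).mem with h | h | h
  · exact ⟨x, h⟩
  · exact ⟨y, h⟩
  · obtain ⟨w, -, hw⟩ := hj.tr h
    exact ⟨w, hw⟩

theorem lt3_iff {β' γ' β γ : M} {i' i : Ix} :
    Lt3 (j β') (j γ') i' (j β) (j γ) i ↔ Lt3 β' γ' i' β γ i := by
  unfold Lt3
  simp only [← hj.un, hj.mem_iff, hj.inj]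

theorem step {f : M → M} {g : N → N} {α y : M} (h : ∀ x, x ∈ α → g (j x) = j (f x))
    (hs : Step f α y) : Step g (j α) (j y) := by
  rcases hs with ⟨β, γ, hβ, hγ, i, hy, h1, h2⟩ | ⟨h1, h2⟩
  · refine Or.inl ⟨j β, j γ, hj.mem_iff.2 hβ, hj.mem_iff.2 hγ, i, ?_, fun x hx hyx => ?_, ?_⟩
    · rw [hy, hj.gf, h β hβ, h γ hγ]
    · obtain ⟨x, hx', rfl⟩ := hj.tr hx
      rw [h x hx', hj.inj] at hyx
      exact h1 x hx' hyx
    · intro β' γ' hβ' hγ' i' hl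
      obtain ⟨β', hb, rfl⟩ := hj.tr hβ'
      obtain ⟨γ', hc, rfl⟩ := hj.tr hγ'
      obtain ⟨x, hx, hx'⟩ := h2 β' γ' hb hc i' (hj.lt3_iff.1 hl)
      exact ⟨j x, hj.mem_iff.2 hx, by rw [h β' hb, h γ' hc, h x hx, ← hx', hj.gf]⟩
  · refine Or.inr ⟨fun z => ⟨fun hz => ?_, ?_⟩, ?_⟩
    · obtain ⟨z, hz', rfl⟩ := hj.tr hz
      obtain ⟨x, hx, rfl⟩ := (h1 z).1 hz'
      exact ⟨j x, hj.mem_iff.2 hx, (h x hx).symm⟩
    · rintro ⟨x, hx, rfl⟩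
      obtain ⟨x, hx', rfl⟩ := hj.tr hx
      rw [h x hx', hj.mem_iff]
      exact (h1 (f x)).2 ⟨x, hx', rfl⟩
    · intro β' γ' hβ' hγ' i'
      obtain ⟨β', hb, rfl⟩ := hj.tr hβ'
      obtain ⟨γ', hc, rfl⟩ := hj.tr hγ'
      obtain ⟨x, hx, hx'⟩ := h2 β' γ' hb hc i'
      exact ⟨j x, hj.mem_iff.2 hx, by rw [h β' hb, h γ' hc, h x hx, ← hx', hj.gf]⟩

/-- The enumeration of the constructible sets is absolute. -/
theorem fc {α : M} (hα : Ord α) : j (Fc α) = Fc (j α) := by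
  -- the enumeration up to `α` is an element of `M`
  have hsα := ord_sc hα
  have hfn : Fn (lam (GL.sc α) Fc) (GL.sc α) := fn_lam Fc.dt
  have hap : ∀ x, x ∈ GL.sc α → GL.ap (lam (GL.sc α) Fc) x = Fc x := fun x hx => ap_lam Fc.dt hx
  have hst : ∀ x, x ∈ GL.sc α → Step (GL.ap (lam (GL.sc α) Fc)) x (GL.ap (lam (GL.sc α) Fc) x) := by
    intro x hx
    rw [hap x hx]
    exact Step.congr' (fun y hy => (hap y (hsα.trans hy hx)).symm) (step_Fc (hsα.mem hx))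
  generalize hh : lam (GL.sc α) Fc = h at hfn hap hst
  have key : ∀ x, x ∈ j (GL.sc α) → GL.ap (j h) x = Fc x := by
    have hO : Ord (j (GL.sc α)) := hj.ord_iff.2 hsα
    refine hO.ind (P := fun x => GL.ap (j h) x = Fc x) (by simp (maxDischargeDepth := 50)) ?_
    intro x hx ih
    obtain ⟨x, hx', rfl⟩ := hj.tr hx
    have h1 : Step (GL.ap (j h)) (j x) (j (GL.ap h x)) :=
      hj.step (fun y _ => (hj.ap h y).symm) (hst x hx')
    rw [← hj.ap]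
    exact Step.unique (hO.mem hx) (Step.congr' ih h1) (step_Fc (hO.mem hx))
  rw [← hap α (mem_sc_self α), hj.ap]
  exact key _ (hj.mem_iff.2 (mem_sc_self α))

end TrEmb

end Pool.Agent.GL
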