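import Pool.Agent.GL.Emb
import Pool.Agent.Frc.Check

/-!
The ground model is a transitive class with the same ordinals in the generic extension.
-/

universe u

set_option linter.unusedSectionVars false

namespace Pool.Agent.GL

open Pool.Agent.SigB

theorem trEmb_ext {M : Type u} [Membership M M] [IsZFC M] {P le one : M} {G : M → Prop}
    {N : Type u} [Membership N N] [IsZFC N] {val : M → N} (hE : Frc.Ext P le one G val) :
    TrEmb (fun x : M => val (Frc.ck one x)) where
  mem_iff := hE.cv_mem
  tr := fun h => hE.mem_cv.1 h
  ord := fun {α} h => by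
    have h' : SigB.Ord α := h
    obtain ⟨β, -, hβ⟩ := hE.ord_eq h'
    exact ⟨β, hβ⟩

end Pool.Agent.GL
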