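import Pool.Agent.GL.Tools

/-!
The enumeration of the constructible sets by the ordinals: at each step the next set is the first
new value of one of nine fundamental operations at earlier sets, and the set of all earlier sets if
there is no new value.
-/

universe u

set_option linter.unusedSectionVars false

namespace Pool.Agent.GL

open Pool.Agent.SigB

variable {M : Type u} [Membership M M] [IsZF M]

/-- The names of the nine fundamental operations. -/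
inductive Ix | c0 | c1 | c2 | c3 | c4 | c5 | c6 | c7 | c8

/-- The numbers of the operations. -/
def Ix.n : Ix → ℕ
  | c0 => 0 | c1 => 1 | c2 => 2 | c3 => 3 | c4 => 4 | c5 => 5 | c6 => 6 | c7 => 7 | c8 => 8

theorem Ix.n_inj {i j : Ix} (h : i.n = j.n) : i = j := by
  cases i <;> cases j <;> simp_all [Ix.n]

/-- Membership in the value of the operation `i` at `X, Y`. -/
def Qx : Ix → M → M → M → Prop
  | .c0, z, X, Y => z = X ∨ z = Y
  | .c1, z, X, Y => z ∈ X ∧ z ∉ Y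
  | .c2, z, X, Y => z ∈ X ∧ ∃ a b, z = op a b ∧ a ∈ Y
  | .c3, z, X, Y => z ∈ X ∧ ∃ a b, z = op a b ∧ b ∈ Y
  | .c4, z, X, Y => z ∈ X ∧ ∃ a, op a z ∈ Y
  | .c5, z, X, Y => z ∈ X ∧ ∃ b, op z b ∈ Y
  | .c6, z, X, _ => z ∈ X ∧ ∃ x y t, z = op x (op y t) ∧ x ∈ y
  | .c7, z, X, _ => z ∈ X ∧ ∃ x t, z = op x (op x t)
  | .c8, z, X, Y => z ∈ X ∧ ∃ x y t, z = op x (op y t) ∧ op x t ∈ Y

/-- The fundamental operations. -/
noncomputable def Gf (i : Ix) (X Y : M) : M := cp fun z => Qx i z X Y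

theorem Qx.dfn (i : Ix) : Dfn (fun w : Fin 3 → M => Qx i (w 0) (w 1) (w 2)) := by
  cases i <;> (unfold Qx; simp (maxDischargeDepth := 50))

@[simp] theorem dfn_Qx {n : ℕ} {i : Ix} {s t r : (Fin n → M) → M} (hs : DT s) (ht : DT t)
    (hr : DT r) : Dfn (fun v => Qx i (s v) (t v) (r v)) := dfn3 (Qx.dfn i) hs ht hr

theorem Qx.mem {i : Ix} {z X Y : M} (h : Qx i z X Y) : z = X ∨ z = Y ∨ z ∈ X := by
  cases i
  · rcases h with h | h
    · exact Or.inl h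
    · exact Or.inr (Or.inl h)
  all_goals exact Or.inr (Or.inr h.1)

theorem mem_Gf {i : Ix} {z X Y : M} : z ∈ Gf i X Y ↔ Qx i z X Y := by
  unfold Gf
  refine mem_cp' (by simp (maxDischargeDepth := 50)) ⟨un (pr X Y) X, fun z hz => ?_⟩
  rcases hz.mem with h | h | h <;> simp [h]

theorem Gf.dt (i : Ix) : DT (fun w : Fin 2 → M => Gf i (w 0) (w 1)) := by
  unfold Gf; simp (maxDischargeDepth := 50)

@[simp] theorem dt_Gf {n : ℕ} {i : Ix} {s t : (Fin n → M) → M} (hs : DT s) (ht : DT t) :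
    DT (fun v => Gf i (s v) (t v)) := dt2 (Gf.dt i) hs ht

@[simp] theorem dfn_exIx {n : ℕ} {P : (Fin n → M) → Ix → Prop}
    (h : ∀ i, Dfn fun v => P v i) : Dfn (fun v => ∃ i, P v i) := by
  refine ((h .c0).or ((h .c1).or ((h .c2).or ((h .c3).or ((h .c4).or ((h .c5).or ((h .c6).or
    ((h .c7).or (h .c8))))))))).congr fun v => ?_
  constructor
  · rintro (h | h | h | h | h | h | h | h | h) <;> exact ⟨_, h⟩
  · rintro ⟨i, h⟩
    cases i <;> simp only [h, true_or, or_true]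

@[simp] theorem dfn_allIx {n : ℕ} {P : (Fin n → M) → Ix → Prop}
    (h : ∀ i, Dfn fun v => P v i) : Dfn (fun v => ∀ i, P v i) :=
  (dfn_exIx (P := fun v i => ¬ P v i) fun i => (h i).not).not.congr fun v => by push Not; rfl

/-- The ordering of the triples `(β, γ, i)`. -/
def Lt3 (β' γ' : M) (i' : Ix) (β γ : M) (i : Ix) : Prop :=
  un β' γ' ∈ un β γ ∨ (un β' γ' = un β γ ∧ (β' ∈ β ∨ (β' = β ∧ (γ' ∈ γ ∨
    (γ' = γ ∧ i'.n < i.n)))))

@[simp] theorem dfn_Lt3 {n : ℕ} {i i' : Ix} {s t r q : (Fin n → M) → M} (hs : DT s) (ht : DT t)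
    (hr : DT r) (hq : DT q) : Dfn (fun v => Lt3 (s v) (t v) i' (r v) (q v) i) :=
  dfn4 (R := fun a b c d => Lt3 a b i' c d i)
    (by unfold Lt3; simp (maxDischargeDepth := 50)) hs ht hr hq

/-- `y` is the set chosen at step `α` when the sets chosen before are the `f β`, `β ∈ α`. -/
def Step (f : M → M) (α y : M) : Prop :=
  (∃ β γ, β ∈ α ∧ γ ∈ α ∧ ∃ i, y = Gf i (f β) (f γ) ∧ (∀ x, x ∈ α → y ≠ f x) ∧
    ∀ β' γ', β' ∈ α → γ' ∈ α → ∀ i', Lt3 β' γ' i' β γ i →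
      ∃ x, x ∈ α ∧ Gf i' (f β') (f γ') = f x) ∨
  ((∀ z, z ∈ y ↔ ∃ x, x ∈ α ∧ z = f x) ∧
    ∀ β' γ', β' ∈ α → γ' ∈ α → ∀ i', ∃ x, x ∈ α ∧ Gf i' (f β') (f γ') = f x)

theorem Step.congr' {f g : M → M} {α y : M} (h : ∀ x, x ∈ α → f x = g x) (hs : Step f α y) :
    Step g α y := by
  rcases hs with ⟨β, γ, hβ, hγ, i, hy, h1, h2⟩ | ⟨h1, h2⟩
  · refine Or.inl ⟨β, γ, hβ, hγ, i, by rw [hy, h β hβ, h γ hγ], fun x hx => ?_, ?_⟩
    · rw [← h x hx]; exact h1 x hx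
    · intro β' γ' hβ' hγ' i' hl
      obtain ⟨x, hx, hx'⟩ := h2 β' γ' hβ' hγ' i' hl
      exact ⟨x, hx, by rw [← h β' hβ', ← h γ' hγ', ← h x hx, hx']⟩
  · refine Or.inr ⟨fun z => ?_, ?_⟩
    · rw [h1 z]
      exact exists_congr fun x => and_congr_right fun hx => by rw [h x hx]
    · intro β' γ' hβ' hγ' i'
      obtain ⟨x, hx, hx'⟩ := h2 β' γ' hβ' hγ' i'
      exact ⟨x, hx, by rw [← h β' hβ', ← h γ' hγ', ← h x hx, hx']⟩

theorem Lt3.tri {β γ β' γ' : M} (hβ : Ord β) (hγ : Ord γ) (hβ' : Ord β') (hγ' : Ord γ')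
    (i i' : Ix) : Lt3 β' γ' i' β γ i ∨ (β' = β ∧ γ' = γ ∧ i' = i) ∨ Lt3 β γ i β' γ' i' := by
  unfold Lt3
  rcases (ord_un hβ' hγ').tri (ord_un hβ hγ) with h | h | h
  · exact Or.inl (Or.inl h)
  · rcases hβ'.tri hβ with h1 | h1 | h1
    · exact Or.inl (Or.inr ⟨h, Or.inl h1⟩)
    · rcases hγ'.tri hγ with h2 | h2 | h2
      · exact Or.inl (Or.inr ⟨h, Or.inr ⟨h1, Or.inl h2⟩⟩)
      · rcases lt_trichotomy i'.n i.n with h3 | h3 | h3
        · exact Or.inl (Or.inr ⟨h, Or.inr ⟨h1, Or.inr ⟨h2, h3⟩⟩⟩)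
        · exact Or.inr (Or.inl ⟨h1, h2, Ix.n_inj h3⟩)
        · exact Or.inr (Or.inr (Or.inr ⟨h.symm, Or.inr ⟨h1.symm, Or.inr ⟨h2.symm, h3⟩⟩⟩))
      · exact Or.inr (Or.inr (Or.inr ⟨h.symm, Or.inr ⟨h1.symm, Or.inl h2⟩⟩))
    · exact Or.inr (Or.inr (Or.inr ⟨h.symm, Or.inl h1⟩))
  · exact Or.inr (Or.inr (Or.inl h))

theorem Step.unique {f : M → M} {α y y' : M} (hα : Ord α) (h : Step f α y) (h' : Step f α y') :
    y = y' := by
  rcases h with ⟨β, γ, hβ, hγ, i, hy, h1, h2⟩ | ⟨h1, h2⟩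
  · rcases h' with ⟨β', γ', hβ', hγ', i', hy', h1', h2'⟩ | ⟨-, h2'⟩
    · rcases Lt3.tri (hα.mem hβ) (hα.mem hγ) (hα.mem hβ') (hα.mem hγ') i i' with h | h | h
      · obtain ⟨x, hx, hx'⟩ := h2 β' γ' hβ' hγ' i' h
        exact (h1' x hx (hy'.trans hx')).elim
      · obtain ⟨rfl, rfl, rfl⟩ := h
        rw [hy, hy']
      · obtain ⟨x, hx, hx'⟩ := h2' β γ hβ hγ i h
        exact (h1 x hx (hy.trans hx')).elim
    · obtain ⟨x, hx, hx'⟩ := h2' β γ hβ hγ i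
      exact (h1 x hx (hy.trans hx')).elim
  · rcases h' with ⟨β', γ', hβ', hγ', i', hy', h1', h2'⟩ | ⟨h1', -⟩
    · obtain ⟨x, hx, hx'⟩ := h2 β' γ' hβ' hγ' i'
      exact (h1' x hx (hy'.trans hx')).elim
    · exact ext' fun z => by rw [h1, h1']

theorem exists_step {f : M → M} (hf : DT (fun w : Fin 1 → M => f (w 0))) {α : M} (hα : Ord α) :
    ∃ y, Step f α y := by
  have hf' : ∀ {n : ℕ} {s : (Fin n → M) → M}, DT s → DT fun v => f (s v) := fun hs => dt1 hf hs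
  by_cases h : ∀ β' γ', β' ∈ α → γ' ∈ α → ∀ i', ∃ x, x ∈ α ∧ Gf i' (f β') (f γ') = f x
  · exact ⟨im α f, Or.inr ⟨fun z => mem_im hf, h⟩⟩
  · -- the least triple
    let N : M → M → Ix → Prop := fun β γ i => ∀ x, x ∈ α → Gf i (f β) (f γ) ≠ f x
    have hN : ∀ {n : ℕ} {s t : (Fin n → M) → M} (i : Ix), DT s → DT t →
        Dfn fun v => N (s v) (t v) i := fun i hs ht =>
      dfn2 (R := fun a b => N a b i) (by simp (maxDischargeDepth := 50) [N, hf']) hs ht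
    push Not at h
    obtain ⟨β₀, γ₀, hβ₀, hγ₀, i₀, h0⟩ := h
    obtain ⟨μ, hμ, ⟨β₁, γ₁, hβ₁, hγ₁, i₁, hm1, h1⟩, hμ'⟩ := Ord.exists_least
      (P := fun μ => ∃ β γ, β ∈ α ∧ γ ∈ α ∧ ∃ i, un β γ = μ ∧ N β γ i)
      (by simp (maxDischargeDepth := 50) [hN]) (ord_un (hα.mem hβ₀) (hα.mem hγ₀))
      ⟨β₀, γ₀, hβ₀, hγ₀, i₀, rfl, h0⟩
    obtain ⟨β, hOβ, ⟨γ₂, hβ, hγ₂, i₂, hm2, h2⟩, hβ'⟩ := Ord.exists_least
      (P := fun β => ∃ γ, β ∈ α ∧ γ ∈ α ∧ ∃ i, un β γ = μ ∧ N β γ i)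
      (by simp (maxDischargeDepth := 50) [hN]) (hα.mem hβ₁)
      ⟨γ₁, hβ₁, hγ₁, i₁, hm1, h1⟩
    obtain ⟨γ, hOγ, ⟨hγ, i₃, hm3, h3⟩, hγ'⟩ := Ord.exists_least
      (P := fun γ => γ ∈ α ∧ ∃ i, un β γ = μ ∧ N β γ i)
      (by simp (maxDischargeDepth := 50) [hN]) (hα.mem hγ₂)
      ⟨hγ₂, i₂, hm2, h2⟩
    classical
    have hex : ∃ k, ∃ i : Ix, i.n = k ∧ N β γ i := ⟨_, i₃, rfl, h3⟩
    obtain ⟨i, hi, h4⟩ := Nat.find_spec hex
    have hmin := fun k => Nat.find_min hex (m := k)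
    rw [← hi] at hmin
    refine ⟨Gf i (f β) (f γ), Or.inl ⟨β, γ, hβ, hγ, i, rfl, h4, ?_⟩⟩
    intro β' γ' hβα hγα i' hl
    by_contra hno
    have hno' : N β' γ' i' := fun x hx h => hno ⟨x, hx, h⟩
    rcases hl with hl | ⟨hl, hl'⟩
    · rw [hm3] at hl
      exact hμ' _ hl ⟨β', γ', hβα, hγα, i', rfl, hno'⟩
    · rw [hm3] at hl
      rcases hl' with hl' | ⟨rfl, hl'⟩
      · exact hβ' _ hl' ⟨γ', hβα, hγα, i', hl, hno'⟩
      · rcases hl' with hl' | ⟨rfl, hl'⟩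
        · exact hγ' _ hl' ⟨hγα, i', hl, hno'⟩
        · exact hmin i'.n hl' ⟨i', rfl, hno'⟩

/-- The unique set with a property. -/
noncomputable def the (P : M → Prop) : M := sU (cp P)

@[simp] theorem dt_the {n : ℕ} {P : (Fin n → M) → M → Prop}
    (hP : Dfn (fun w : Fin (n + 1) → M => P (fun i => w i.succ) (w 0))) :
    DT (fun v => the (P v)) := dt_sU (dt_cp hP)

theorem the_eq {P : M → Prop} {y : M} (h : P y) (h' : ∀ z, P z → z = y) : the P = y := by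
  have h1 : ∀ z, z ∈ cp P ↔ P z := fun z => mem_cp ⟨pr y y, fun x => by
    rw [mem_pr, or_self]
    exact ⟨fun hx => hx ▸ h, h' x⟩⟩
  unfold the
  refine ext' fun z => ?_
  rw [mem_sU]
  constructor
  · rintro ⟨u, hu, hz⟩
    rwa [h' u ((h1 u).1 hu)] at hz
  · intro hz
    exact ⟨y, (h1 y).2 h, hz⟩

theorem Step.dfnG : Dfn (fun w : Fin 3 → M => Step (ap (w 2)) (w 1) (w 0)) := by
  unfold Step
  simp (maxDischargeDepth := 50)

/-- The enumeration of the constructible sets. -/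
noncomputable def Fc (α : M) : M := orec (fun x h => the fun y => Step (ap h) x y) α

theorem Fc.dtG : DT (fun w : Fin 2 → M => the fun y => Step (ap (w 1)) (w 0) y) :=
  dt_the (P := fun (w : Fin 2 → M) y => Step (ap (w 1)) (w 0) y) Step.dfnG

theorem Fc.dt : DT (fun w : Fin 1 → M => Fc (w 0)) := by
  unfold Fc
  refine dt_orec (G := fun _ x h => the fun y => Step (ap h) x y) ?_ (DT.var 0)
  exact dt2 (F := fun x h => the fun y => Step (ap h) x y) Fc.dtG (DT.var 1) (DT.var 0)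

@[simp] theorem dt_Fc {n : ℕ} {s : (Fin n → M) → M} (hs : DT s) :
    DT (fun v => Fc (s v)) := dt1 Fc.dt hs

theorem step_Fc {α : M} (hα : Ord α) : Step Fc α (Fc α) := by
  have h1 : Fc α = the fun y => Step (ap (lam α Fc)) α y := by
    unfold Fc
    exact orec_eq (G := fun x h => the fun y => Step (ap h) x y) Fc.dtG hα
  have h2 : ∀ x, x ∈ α → ap (lam α Fc) x = Fc x := fun x hx => ap_lam Fc.dt hx
  obtain ⟨y, hy⟩ := exists_step (f := Fc) Fc.dt hα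
  have h3 : Fc α = y := by
    rw [h1]
    exact the_eq (Step.congr' (fun x hx => (h2 x hx).symm) hy) fun z hz =>
      Step.unique hα (Step.congr' h2 hz) hy
  rw [h3]
  exact hy

end Pool.Agent.GL
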