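import Pool.Agent.GL.Base
import Pool.Agent.GL.Clos

/-!
Existence of sets of small cardinality which are closed under the functions used in the
condensation argument.
-/

universe u

set_option linter.unusedSectionVars false

namespace Pool.Agent.GL

open Pool.Agent.SigB

instance : Finite Ix :=
  Finite.of_injective (fun i : Ix => (⟨i.n, by cases i <;> simp [Ix.n]⟩ : Fin 9))
    fun _ _ h => Ix.n_inj (Fin.mk.inj_iff.1 h)

section

variable {M : Type u} [Membership M M] [IsZF M]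

/-- The least pair of indices at step `α` is `(β, γ)`, for the operation `i`. -/
def Wit (i : Ix) (α β γ : M) : Prop := β ∈ α ∧ γ ∈ α ∧ Fc α = Gf i (Fc β) (Fc γ) ∧
  ∀ β' γ', β' ∈ α → γ' ∈ α → ∀ i', Lt3 β' γ' i' β γ i →
    ∃ x, x ∈ α ∧ Gf i' (Fc β') (Fc γ') = Fc x

theorem Wit.dfn (i : Ix) : Dfn (fun w : Fin 3 → M => Wit i (w 0) (w 1) (w 2)) := by
  unfold Wit; simp (maxDischargeDepth := 50)

@[simp] theorem dfn_Wit {n : ℕ} {i : Ix} {s t r : (Fin n → M) → M} (hs : DT s) (ht : DT t)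
    (hr : DT r) : Dfn (fun v => Wit i (s v) (t v) (r v)) := dfn3 (Wit.dfn i) hs ht hr

/-- The functions under which the hull is closed. -/
noncomputable def hf : Ix ⊕ Ix ⊕ Ix ⊕ Fin 7 → M → M → M
  | .inl i, x, y => Gf i x y
  | .inr (.inl i), x, _ => mu fun β => ∃ γ, Wit i x β γ
  | .inr (.inr (.inl i)), x, y => mu fun γ => Wit i x y γ
  | .inr (.inr (.inr 0)), x, _ => Fc x
  | .inr (.inr (.inr 1)), x, _ => idx x
  | .inr (.inr (.inr 2)), x, y => Fc (mu fun ξ => ¬ (Fc ξ ∈ x ↔ Fc ξ ∈ y))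
  | .inr (.inr (.inr 3)), x, _ => Fc (mu fun ξ => ∃ b, x = op (Fc ξ) b)
  | .inr (.inr (.inr 4)), x, _ => Fc (mu fun ξ => ∃ a, x = op a (Fc ξ))
  | .inr (.inr (.inr 5)), x, y => Fc (mu fun ξ => op (Fc ξ) x ∈ y)
  | .inr (.inr (.inr 6)), x, y => Fc (mu fun ξ => op x (Fc ξ) ∈ y)

theorem hf.dt (j : Ix ⊕ Ix ⊕ Ix ⊕ Fin 7) : DT (fun w : Fin 2 → M => hf j (w 0) (w 1)) := by
  rcases j with i | i | i | k
  · exact Gf.dt i
  · exact dt_mu (P := fun (v : Fin 2 → M) β => ∃ γ, Wit i (v 0) β γ)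
      (by simp (maxDischargeDepth := 50))
  · exact dt_mu (P := fun (v : Fin 2 → M) γ => Wit i (v 0) (v 1) γ)
      (by simp (maxDischargeDepth := 50))
  · fin_cases k
    · exact dt_Fc (DT.var 0)
    · exact dt_idx (DT.var 0)
    · exact dt_Fc (dt_mu (P := fun (v : Fin 2 → M) ξ => ¬ (Fc ξ ∈ v 0 ↔ Fc ξ ∈ v 1))
        (by simp (maxDischargeDepth := 50)))
    · exact dt_Fc (dt_mu (P := fun (v : Fin 2 → M) ξ => ∃ b, v 0 = op (Fc ξ) b)
        (by simp (maxDischargeDepth := 50)))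
    · exact dt_Fc (dt_mu (P := fun (v : Fin 2 → M) ξ => ∃ a, v 0 = op a (Fc ξ))
        (by simp (maxDischargeDepth := 50)))
    · exact dt_Fc (dt_mu (P := fun (v : Fin 2 → M) ξ => op (Fc ξ) (v 0) ∈ v 1)
        (by simp (maxDischargeDepth := 50)))
    · exact dt_Fc (dt_mu (P := fun (v : Fin 2 → M) ξ => op (v 0) (Fc ξ) ∈ v 1)
        (by simp (maxDischargeDepth := 50)))

/-- The first constructible set with a property. -/
theorem mu_Fc (hL : AllL M) {P : M → Prop} (hP : Dfn (fun w : Fin 1 → M => P (Fc (w 0))))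
    (h : ∃ x, P x) : P (Fc (mu fun ξ => P (Fc ξ))) := by
  obtain ⟨x, hx⟩ := h
  obtain ⟨α, hα, rfl⟩ := hL x
  exact (mu_spec (P := fun ξ => P (Fc ξ)) hP ⟨α, hα, hx⟩).2.1

/-- A set closed under the functions `hf` has the properties used in the condensation
argument. -/
theorem hul_of_closed (hL : AllL M) {H : M} (h : ∀ j x y, x ∈ H → y ∈ H → hf j x y ∈ H) :
    Hul H where
  fc α _ hH := h (.inr (.inr (.inr 0))) α α hH hH
  idx α hα hH := by
    have := h (.inr (.inr (.inr 1))) (Fc α) (Fc α) hH hH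
    rwa [show hf (.inr (.inr (.inr 1))) (Fc α) (Fc α) = idx (Fc α) from rfl, idx_Fc hα] at this
  gf i x y hx hy := h (.inl i) x y hx hy
  wit α hα hH i := by
    rintro ⟨β, γ, h1, h2, h3, h4⟩
    have hd1 : Dfn (fun w : Fin 1 → M => ∃ γ, Wit i α (w 0) γ) := by
      simp (maxDischargeDepth := 50)
    obtain ⟨-, ⟨γ₁, hγ₁⟩, -⟩ := mu_spec (P := fun β => ∃ γ, Wit i α β γ) hd1
      ⟨β, hα.mem h1, γ, h1, h2, h3, h4⟩
    have hb : (mu fun β => ∃ γ, Wit i α β γ) ∈ H := h (.inr (.inl i)) α α hH hH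
    generalize (mu fun β => ∃ γ, Wit i α β γ) = b at hγ₁ hb
    have hd2 : Dfn (fun w : Fin 1 → M => Wit i α b (w 0)) := by
      simp (maxDischargeDepth := 50)
    obtain ⟨-, h5, -⟩ := mu_spec (P := fun γ => Wit i α b γ) hd2
      ⟨γ₁, hα.mem hγ₁.2.1, hγ₁⟩
    exact ⟨b, _, h5.1, h5.2.1, hb, h (.inr (.inr (.inl i))) α b hH hb, h5.2.2.1, h5.2.2.2⟩
  dif x y hx hy hne := by
    refine ⟨_, h (.inr (.inr (.inr 2))) x y hx hy, ?_⟩
    refine mu_Fc hL (P := fun z => ¬ (z ∈ x ↔ z ∈ y)) (by simp (maxDischargeDepth := 50)) ?_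
    by_contra hno
    push Not at hno
    exact hne (ext' hno)
  cmp x y hxy := by
    constructor
    · have h1 := h (.inr (.inr (.inr 3))) _ _ hxy hxy
      obtain ⟨b, hb⟩ := mu_Fc hL (P := fun z => ∃ b, op x y = op z b)
        (by simp (maxDischargeDepth := 50)) ⟨x, y, rfl⟩
      rw [(op_inj.1 hb).1]
      exact h1
    · have h1 := h (.inr (.inr (.inr 4))) _ _ hxy hxy
      obtain ⟨b, hb⟩ := mu_Fc hL (P := fun z => ∃ a, op x y = op a z)
        (by simp (maxDischargeDepth := 50)) ⟨y, x, rfl⟩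
      rw [(op_inj.1 hb).2]
      exact h1
  rng z Y hz hY hex := ⟨_, h (.inr (.inr (.inr 5))) z Y hz hY,
    mu_Fc hL (P := fun a => op a z ∈ Y) (by simp (maxDischargeDepth := 50)) hex⟩
  dom z Y hz hY hex := ⟨_, h (.inr (.inr (.inr 6))) z Y hz hY,
    mu_Fc hL (P := fun b => op z b ∈ Y) (by simp (maxDischargeDepth := 50)) hex⟩

end

variable {M : Type u} [Membership M M] [IsZFC M]

theorem exists_hul (hL : AllL M) {κ : M} (hκ : SigB.Ord κ) (hom : SigB.Sb SigB.om κ)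
    {A : M} (hA : Forc.Le A κ) : ∃ H, SigB.Sb A H ∧ Hul H ∧ Forc.Le H κ := by
  obtain ⟨H, h1, h2, h3⟩ := exists_closure hκ hom hf hf.dt hA
  exact ⟨H, h1, hul_of_closed hL h2, h3⟩

end Pool.Agent.GL
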