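import Pool.Agent.GL.Gch0
import Pool.Agent.GL.Abs
import Pool.Agent.GL.Cho
import Pool.Agent.GL.Hull

/-!
Every model of ZFC has a model of ZFC in which the generalized continuum hypothesis holds.
-/

universe u

namespace Pool.Agent.GL

open Pool.Agent.SigB

theorem gch_of_allL {M : Type u} [Membership M M] [IsZFC M] (hL : AllL M) : Forc.GCH M :=
  gch_of_hul hL fun h1 h2 _ h3 => exists_hul hL h1 h2 h3

/-- The model of the constructible sets: every model of ZFC has a model of ZFC in which all sets
are constructible. -/
theorem exists_allL (M : Type u) [Membership M M] [IsZF M] :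
    ∃ (N : Type u) (_ : Membership N N) (_ : IsZFC N), AllL N := by
  haveI hz : IsZF (LM M) := isZF_LM
  have hA : AllL (LM M) := allL_LM
  exact ⟨LM M, inferInstance, isZFC_of_allL hA, hA⟩

/-- The generalized continuum hypothesis is consistent relative to ZFC. -/
theorem exists_gch (M : Type u) [Membership M M] [IsZFC M] :
    ∃ (N : Type u) (_ : Membership N N), IsZFC N ∧ Forc.GCH N := by
  obtain ⟨N, hN, hz, hL⟩ := exists_allL M
  exact ⟨N, hN, hz, gch_of_allL hL⟩

end Pool.Agent.GL
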