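import Pool.Agent.GL.Cond
import Pool.Agent.Forc.CardB
import Pool.Agent.Forc.Hess
import Pool.Agent.Forc.Tr

/-!
The generalized continuum hypothesis in a model in which all sets are constructible, from the
existence of closed sets of small cardinality.
-/

universe u

set_option linter.unusedSectionVars false

namespace Pool.Agent.GL

open Pool.Agent.SigB

variable {M : Type u} [Membership M M] [IsZFC M]

/-- GCH from the existence of hulls. -/
theorem gch_of_hul (hL : AllL M)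
    (hhul : ∀ {κ : M}, SigB.Ord κ → SigB.Sb SigB.om κ → ∀ {A : M}, Forc.Le A κ →
      ∃ H, SigB.Sb A H ∧ Hul H ∧ Forc.Le H κ) : Forc.GCH M := by
  intro κ ν p hκ hν hκν hp
  obtain ⟨hκc, hom⟩ := Forc.isInfCardinal_iff.1 hκ
  have hOκ : SigB.Ord κ := (Forc.isCardinal_iff.1 hκc).1
  obtain ⟨hOν, hνc⟩ := Forc.isCardinal_iff.1 hν
  refine Forc.injects_iff.2 (Forc.Le.mk (F := idx) (dt_idx (DT.var 0)) (fun x hx => ?_)
    fun x y hx hy h => ?_)
  · have hxκ : Sb x κ := (hp x).1 hx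
    have hA : Forc.Le (SigB.un κ (SigB.pr x x)) κ :=
      (Forc.Le.insert (Forc.Le.refl κ) x).trans (Forc.le_sc hom)
    obtain ⟨H, hAH, hH, hHκ⟩ := hhul hOκ hom hA
    have hκH : Sb κ H := fun z hz => hAH z (SigB.mem_un.2 (Or.inl hz))
    have hxH : x ∈ H := hAH x (SigB.mem_un.2 (Or.inr (by simp)))
    obtain ⟨q, hq, hqi, -⟩ := exists_clp hH
    have hfix : ap q x = x := clp_fix_sub hq (k := κ) hOκ.1 hκH hxH hxκ
    obtain ⟨hOα, hα⟩ := idx_spec (hL x)
    have hαH : idx x ∈ H := hH.idx _ hOα (by rw [hα]; exact hxH)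
    obtain ⟨h1, h2⟩ := condense hL hH hq hOα hαH
    rw [hα, hfix] at h2
    have h3 : idx x = ap q (idx x) := Fc_inj hOα h1 (hα.trans h2)
    -- the index injects into `H`
    have h4 : Forc.Le (idx x) H := by
      have hd : DT (fun w : Fin 1 → M => the fun y => y ∈ H ∧ ap q y = w 0) :=
        dt_the (P := fun (w : Fin 1 → M) y => y ∈ H ∧ ap q y = w 0)
          (by simp (maxDischargeDepth := 50))
      have hval : ∀ ξ, ξ ∈ idx x → ∃ y, y ∈ H ∧ ap q y = ξ ∧
          (the fun y => y ∈ H ∧ ap q y = ξ) = y := by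
        intro ξ hξ
        rw [h3] at hξ
        obtain ⟨y, hy, -, hy'⟩ := (hq.2 _ hαH ξ).1 hξ
        exact ⟨y, hy, hy'.symm, the_eq ⟨hy, hy'.symm⟩ fun z hz =>
          hqi z y hz.1 hy (hz.2.trans hy')⟩
      refine Forc.Le.mk (F := fun ξ => the fun y => y ∈ H ∧ ap q y = ξ) hd (fun ξ hξ => ?_)
        fun ξ η hξ hη he => ?_
      · obtain ⟨y, hy, -, h⟩ := hval ξ hξ
        rw [h]
        exact hy
      · obtain ⟨y, hy, h5, h6⟩ := hval ξ hξ
        obtain ⟨z, hz, h7, h8⟩ := hval η hη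
        rw [h6, h8] at he
        rw [← h5, ← h7, he]
    have hno : ¬ Sb ν (idx x) := fun hs =>
      hνc κ hκν (((Forc.Le.of_sb hs).trans h4).trans hHκ)
    rcases Ord.tri hOα hOν with h | h | h
    · exact h
    · exact (hno (by rw [h]; exact Sb.refl _)).elim
    · exact (hno (hOα.1 ν h)).elim
  · rw [← (idx_spec (hL x)).2, ← (idx_spec (hL y)).2, h]

end Pool.Agent.GL
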