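import Pool.Agent.GL.Base

/-!
The constructible sets are a model of the axioms of Zermelo and Fraenkel.
-/

universe u

set_option linter.unusedSectionVars false

namespace Pool.Agent.GL

open Pool.Agent.SigB

variable {M : Type u} [Membership M M] [IsZF M]

variable (M) in
/-- The normal form (statement). -/
def NormalForm : Prop := ∀ {n : ℕ} (φ : Fml (LM M) n) (b : M), Lc b → ∃ d : M, Lc d ∧
    ∀ t, t ∈ d ↔ ∃ v : Fin n → LM M, (∀ i, (v i).1 ∈ b) ∧ φ.Sat v ∧ t = tup fun i => (v i).1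

variable (M) in
/-- Definability of the relativization (statement). -/
def DfnRel : Prop := ∀ {n : ℕ} {P : (Fin n → LM M) → Prop}, Dfn P →
    Dfn (fun v : Fin n → M => ∃ h : ∀ i, Lc (v i), P fun i => ⟨v i, h i⟩)

theorem LM.sep (hnf : NormalForm M) (φ : Fml (LM M) 1) (a : LM M) : ∃ b : LM M, ∀ x : LM M, x ∈ b ↔ x ∈ a ∧ φ.Sat ![x] := by
  obtain ⟨d, hd, hd'⟩ := hnf φ a.1 a.2
  have h1 : ∀ z, z ∈ Gf .c5 a.1 d ↔ z ∈ a.1 ∧ ∃ b, op z b ∈ d := fun z => mem_Gf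
  refine ⟨⟨Gf .c5 a.1 d, Lc.gf _ a.2 hd⟩, fun x => ?_⟩
  rw [LM.mem_iff, LM.mem_iff]
  rw [h1]
  refine and_congr_right fun hx => ?_
  constructor
  · rintro ⟨b, hb⟩
    obtain ⟨v, -, hv, ht⟩ := (hd' _).1 hb
    have h2 : op x.1 b = op (v 0).1 (tup fun i : Fin 0 => (v i.succ).1) := ht
    have h3 : v = ![x] := by
      funext i
      rw [Subsingleton.elim i 0]
      exact Subtype.ext (op_inj.1 h2).1.symm
    rwa [h3] at hv
  · intro hφ
    refine ⟨tup fun i : Fin 0 => ((![x] : Fin 1 → LM M) i.succ).1, (hd' _).2 ⟨![x], ?_, hφ, rfl⟩⟩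
    intro i
    rw [Subsingleton.elim i 0]
    exact hx

theorem LM.sep' (hnf : NormalForm M) {P : LM M → Prop} (hP : Dfn (fun v : Fin 1 → LM M => P (v 0))) (a : LM M) :
    ∃ b : LM M, ∀ x : LM M, x ∈ b ↔ x ∈ a ∧ P x := by
  obtain ⟨φ, hφ⟩ := hP
  obtain ⟨b, hb⟩ := LM.sep hnf φ a
  exact ⟨b, fun x => by rw [hb x, ← hφ]; rfl⟩

/-- A constructible set which contains all elements of a set of constructible sets. -/
theorem LM.bd (s : M) (hs : ∀ x, x ∈ s → Lc x) : ∃ b : LM M, ∀ x, x ∈ s → x ∈ b.1 := by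
  obtain ⟨δ, -, h1, -, -, h2, -⟩ := exists_lc_sup s hs
  exact ⟨⟨XX δ, h1⟩, h2⟩

theorem LM.eq_iff {x y : LM M} : x = y ↔ x.1 = y.1 := Subtype.ext_iff

theorem lc_pr {x y : M} (hx : Lc x) (hy : Lc y) : Lc (pr x y) := by
  have h : Gf .c0 x y = pr x y := ext' fun z => by
    rw [mem_Gf, mem_pr]
    rfl
  rw [← h]
  exact Lc.gf _ hx hy

theorem lc_df {x y : M} (hx : Lc x) (hy : Lc y) : Lc (df x y) := by
  have h : Gf .c1 x y = df x y := ext' fun z => by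
    rw [mem_Gf, mem_df]
    rfl
  rw [← h]
  exact Lc.gf _ hx hy

theorem lc_un {x y : M} (hx : Lc x) (hy : Lc y) : Lc (un x y) := by
  obtain ⟨δ, -, h1, -, -, h2, -⟩ := exists_lc_sup (un x y) (by
    intro z hz
    rcases mem_un.1 hz with h | h
    · exact hx.mem h
    · exact hy.mem h)
  have h : df (XX δ) (df (df (XX δ) x) y) = un x y := ext' fun z => by
    rw [mem_df, mem_df, mem_df, mem_un]
    constructor
    · rintro ⟨h3, h4⟩
      by_contra h5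
      push Not at h5
      exact h4 ⟨⟨h3, h5.1⟩, h5.2⟩
    · intro h3
      refine ⟨h2 z (mem_un.2 h3), ?_⟩
      rintro ⟨⟨-, h4⟩, h5⟩
      exact h3.elim h4 h5
  rw [← h]
  exact lc_df h1 (lc_df (lc_df h1 hx) hy)

theorem lc_sc {x : M} (hx : Lc x) : Lc (sc x) := lc_un hx (lc_pr hx hx)

theorem lc_of_mem_om {x : M} (hx : x ∈ (om : M)) : Lc x :=
  om_ind (P := Lc) (by simp) lc_em (fun _ _ h => lc_sc h) x hx

/-- The natural numbers in the constructible sets. -/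
def Nn {N : Type u} [Membership N N] (z : N) : Prop :=
  ((∀ y, y ∈ z → ∀ w, w ∈ y → w ∈ z) ∧ ∀ y, y ∈ z → ∀ w, w ∈ y → ∀ u, u ∈ w → u ∈ y) ∧
  ((∀ u, u ∉ z) ∨ ∃ w, w ∈ z ∧ ∀ u, u ∈ z ↔ u ∈ w ∨ u = w) ∧
  ∀ y, y ∈ z → (∀ u, u ∉ y) ∨ ∃ w, w ∈ y ∧ ∀ u, u ∈ y ↔ u ∈ w ∨ u = w

theorem nn_iff {z : M} : Nn z ↔ z ∈ (om : M) := by
  have hz : ∀ y : M, y ∈ (om : M) → (∀ u, u ∉ y) ∨ ∃ w, w ∈ y ∧ ∀ u, u ∈ y ↔ u ∈ w ∨ u = w := by
    intro y hy
    rcases om_cases hy with rfl | ⟨m, hm, rfl⟩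
    · exact Or.inl not_mem_em
    · exact Or.inr ⟨m, mem_sc_self m, fun u => mem_sc⟩
  have hom : ¬ ((∀ u, u ∉ (om : M)) ∨ ∃ w, w ∈ (om : M) ∧ ∀ u, u ∈ (om : M) ↔ u ∈ w ∨ u = w) := by
    rintro (h | ⟨w, hw, h⟩)
    · exact h _ em_mem_om
    · have h1 := (h (sc w)).1 (sc_mem_om hw)
      rcases h1 with h1 | h1
      · exact not_mem_mem h1 (mem_sc_self w)
      · have := mem_sc_self w
        rw [h1] at this
        exact not_mem_self _ this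
  constructor
  · rintro ⟨h1, h2, h3⟩
    have hO : Ord z := h1
    rcases hO.tri om_ord with h | h | h
    · exact h
    · rw [h] at h2
      exact absurd h2 hom
    · exact absurd (h3 _ h) hom
  · intro h
    exact ⟨ord_of_mem_om h, hz z h, fun y hy => hz y (om_ord.trans hy h)⟩

theorem nn_abs (z : LM M) : Nn z ↔ Nn z.1 := by
  have hall : ∀ (y : LM M) (P : M → Prop), (∀ u : LM M, u ∈ y → P u.1) ↔ ∀ u, u ∈ y.1 → P u :=
    fun y P => ⟨fun h u hu => h ⟨u, y.2.mem hu⟩ hu, fun h u hu => h u.1 hu⟩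
  have h0 : ∀ y : LM M, ((∀ u : LM M, u ∉ y) ∨ ∃ w : LM M, w ∈ y ∧ ∀ u : LM M, u ∈ y ↔ u ∈ w ∨ u = w) ↔
      ((∀ u, u ∉ y.1) ∨ ∃ w, w ∈ y.1 ∧ ∀ u, u ∈ y.1 ↔ u ∈ w ∨ u = w) := by
    intro y
    refine or_congr ?_ ?_
    · exact ⟨fun h u hu => h ⟨u, y.2.mem hu⟩ hu, fun h u hu => h u.1 hu⟩
    · constructor
      · rintro ⟨w, hw, h⟩
        refine ⟨w.1, hw, fun u => ⟨fun hu => ?_, fun hu => ?_⟩⟩
        · rcases (h ⟨u, y.2.mem hu⟩).1 hu with h1 | h1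
          · exact Or.inl h1
          · exact Or.inr (congrArg Subtype.val h1)
        · rcases hu with hu | rfl
          · exact (h ⟨u, w.2.mem hu⟩).2 (Or.inl hu)
          · exact hw
      · rintro ⟨w, hw, h⟩
        refine ⟨⟨w, y.2.mem hw⟩, hw, fun u => ?_⟩
        rw [LM.mem_iff, h u.1, LM.eq_iff]
        rfl
  unfold Nn
  refine and_congr (and_congr ?_ ?_) (and_congr (h0 z) ?_)
  · rw [← hall z (fun y => ∀ w, w ∈ y → w ∈ z.1)]
    refine forall₂_congr fun y hy => ?_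
    exact hall y (fun w => w ∈ z.1)
  · rw [← hall z (fun y => ∀ w, w ∈ y → ∀ u, u ∈ w → u ∈ y)]
    refine forall₂_congr fun y hy => ?_
    rw [← hall y (fun w => ∀ u, u ∈ w → u ∈ y.1)]
    refine forall₂_congr fun w hw => ?_
    exact hall w (fun u => u ∈ y.1)
  · rw [← hall z (fun y => (∀ u, u ∉ y) ∨ ∃ w, w ∈ y ∧ ∀ u, u ∈ y ↔ u ∈ w ∨ u = w)]
    exact forall₂_congr fun y hy => h0 y

theorem exists_omL (hnf : NormalForm M) : ∃ o : LM M, o.1 = om := by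
  obtain ⟨b, hb⟩ := LM.bd (om : M) fun x hx => lc_of_mem_om hx
  obtain ⟨o, ho⟩ := LM.sep' hnf (P := fun z => Nn z) (by unfold Nn; simp (maxDischargeDepth := 50)) b
  refine ⟨o, ext' fun z => ⟨fun hz => ?_, fun hz => ?_⟩⟩
  · have h1 := ((ho ⟨z, o.2.mem hz⟩).1 hz).2
    rw [nn_abs, nn_iff] at h1
    exact h1
  · refine (ho ⟨z, lc_of_mem_om hz⟩).2 ⟨hb z hz, ?_⟩
    rw [nn_abs, nn_iff]
    exact hz

theorem lc_om_of (hnf : NormalForm M) : Lc (om : M) := by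
  obtain ⟨o, ho⟩ := exists_omL hnf
  rw [← ho]
  exact o.2

theorem isZF_LM_of (hnf : NormalForm M) (hrel : DfnRel M) : IsZF (LM M) where
  ext x y h := by
    apply Subtype.ext
    refine ext' fun z => ⟨fun hz => ?_, fun hz => ?_⟩
    · exact (h ⟨z, x.2.mem hz⟩).1 hz
    · exact (h ⟨z, y.2.mem hz⟩).2 hz
  found := by
    rintro x ⟨y, hy⟩
    obtain ⟨m, hm, h⟩ := IsZF.found x.1 ⟨y.1, hy⟩
    exact ⟨⟨m, x.2.mem hm⟩, hm, fun z hz => h z.1 hz⟩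
  pairing x y := ⟨⟨pr x.1 y.1, lc_pr x.2 y.2⟩, mem_pr.2 (Or.inl rfl), mem_pr.2 (Or.inr rfl)⟩
  union x := by
    obtain ⟨b, hb⟩ := LM.bd (sU x.1) fun z hz => by
      obtain ⟨y, hy, hz⟩ := mem_sU.1 hz
      exact (x.2.mem hy).mem hz
    exact ⟨b, fun y z hz hy => hb _ (mem_sU.2 ⟨y.1, hy, hz⟩)⟩
  power x := by
    obtain ⟨b, hb⟩ := LM.bd (sp (pw x.1) Lc) fun z hz => ((mem_sp (by simp)).1 hz).2
    refine ⟨b, fun y hy => hb _ ((mem_sp (by simp)).2 ⟨mem_pw.2 fun z hz => ?_, y.2⟩)⟩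
    exact hy ⟨z, y.2.mem hz⟩ hz
  infinity := by
    refine ⟨⟨om, lc_om_of hnf⟩, ⟨⟨em, lc_em⟩, em_mem_om, fun z hz => not_mem_em _ hz⟩, fun y hy => ?_⟩
    refine ⟨⟨sc y.1, lc_sc y.2⟩, sc_mem_om hy, fun z => ?_⟩
    rw [LM.mem_iff, LM.mem_iff, LM.eq_iff]
    exact mem_sc
  separation := LM.sep hnf
  replacement φ a h := by
    have hR : Dfn (fun w : Fin 2 → M => ∃ h : ∀ i, Lc (w i), φ.Sat fun i => ⟨w i, h i⟩) :=
      hrel ⟨φ, fun _ => Iff.rfl⟩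
    obtain ⟨b, hb⟩ := collection (R := fun x y => ∃ h : ∀ i, Lc ((![x, y] : Fin 2 → M) i),
      φ.Sat fun i => ⟨(![x, y] : Fin 2 → M) i, h i⟩) (by
        refine hR.congr fun w => ?_
        have hw : w = ![w 0, w 1] := by
          funext i
          fin_cases i <;> rfl
        conv_lhs => rw [hw]) a.1
    obtain ⟨c, hc⟩ := LM.bd (sp b Lc) fun z hz => ((mem_sp (by simp)).1 hz).2
    refine ⟨c, fun x hx => ?_⟩
    obtain ⟨y, hy, -⟩ := h x hx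
    obtain ⟨y', hy', hL, hs⟩ := hb x.1 hx ⟨y.1, by
      refine ⟨fun i => ?_, ?_⟩
      · fin_cases i
        · exact x.2
        · exact y.2
      · have h1 : (![x, y] : Fin 2 → LM M) = fun i => ⟨(![x.1, y.1] : Fin 2 → M) i, by
            fin_cases i
            · exact x.2
            · exact y.2⟩ := by
          funext i
          fin_cases i <;> rfl
        rwa [h1] at hy⟩
    have hLy : Lc y' := hL 1
    refine ⟨⟨y', hLy⟩, hc _ ((mem_sp (by simp)).2 ⟨hy', hLy⟩), ?_⟩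
    have h1 : (![x, ⟨y', hLy⟩] : Fin 2 → LM M) = fun i => ⟨(![x.1, y'] : Fin 2 → M) i, hL i⟩ := by
      funext i
      fin_cases i <;> rfl
    rw [h1]
    exact hs

end Pool.Agent.GL
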